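import Pool.Agent.Helper47.RFn.Alg

/-!
# Project RFn: the frame bundle algebra in dimension `n + 1`

Abstract structure (in the application): a compact space `Z = Sⁿ × O(n+1)` of pairs (point, frame), a
commutative algebra `B` of smooth functions on `Z × (0,T)`, horizontal derivations `H a`, vertical
derivations `V a b` (antisymmetric), time derivation `D`.  The metric is `g + dr²/r²` on
`ℝ^{n+1} \ 0 = Sⁿ × ℝ`; frames have `n + 1` members, `nu a` are the components of the parallel radial unit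
vector.  `R` = curvature tensor of the moving frame (`R a b a b` = sectional curvature), `S` = evolution of the
frame (`∂_t F_a = S_ab F_b`; `S = Ric`: Ricci flow, `S = 0`: a static metric).

A vector valued (equivariant) function `W c` satisfies `V a b (W c) = δ_bc W a - δ_ac W b`.
-/

namespace Pool.Agent.Helper47.RFn

open Finset

/-- the time interval -/
abbrev TI (T : ℝ) := Set.Ioo (0 : ℝ) T

/-- index type of the frames -/
abbrev Ix (n : ℕ) := Fin (n + 1)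

/-- Frame bundle data over the time interval `(0,T)`. -/
structure FB (n : ℕ) (T : ℝ) where
  Z : Type
  B : Type
  [topZ : TopologicalSpace Z]
  [cptZ : CompactSpace Z]
  [neZ : Nonempty Z]
  [ringB : CommRing B]
  [algB : Algebra ℝ B]
  /-- evaluation at `(z,t)` -/
  ev : Z → TI T → (B →ₐ[ℝ] ℝ)
  /-- horizontal derivations -/
  H : Ix n → Derivation ℝ B B
  /-- vertical derivations -/
  V : Ix n → Ix n → Derivation ℝ B B
  /-- time derivation -/
  D : Derivation ℝ B B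
  /-- curvature tensor -/
  R : Ix n → Ix n → Ix n → Ix n → B
  /-- evolution of the frame -/
  S : Ix n → Ix n → B
  /-- radial unit vector -/
  nu : Ix n → B
  /-- the function `t` -/
  tt : B

attribute [instance] FB.topZ FB.cptZ FB.neZ FB.ringB FB.algB

namespace FB

variable {n : ℕ} {T : ℝ} (F : FB n T)

/-- Kronecker symbol in `B` -/
def dl (a b : Ix n) : F.B := if a = b then 1 else 0

/-- projection orthogonal to `nu` -/
def P (a b : Ix n) : F.B := F.dl a b - F.nu a * F.nu b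

/-- Ricci tensor -/
def Ric (a c : Ix n) : F.B := ∑ b, F.R a b c b

/-- scalar curvature divided by `n` -/
noncomputable def lam : F.B := (1 / (n : ℝ)) • ∑ a, F.Ric a a

/-- curvature tensor of the unit sphere -/
def I (a b c d : Ix n) : F.B := F.P a c * F.P b d - F.P a d * F.P b c

/-- the part of the curvature that vanishes for constant curvature -/
noncomputable def E (a b c d : Ix n) : F.B :=
  F.R a b c d - (1 / ((n : ℝ) - 1)) • (F.lam * F.I a b c d)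

/-- `|E|²` -/
noncomputable def e2 : F.B := ∑ a, ∑ b, ∑ c, ∑ d, F.E a b c d ^ 2

/-- reaction term -/
def QR (a b c d : Ix n) : F.B := ∑ e, ∑ f, (F.R a e b f * F.R c e d f - F.R a e b f * F.R d e c f
  + F.R a e c f * F.R b e d f - F.R a e d f * F.R b e c f)

/-- the Laplacian on the frame bundle -/
def Lap (f : F.B) : F.B := ∑ a, F.H a (F.H a f)

/-- the heat operator `D - Lap` -/
def Hop (f : F.B) : F.B := F.D f - F.Lap f

/-- `⟨∇f, ∇g⟩` -/
def gg (f g : F.B) : F.B := ∑ a, F.H a f * F.H a g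

/-- `|D²f|²` -/
def h2 (f : F.B) : F.B := ∑ a, ∑ b, F.H a (F.H b f) ^ 2

/-- `|∇E|²` -/
noncomputable def dE : F.B := ∑ e, ∑ a, ∑ b, ∑ c, ∑ d, F.H e (F.E a b c d) ^ 2

/-- `|∇R|²` -/
noncomputable def dR : F.B := ∑ e, ∑ a, ∑ b, ∑ c, ∑ d, F.H e (F.R a b c d) ^ 2

/-- vertical part of `[D, H a]` is `(1/2) ∑ Y a c d V c d` -/
def Y (a c d : Ix n) : F.B := F.H d (F.S a c) - F.H c (F.S a d)

/-- iterated horizontal derivative along a word -/
def Hw : List (Ix n) → F.B → F.B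
  | [], f => f
  | a :: w, f => F.H a (Hw w f)

/-- traceless Ricci tensor -/
noncomputable def Ric0 (a b : Ix n) : F.B := F.Ric a b - F.lam * F.P a b

/-- `Ric0 ∧ P` -/
noncomputable def W0 (a b c d : Ix n) : F.B :=
  (1 / 2 : ℝ) • (F.Ric0 a c * F.P b d - F.Ric0 a d * F.P b c + F.P a c * F.Ric0 b d - F.P a d * F.Ric0 b c)

/-- `elli a b (R + bet I)` -/
noncomputable def Sb (a b : ℝ) (bet : F.B) (i j k l : Ix n) : F.B :=
  F.R i j k l + bet * F.I i j k l
    - (2 * a / (1 + 2 * ((n : ℝ) - 1) * a)) • ((F.lam + ((n : ℝ) - 1) • bet) * F.I i j k l)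
    - (2 * b / (1 + ((n : ℝ) - 2) * b)) • F.W0 i j k l

/-- value at `(z,r)`, `0` outside the time interval -/
noncomputable def val (z : F.Z) (f : F.B) (r : ℝ) : ℝ :=
  open Classical in if h : r ∈ Set.Ioo (0 : ℝ) T then F.ev z ⟨r, h⟩ f else 0

/-- `f` is a function of the point only -/
def VI (f : F.B) : Prop := ∀ k l, F.V k l f = 0

/-- curvature tensor at a point of the bundle -/
def rv (z : F.Z) (t : TI T) : T4 (n + 1) := fun a b c d => F.ev z t (F.R a b c d)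

/-- radial vector at a point of the bundle -/
def nv (z : F.Z) (t : TI T) : Ix n → ℝ := fun a => F.ev z t (F.nu a)

/-- Axioms (checked in the concrete model). -/
structure Base (F : FB n T) : Prop where
  ext : ∀ f g : F.B, (∀ z t, F.ev z t f = F.ev z t g) → f = g
  cont : ∀ f : F.B, Continuous (fun p : F.Z × TI T => F.ev p.1 p.2 f)
  tt_ev : ∀ z t, F.ev z t F.tt = (t : ℝ)
  tt_D : F.D F.tt = 1
  tt_H : ∀ a, F.H a F.tt = 0
  tt_V : ∀ k l, F.V k l F.tt = 0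
  time : ∀ (f : F.B) (z : F.Z) (t : TI T), HasDerivAt (F.val z f) (F.ev z t (F.D f)) t
  /-- at a spatial minimum -/
  min1 : ∀ (f : F.B) (z : F.Z) (t : TI T), (∀ z', F.ev z t f ≤ F.ev z' t f) →
    ∀ a, F.ev z t (F.H a f) = 0 ∧ 0 ≤ F.ev z t (F.H a (F.H a f))
  comp : ∀ (φ : ℝ → ℝ) (U : Set ℝ), IsOpen U → ContDiffOn ℝ ((⊤ : ℕ∞) : WithTop ℕ∞) φ U →
    ∀ f : F.B, (∀ z t, F.ev z t f ∈ U) → ∃ g : F.B, ∀ z t, F.ev z t g = φ (F.ev z t f)
  chain : ∀ (φ : ℝ → ℝ) (U : Set ℝ), IsOpen U → ContDiffOn ℝ ((⊤ : ℕ∞) : WithTop ℕ∞) φ U →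
    ∀ f g : F.B, (∀ z t, F.ev z t f ∈ U) → (∀ z t, F.ev z t g = φ (F.ev z t f)) → ∀ z t,
      (∀ a, F.ev z t (F.H a g) = deriv φ (F.ev z t f) * F.ev z t (F.H a f))
      ∧ (∀ k l, F.ev z t (F.V k l g) = deriv φ (F.ev z t f) * F.ev z t (F.V k l f))
      ∧ F.ev z t (F.D g) = deriv φ (F.ev z t f) * F.ev z t (F.D f)
  /-- linear independence of the frame (modulo the radial direction) -/
  ind : ∀ (a : Ix n → F.B) (b : Ix n → Ix n → F.B), (∀ k l, b k l = - b l k) →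
    (∀ f : F.B, ∑ i, a i * F.H i f + ∑ k, ∑ l, b k l * F.V k l f = 0) →
    (∀ i, a i = F.nu i * ∑ j, F.nu j * a j) ∧ (∀ k l, b k l = 0)
  Vanti : ∀ k l f, F.V k l f = - F.V l k f
  VV : ∀ a b c d f, F.V a b (F.V c d f) - F.V c d (F.V a b f) =
    F.dl b c * F.V a d f - F.dl a c * F.V b d f - F.dl b d * F.V a c f + F.dl a d * F.V b c f
  VH : ∀ k l a f, F.V k l (F.H a f) - F.H a (F.V k l f) =
    F.dl l a * F.H k f - F.dl k a * F.H l f
  R12 : ∀ a b c d, F.R a b c d = - F.R b a c d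
  R34 : ∀ a b c d, F.R a b c d = - F.R a b d c
  HH : ∀ a b f, F.H a (F.H b f) - F.H b (F.H a f) =
    (-(1 / 2) : ℝ) • ∑ c, ∑ d, F.R a b c d * F.V c d f
  DV : ∀ k l f, F.D (F.V k l f) = F.V k l (F.D f)
  /-- the vertical part is not specified -/
  DH : ∃ Y' : Ix n → Ix n → Ix n → F.B, (∀ a c d, Y' a c d = - Y' a d c) ∧
    ∀ a f, F.D (F.H a f) = F.H a (F.D f)
      + ∑ b, F.S a b * F.H b f + (1 / 2 : ℝ) • ∑ c, ∑ d, Y' a c d * F.V c d f
  Ssymm : ∀ i j, F.S i j = F.S j i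
  nunu : ∑ a, F.nu a ^ 2 = 1
  Hnu : ∀ a b, F.H a (F.nu b) = 0
  Vnu : ∀ k l a, F.V k l (F.nu a) = F.dl l a * F.nu k - F.dl k a * F.nu l
  Dnu : ∀ a, F.D (F.nu a) = 0
  nuH : ∀ f, ∑ a, F.nu a * F.H a f = 0
  nuS : ∀ a, ∑ b, F.S a b * F.nu b = 0

/-- All identities of the algebra. -/
structure Full (F : FB n T) : Prop extends Base F where
  nuR : ∀ a b c, ∑ d, F.R a b c d * F.nu d = 0
  VR : ∀ k l a b c d, F.V k l (F.R a b c d) =
    F.dl l a * F.R k b c d - F.dl k a * F.R l b c d + F.dl l b * F.R a k c d - F.dl k b * F.R a l c d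
    + F.dl l c * F.R a b k d - F.dl k c * F.R a b l d + F.dl l d * F.R a b c k - F.dl k d * F.R a b c l
  bia1 : ∀ a b c d, F.R a b c d + F.R b c a d + F.R c a b d = 0
  pair : ∀ a b c d, F.R a b c d = F.R c d a b
  bia2 : ∀ e a b c d, F.H e (F.R a b c d) + F.H a (F.R b e c d) + F.H b (F.R e a c d) = 0
  DHY : ∀ a f, F.D (F.H a f) = F.H a (F.D f)
    + ∑ b, F.S a b * F.H b f + (1 / 2 : ℝ) • ∑ c, ∑ d, F.Y a c d * F.V c d f
  DR : ∀ a b c d, F.D (F.R a b c d) = ∑ e, F.S a e * F.R e b c d + ∑ e, F.S b e * F.R a e c d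
    - F.H a (F.Y b c d) + F.H b (F.Y a c d)

/-- Ricci flow -/
def IsRF : Prop := ∀ i j, F.S i j = F.Ric i j

/-- lower bound at time `0` -/
def Ini (f : F.B) (c : ℝ) : Prop :=
  ∀ ε > 0, ∃ t0 > 0, t0 < T ∧ ∀ z (t : TI T), (t : ℝ) < t0 → c - ε ≤ F.ev z t f

/-- bounded near time `0` -/
def Bd0 (f : F.B) : Prop :=
  ∃ C t0 : ℝ, 0 < t0 ∧ t0 < T ∧ ∀ z (t : TI T), (t : ℝ) < t0 → |F.ev z t f| ≤ C

/-- `λ ≥ l0` and the curvature is bounded by `C λ` -/
def Cone (C l0 : ℝ) : Prop := ∀ z t, l0 ≤ F.ev z t F.lam ∧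
  ∀ a b c d, |F.ev z t (F.R a b c d)| ≤ C * F.ev z t F.lam

/-- nearly round where `t λ ≥ A` -/
def Round (ε A : ℝ) : Prop := ∀ z (t : TI T), A ≤ t * F.ev z t F.lam →
  F.ev z t F.e2 ≤ ε * F.ev z t F.lam ^ 2

end FB

/-! ## Restriction of tensors to the orthogonal complement of `nu` -/

/-- `ι` is an isometry of `ℝⁿ` onto `ν^⊥` -/
structure Iso {n : ℕ} (ν : Ix n → ℝ) (ι : Ix n → Fin n → ℝ) : Prop where
  nn : ∑ i, ν i ^ 2 = 1
  orth : ∀ a b, ∑ i, ι i a * ι i b = if a = b then 1 else 0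
  perp : ∀ a, ∑ i, ν i * ι i a = 0
  compl : ∀ i j, ∑ a, ι i a * ι j a = (if i = j then 1 else 0) - ν i * ν j

/-- restriction of a tensor -/
def pull {n : ℕ} (ι : Ix n → Fin n → ℝ) (R : T4 (n + 1)) : T4 n := fun a b c d =>
  ∑ i, ∑ j, ∑ k, ∑ l, R i j k l * ι i a * ι j b * ι k c * ι l d

/-- restriction of a bilinear form -/
def pull2 {n : ℕ} (ι : Ix n → Fin n → ℝ) (A : M2 (n + 1)) : M2 n := fun a b =>
  ∑ i, ∑ j, A i j * ι i a * ι j b

/-- restriction of a complex vector -/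
def pullv {n : ℕ} (ι : Ix n → Fin n → ℝ) (z : Ix n → ℂ) : Fin n → ℂ := fun a => ∑ i, (ι i a : ℂ) * z i

/-- restriction of a real vector -/
def pullr {n : ℕ} (ι : Ix n → Fin n → ℝ) (v : Ix n → ℝ) : Fin n → ℝ := fun a => ∑ i, ι i a * v i

/-- curvature tensor with `ν` in its kernel -/
def Hor {n : ℕ} (ν : Ix n → ℝ) (R : T4 (n + 1)) : Prop :=
  IsCurv R ∧ ∀ a b c, ∑ d, R a b c d * ν d = 0

/-- strict version of `Kc` -/
def SK {n : ℕ} (a b p : ℝ) (r : T4 n) : Prop :=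
  IsCurv r ∧ (∀ z w, 0 < qf (Id4 n) z w → 0 < qf (elli a b r) z w) ∧
    ∀ v, v ≠ 0 → p * lam (elli a b r) * nrm v < rq (Ric (elli a b r)) v

/-- the curvature tensor is close, near time `0`, to pinched curvature tensors with `λ ≥ l0` -/
def IniT {n : ℕ} {T : ℝ} (F : FB n T) (δ l0 : ℝ) : Prop :=
  ∀ ε > 0, ∃ t0 > 0, t0 < T ∧ ∀ (z : F.Z) (t : TI T), (t : ℝ) < t0 → ∃ T0 : T4 (n + 1),
    Hor (F.nv z t) T0 ∧ (∀ ι, Iso (F.nv z t) ι → Pinch δ (pull ι T0) ∧ l0 ≤ lam (pull ι T0)) ∧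
    ∀ a b c d, |F.rv z t a b c d - T0 a b c d| ≤ ε

/-- the projection matrix -/
def Pm {n : ℕ} (ν : Ix n → ℝ) : M2 (n + 1) := fun i j => (if i = j then 1 else 0) - ν i * ν j

end Pool.Agent.Helper47.RFn
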