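import Pool.Agent.Helper47.RFn.GoalsA

/-!
# Project RFn, goals B: maximum principle, pinching, gradient estimate, heat equation

Below `ev z t` is omitted in the docstrings: all inequalities are at a point `(z,t)`; `λ = lam`, `p = gg lam lam`.
-/

namespace Pool.Agent.Helper47.RFn

open Finset

/-- MP3 (1 h).  Maximum principle for a compact family.
Let `A = {t ∈ (t1,T1] : ∃ k z, f_k(z,t) ≤ 0}`, suppose nonempty, `t* = inf A ≥ t1 + δ`.  By compactness of `K × Z` and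
continuity there are `k*, z*` with `f_k*(z*,t*) ≤ 0`.  For `t1 < t < t*` all values are `> 0`, so by continuity
`f_k(z,t*) ≥ 0` for all `k, z`, and `f_k*(z*,t*) = 0` is a spatial minimum of `f_k*`.  `min1`: all `H_a H_a f ≥ 0`.
`time`: the derivative of `r ↦ f(z*,r)` at `t*` is `D f`, and `f(z*,r) > 0 = f(z*,t*)` for `r < t*` near `t*`, so
`D f ≤ 0`.  So `Hop f ≤ 0`, contradiction. -/
def Goal_MP3 : Prop :=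
  ∀ (n : ℕ) (T : ℝ) (F : FB n T), F.Base → ∀ (K : Type) [TopologicalSpace K] [CompactSpace K] (f : K → F.B),
    Continuous (fun q : K × (F.Z × TI T) => F.ev q.2.1 q.2.2 (f q.1)) → ∀ (t1 T1 : ℝ), 0 ≤ t1 → T1 < T →
    (∃ δ > 0, ∀ k z (t : TI T), t1 < t → (t : ℝ) < t1 + δ → 0 < F.ev z t (f k)) →
    (∀ k z (t : TI T), t1 < t → (t : ℝ) ≤ T1 → F.ev z t (f k) = 0 → (∀ k' z', 0 ≤ F.ev z' t (f k')) →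
      0 < F.ev z t (F.Hop (f k))) →
    ∀ k z (t : TI T), t1 < t → (t : ℝ) ≤ T1 → 0 < F.ev z t (f k)

/-- MP1 (0.8 h, MP3).  Maximum principle, weak form.
For small `ε > 0` (`ε exp((K+1) T1) < ε0`) let `g = f + ε exp((K+1) t)` (in `B` by `comp`, from `tt`; derivatives by
`chain`).  Near `t1`: `f ≥ -ε/2`, `g > 0`.  At a point with `g = 0 ≤ g(.,t)`: `f` has a spatial minimum there with value
`-ε exp((K+1)t) ∈ (-ε0,0)`, so `Hop g ≥ K f + (K+1) ε exp((K+1)t) = ε exp((K+1) t) > 0`.  By MP3 (`K = Unit`) `g > 0`;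
`ε → 0`. -/
def Goal_MP1 : Prop :=
  ∀ (n : ℕ) (T : ℝ) (F : FB n T), F.Base → ∀ (f : F.B) (t1 T1 K ε0 : ℝ), 0 ≤ t1 → T1 < T → 0 ≤ K → 0 < ε0 →
    (∀ ε > 0, ∃ δ > 0, ∀ z (t : TI T), t1 < t → (t : ℝ) < t1 + δ → -ε ≤ F.ev z t f) →
    (∀ z (t : TI T), t1 < t → (t : ℝ) ≤ T1 → (∀ z', F.ev z t f ≤ F.ev z' t f) →
      -ε0 < F.ev z t f → F.ev z t f < 0 → K * F.ev z t f ≤ F.ev z t (F.Hop f)) →
    ∀ z (t : TI T), t1 < t → (t : ℝ) ≤ T1 → 0 ≤ F.ev z t f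

/-- BDD (1 h).  Bounds on compact time intervals.  (1) `Z × [t0/2, T1]` is compact, `cont`.  (2) `|f g| ≤ ...`, minimum
of the two `t0`.  (3) for `t1 > 0` continuity at `t1`, uniformly in `z` (compactness). -/
def Goal_BDD : Prop :=
  ∀ (n : ℕ) (T : ℝ) (F : FB n T), F.Base →
    (∀ (f : F.B) (T1 : ℝ), T1 < T → F.Bd0 f → ∃ C, ∀ z (t : TI T), (t : ℝ) ≤ T1 → |F.ev z t f| ≤ C)
    ∧ (∀ (f : F.B) (t1 T1 : ℝ), 0 < t1 → T1 < T →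
        ∃ C, ∀ z (t : TI T), t1 ≤ t → (t : ℝ) ≤ T1 → |F.ev z t f| ≤ C)
    ∧ (∀ f g : F.B, F.Bd0 f → F.Bd0 g → F.Bd0 (f + g) ∧ F.Bd0 (f - g) ∧ F.Bd0 (f * g)
        ∧ ∀ c : ℝ, F.Bd0 (c • f))
    ∧ (∀ (f : F.B) (t1 : TI T) (c : ℝ), (∀ z, c ≤ F.ev z t1 f) → ∀ ε > 0, ∃ δ > 0,
        ∀ z (t : TI T), |(t : ℝ) - t1| < δ → c - ε ≤ F.ev z t f)

/-- INV (2 h, MP3, EVK, PU, RP1, RP2, RP3, RP4, LI, LN).  Invariance of a cone, with the correction `bet` (`bet = B/t` or `0`).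
`N = 1+2(n-1)a`, `S_ijkl = Sb a b bet`, which pulls back to `s = elli a b (pull ι rv + β Id4)` (EVK (1)).
Family over the disjoint union of `{(z,w) ∈ (ℂ^{n+1})² : |z| = |w| = 1, ⟨z,w⟩ = 0}` and `{v ∈ ℝ^{n+1} : |v| = 1}` (both
compact): `f_zw = ∑ Re(z_a w_b z̄_c w̄_d) • S_abcd + (1 - ∑ Re(..) • I_abcd)`, i.e. by RP2, RP3
`f_zw = q_s(z',w') + (1 - q_I(z',w'))` with `z' = pullv ι z`, `w' = pullv ι w`, `0 ≤ q_I(z',w') ≤ 1`; and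
`f_v = ∑ v_a v_b • (Ric(S)_ab - p Λ P_ab) + (ν·v)²`, `Λ = (1/n) tr Ric(S)`, i.e. `rq (Ric s) v' - p lam s nrm v' + (ν·v)²`,
`v' = pullr ι v`.  Near `t = 0` all are `> 0` (strictness `SK`; if `q_I(z',w') = 0` then `q_s = 0` by RP4 and `f = 1`; the same for
`v' = 0`).  At a touching point all `f ≥ 0`: every pair in `ℂⁿ` is a multiple of a pull back of an orthonormal pair (RP4, RP3), so
`C0 s`, `RicGe p s`; `lam s = (lam r + (n-1) β)/N > 0`.  If `c lam s ≤ 2nβ` the hypothesis gives strict inequalities, a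
contradiction.  Otherwise, if `f_zw = 0`: `q_I(z',w') = 1`, `q_s(z',w') = 0`, and `Hop f_zw = q_(Hop S)(z',w')` (constants
are killed) `> 0` by EVK (2) and PU (1).  If `f_v = 0`: `ν·v = 0`, so `v' ≠ 0`, `rq (Ric s) v' = p lam s nrm v'`, and `Hop f_v > 0` by
EVK (2), PU (2) (`Ric Id4 = (n-1) 1`, `lam Id4 = n-1`).  MP3 with `t1 = 0`, every `T1 < T`. -/
def Goal_INV : Prop :=
  ∀ (n : ℕ), 4 ≤ n → ∀ (a b p c B : ℝ), Good n a b p c → 1 ≤ B → ∀ (T : ℝ) (F : FB n T), F.Full → F.IsRF →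
    ∀ bet : F.B, (∀ a, F.H a bet = 0) → F.D bet = (-(1 / B) : ℝ) • bet ^ 2 → (∀ z t, 0 ≤ F.ev z t bet) →
    (∀ z t, 0 < F.ev z t F.lam) →
    (∃ t0 > 0, t0 < T ∧ ∀ z (t : TI T), (t : ℝ) < t0 → ∀ ι, Iso (F.nv z t) ι →
      SK a b p (pull ι (F.rv z t) + F.ev z t bet • Id4 n)) →
    (∀ z t ι, Iso (F.nv z t) ι →
      c * lam (elli a b (pull ι (F.rv z t) + F.ev z t bet • Id4 n)) ≤ 2 * n * F.ev z t bet →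
      SK a b p (pull ι (F.rv z t) + F.ev z t bet • Id4 n)) →
    ∀ z t ι, Iso (F.nv z t) ι → Kc a b p (pull ι (F.rv z t) + F.ev z t bet • Id4 n)

/-- PRS (1.5 h, INV, MP1, SA, G1, BD, RP1, RP2, RP3, RP4, LI, LN, EVS, RIC).  The initial cone is preserved.
`b0, c1` from SA, `θ0 = (aF b0, b0, pF b0)`, `Good` by G1 (`b = b0`).  (i) `λ ≥ l0`: near `0` by `IniT` (`lam` of the pull back is the
trace of `Ric` over `n`, so `|λ - lam T0| ≤ (n+1)² ε`), MP1 for `lam - l0`, `Hop lam ≥ 0` (EVS (1)), `K = 0`, every `T1 < T`.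
(ii) INV with `bet = 0`, `B = 1`: the second hypothesis is vacuous because `c lam (elli r) = c λ/N > 0`.  Strictness near `0`: SA for
`pull ι T0` gives `q ≥ c1 l0 q_I`, and `elli` of the difference `r - pull ι T0` (entries `≤ C_n ε`) has `|q| ≤ C ε q_I` (RP4), the same
for `Ric`.  (iii) BD: `|r| ≤ C λ`, so `|R| ≤ C' λ` (RP2 (2)). -/
def Goal_PRS : Prop :=
  ∀ (n : ℕ), 4 ≤ n → ∀ δ : ℝ, 1 / 4 < δ → δ ≤ 1 → ∃ b0 C : ℝ, 0 < b0 ∧ b0 ≤ 1 / 2 ∧ 0 < C ∧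
    ∀ (T : ℝ) (F : FB n T), F.Full → F.IsRF → ∀ l0 > 0, IniT F δ l0 → F.Cone C l0 ∧
      ∀ z t ι, Iso (F.nv z t) ι → Kc (aF n b0) b0 (pF n b0) (pull ι (F.rv z t))

/-- STP (1.5 h, INV, RP2, RP3, RP4, LI, LN, CB).  One step of the chain.  `N = 1+2(n-1)a'`, `ξ = c/(8 n (1+2(n-1)Λ))`.
`bet = (2B) • (1/tt)` (in `B` by `comp`; `D bet = -(1/(2B)) bet²` by `chain`).  Near `0`: `R` is bounded by `C`, `bet → ∞`, and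
`elli (r + β Id4) = elli r + (β/N) Id4`, `|q_(elli r)| ≤ C' q_I` (RP4): strict.  Second hypothesis of INV: let
`c lam s ≤ 2nβ`, `s = elli a' b' (r + β Id4)`, `β = 2B/t`.  `β0 = B/t = β/2`, `r0 = r + β0 Id4 ∈ Kc θ`, `lam r0 ≤ lam (r + β Id4) =
N lam s ≤ 2 n N β/c`, so `ξ lam r0 ≤ β/4 ≤ (β - β0)/2`: `Step` gives `r0 + ((β-β0)/2) Id4 ∈ Kc θ'`, and adding `((β-β0)/2) Id4`
makes it strict (`q` gains `(β-β0)/(2N) q_I`, `Ric - p lam` gains `(n-1)(1-p)(β-β0)/(2N)`). -/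
def Goal_STP : Prop :=
  ∀ (n : ℕ), 4 ≤ n → ∀ (a b p a' b' p' c Λ B : ℝ), Good n a' b' p' c → a' ≤ Λ → 1 ≤ B →
    Step n (c / (8 * n * (1 + 2 * ((n : ℝ) - 1) * Λ))) (a, b, p) (a', b', p') →
    ∀ (T : ℝ) (F : FB n T), F.Full → F.IsRF → (∀ i j k l, F.Bd0 (F.R i j k l)) → (∀ z t, 0 < F.ev z t F.lam) →
    (∀ z (t : TI T) ι, Iso (F.nv z t) ι → Kc a b p (pull ι (F.rv z t) + (B / t) • Id4 n)) →
    ∀ z (t : TI T) ι, Iso (F.nv z t) ι → Kc a' b' p' (pull ι (F.rv z t) + (2 * B / t) • Id4 n)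

/-- NRD (1.5 h, PRS, STP, CH, EN, RP1, RP2, RP3, LI, LN, WQ).  Nearly round at large curvature.  `b0, C` from PRS; given `ε`, take
`a1` from EN (with `ε' = ` small multiple of `√ε`), the chain `θ_0, …, θ_N` and `c` from CH for `ξ = c/(8n(1+2(n-1)(a1+1)))`.  Induction:
`r + (2^k/t) Id4 ∈ Kc θ_k` for all `z, t, ι`.  `k = 0`: PRS and adding `β Id4`, `β ≥ 0`, keeps `Kc` (`elli Id4 = Id4/N`,
`p < 1`).  Step: STP (`Λ = a1 + 1`).  At the end EN: `|ρ_abcd - lam ρ/(n-1) Id4_abcd| ≤ ε' lam ρ` for `ρ = r + (2^N/t) Id4`; the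
left side is the pull back of `E` (it does not change when `β Id4` is added), and `lam ρ = λ + (n-1) 2^N/t ≤ 2 λ` if
`t λ ≥ A := (n-1) 2^N`.  So `e2 ≤ (n+1)^4-type constant * (2 ε' λ)²` (RP2: `∑ E² = ∑ (pull E)²`, `n^4` terms). -/
def Goal_NRD : Prop :=
  ∀ (n : ℕ), 4 ≤ n → ∀ δ : ℝ, 1 / 4 < δ → δ ≤ 1 → ∃ C > 0, ∀ ε > 0, ∃ A > 0, ∀ (T : ℝ) (F : FB n T),
    F.Full → F.IsRF → (∀ i j k l, F.Bd0 (F.R i j k l)) → ∀ l0 > 0, IniT F δ l0 →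
    F.Cone C l0 ∧ F.Round ε A

/-- P2 (2 h, MP3, NRB, BIA, PRD, BDD).  The pinching improves.  `C_n` from NRB, `σ = 1/(2(n-1))`, `γ = 2 - σ`, `ε` so small
that `C_n √ε ≤ 1/(n-1)`.  `Cone` gives `e2 ≤ C1 λ²`, `C1 = C1(n,C)`.  `K0 = C1 (A + n)^σ + 1`.  `w = λ^(-γ)`, `τ = t^σ` are in `B`
(`comp` on `U = (0,∞)`); for `X = D, H_a`: `X w = -γ (w/λ) X λ` (`chain`), `Hop w = -γ (w/λ) Hop λ - γ(γ+1)(w/λ²) p`.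
MP3 (`K = Unit`, `t1 = 0`) for `f = K0 - F0`, `F0 = τ e2 w`.  Near `0`: `F0 ≤ t^σ C l0^(-γ) < K0` (BDD; `e2` is bounded near `0`).
Touching point `F0 = K0`: `(tλ)^σ e2/λ² = K0 > C1 (A+n)^σ`, so `tλ > A + n`, and `e2 ≤ ε λ²` (`Round`).  `F0` has a spatial
maximum, `e2 > 0`, `H_a F0 = 0`, so `H_a e2 = γ (e2/λ) H_a λ`, `gg e2 e2 = γ² (e2/λ)² p`, `dE ≥ gg e2 e2/(4 e2) = γ² e2 p/(4 λ²)`.
`Hop (e2 w) = w Hop e2 + e2 Hop w - 2 gg e2 w`, `gg e2 w = -γ² (e2 w/λ²) p`: the gradient terms are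
`(e2 w p/λ²)(-γ²/2 - γ(γ+1) + 2γ²) = (e2 w p/λ²) γ(γ/2 - 1) ≤ 0`.  The rest is (NRB)
`≤ w e2 λ (4(n-2)/(n-1) + 1/(n-1)) - 2γ w e2 λ = w e2 λ (-4/(n-1) + 1/(n-1) + 2σ) = -(2/(n-1)) w e2 λ`.
So `Hop F0 ≤ F0 (σ/t - 2λ/(n-1)) < 0` since `tλ > n > σ(n-1)/2`.  So `Hop f > 0`. -/
def Goal_P2 : Prop :=
  ∀ (n : ℕ), 4 ≤ n → ∃ σ ε : ℝ, 0 < σ ∧ σ ≤ 1 ∧ 0 < ε ∧ ∀ C A : ℝ, 0 < C → 0 < A → ∃ K0 > 0,
    ∀ (T : ℝ) (F : FB n T), F.Full → F.IsRF → ∀ l0 > 0, (∀ i j k l, F.Bd0 (F.R i j k l)) →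
    F.Cone C l0 → F.Round ε A →
    ∀ z (t : TI T), F.ev z t F.e2 ≤ K0 * (t : ℝ) ^ (-σ) * F.ev z t F.lam ^ (2 - σ)

/-- P3 (2 h, MP3, NRB, EVS, BIA, PRD, BDD).  The gradient estimate.  `γ = 2 - σ`, `ρ = λ + 1/t`, constants `C2, C3, …` depend on
`n, C`.  BIA: `p ≤ C2 dE`.  EVS: `Hop p ≤ C3 λ √p √dE - 2 h2 λ ≤ C4 λ dE - 2 h2 λ`.
`Hop (p ρ⁻¹) = ρ⁻¹ Hop p - p ρ⁻² Hop ρ + 2 ρ⁻² gg p ρ - 2 p ρ⁻³ gg ρ ρ`, `gg ρ ρ = p`, `|gg p ρ| ≤ 2 p √(h2 λ)` (BIA),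
`4 p ρ⁻² √h2 ≤ 2 h2 ρ⁻¹ + 2 p² ρ⁻³`, `Hop ρ ≥ -1/t² ≥ -ρ²`: `Hop (p ρ⁻¹) ≤ C4 dE + p ≤ C5 dE`.  NRB: `Hop e2 ≤ C6 λ e2 - 2 dE`
(`√e2 ≤ C λ`).  `G = p ρ⁻¹ + N e2` with `N ≥ C5` and `N ≥ 4 C2`: `Hop G ≤ -N dE + N C6 λ e2 ≤ -(N/C2) p + N C6 λ e2
= -(N/C2) ρ (G - N e2) + N C6 λ e2 ≤ ρ (-4 G + C7 e2)`.  `Ψ = K t⁻² m^γ`, `m = Y0 + tλ`, `K ≥ 2 C7 K0`, `K ≥ 1`, `2 K Y0^(-σ) ≤ 1`.
At a touching point `G = Ψ`: `e2 ≤ K0 t^(-σ) λ^γ ≤ K0 t⁻² m^γ ≤ Ψ/(2 C7)`: `Hop G ≤ -(7/2) ρ Ψ`.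
`Hop Ψ = -(2/t)Ψ + γ Ψ m⁻¹ (λ + t Hop λ) - K γ(γ-1) m^(γ-2) p ≥ -2ρΨ - 2K Y0^(-σ) p ≥ -3 ρ Ψ` (`p ≤ ρ G = ρ Ψ`, `m^(-σ) ≤ Y0^(-σ)`,
`γ(γ-1) ≤ 2`).  So `Hop (Ψ - G) > 0`: MP3 (`K = Unit`, `t1 = 0`; near `0`: `G ≤ t p + N e2` is bounded, `Ψ ≥ K t⁻² Y0^γ`).
Conclusion `G ≤ Ψ`.  At one time with `λ ≤ Q` everywhere and `Y0 ≤ tQ`: `p ≤ ρ Ψ ≤ 2Q K t⁻² (2tQ)^γ ≤ C1 (tQ)^(-σ) Q³`,
`e2 ≤ K0 t^(-σ) Q^γ = K0 (tQ)^(-σ) Q²`. -/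
def Goal_P3 : Prop :=
  ∀ (n : ℕ), 4 ≤ n → ∀ (C K0 σ : ℝ), 0 < C → 0 < K0 → 0 < σ → σ ≤ 1 → ∃ C1 Y0 : ℝ, 0 < C1 ∧ 1 ≤ Y0 ∧
    ∀ (T : ℝ) (F : FB n T), F.Full → F.IsRF → ∀ l0 > 0, (∀ i j k l, F.Bd0 (F.R i j k l)) →
    F.Bd0 (F.gg F.lam F.lam) → F.Cone C l0 →
    (∀ z (t : TI T), F.ev z t F.e2 ≤ K0 * (t : ℝ) ^ (-σ) * F.ev z t F.lam ^ (2 - σ)) →
    ∀ (t : TI T) (Q : ℝ), (∀ z, F.ev z t F.lam ≤ Q) → Y0 ≤ t * Q → ∀ z,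
      F.ev z t (F.gg F.lam F.lam) ≤ C1 * (t * Q) ^ (-σ) * Q ^ 3
      ∧ F.ev z t F.e2 ≤ K0 * (t * Q) ^ (-σ) * Q ^ 2

/-- S2 (1 h, MP1, BDD, NRB, BIA).  The minimum of `λ`.  (i) MP1 on `(t1,T1]`, `f = λ - m`; at a negative minimum `Hop λ ≥ 0`
(EVS: `Hop lam` is a sum of squares).  (ii) Suppose `T - t1 > 1/(2m)`; `L = 1/m - 2 (t - t1)` (in `B`), positive for
`t < t2 := t1 + 1/(2m) < T`.  MP1 on `(t1,t2]`, `f = λ L - 1`: `Hop f = L Hop λ - 2 λ ≥ 2 λ (λ L - 1) = 2 λ f`, for `f < 0` this is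
`≥ K f` with `K = 2 sup λ` on `[t1,t2]`.  So `λ L ≥ 1` at `t2`, but `L(t2) = 0`. -/
def Goal_S2 : Prop :=
  ∀ (n : ℕ), 4 ≤ n → ∀ (T : ℝ) (F : FB n T), F.Full → F.IsRF → ∀ (t1 : TI T) (m : ℝ), 0 < m →
    (∀ z, m ≤ F.ev z t1 F.lam) →
    (∀ z (t : TI T), (t1 : ℝ) ≤ t → m ≤ F.ev z t F.lam) ∧ m ≤ 1 / (2 * (T - t1))

/-- S3 (1 h, MP3, BDD, NRB).  The maximum of `λ`.  `C2` from NRB.  Let `e' > e`, `Q' > Q1`, `L = 1/Q' - (2 + C2 e')(t-t1)`, and suppose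
`1/Q' > (2 + C2 e')(T - t1)`, so `L ≥ c > 0` on `[t1,T)`.  MP3 (`Unit`) on `(t1,T1]` for every `T1 < T`, `f = 1 - λ L`: positive near
`t1` (BDD); at a touching point `λ L = 1`: `Hop f = -L Hop λ + (2 + C2 e') λ ≥ λ (2 + C2 e' - (2 + C2 e) λ L) > 0`.  So `λ < 1/c` for all
`t > t1`, contradiction to the blow up. -/
def Goal_S3 : Prop :=
  ∀ (n : ℕ), 4 ≤ n → ∃ C2 > 0, ∀ (T : ℝ) (F : FB n T), F.Full → F.IsRF → ∀ (t1 : TI T) (Q1 e : ℝ), 0 < Q1 → 0 ≤ e →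
    (∀ z (t : TI T), (t1 : ℝ) ≤ t → 0 < F.ev z t F.lam) → (∀ z, F.ev z t1 F.lam ≤ Q1) →
    (∀ z (t : TI T), (t1 : ℝ) ≤ t → F.ev z t F.e2 ≤ e * F.ev z t F.lam ^ 2) →
    (∀ C t2 : ℝ, t2 < T → ∃ z, ∃ t : TI T, t2 < t ∧ C < F.ev z t F.lam) →
    1 / ((2 + C2 * e) * (T - t1)) ≤ Q1

/-- HEA (1.2 h, MP1, EVS, BIA, PRD, VIN, BDD).  The heat equation along the flow.  (i) MP1 for `f = 1 - gg u u`,
`Hop (gg u u) = -2 h2 u ≤ 0`, `K = 0`, `t1 = 0`.  (ii) `v = Lap u`, `Hop v = 2 X`, `X = ∑ Ric_ab H_a H_b u`, `X² ≤ C' λ² h2` (BIA with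
`M = C λ`), `v² ≤ (n+1) h2`.  `F0 = t v² + Bc gg u u`.  `Hop F0 = v² + t (4 v X - 2 gg v v) - 2 Bc h2 ≤ (n + 1 + C'' t λ - 2 Bc) h2 ≤ 0`
for `Bc = Bc(n, C, A0)`.  MP1 for `Bc - F0` (near `0`: `t v² ≤ t C²`, `gg u u ≤ 1 + ε`). -/
def Goal_HEA : Prop :=
  ∀ (n : ℕ), 4 ≤ n → ∀ (C A0 : ℝ), 0 < C → 0 < A0 → ∃ Bc > 0, ∀ (T : ℝ) (F : FB n T), F.Full → F.IsRF → ∀ l0 > 0,
    F.Cone C l0 → (∀ z (t : TI T), t * F.ev z t F.lam ≤ A0) →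
    ∀ u : F.B, F.VI u → F.D u = F.Lap u → F.Ini (-F.gg u u) (-1) → F.Bd0 (F.Lap u) →
    ∀ z (t : TI T), F.ev z t (F.gg u u) ≤ 1 ∧ t * F.ev z t (F.Lap u) ^ 2 ≤ Bc

/-- the derivatives `H^w R_abcd`, `|w| = m` -/
def FB.Gset {n : ℕ} {T : ℝ} (F : FB n T) (m : ℕ) : Set F.B :=
  {x | ∃ (w : List (Ix n)) (a b c d : Ix n), w.length = m ∧ x = F.Hw w (F.R a b c d)}

/-- CA (1.5 h, EVM, RIC).  The heat operator on the derivatives of the curvature.  `𝒱_m = span (Gset m)`,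
`𝒮_m = span {x y : x ∈ Gset k, y ∈ Gset l, k + l = m}`.  `H_a 𝒱_m ⊆ 𝒱_(m+1)`, `H_a 𝒮_m ⊆ 𝒮_(m+1)`, `V_kl 𝒱_m ⊆ 𝒱_m` (induction:
`V_kl H_a = H_a V_kl + δ_la H_k - δ_ka H_l`, `VR`), `Ric ∈ 𝒱_0`, `Y_acd ∈ 𝒱_1`.  Claim `Hop 𝒱_m ⊆ 𝒮_m`: `m = 0` is EVM.  Step,
`x ∈ 𝒱_m`: `Hop H_a x = H_a Hop x + (D H_a - H_a D) x - (Lap H_a - H_a Lap) x`; `(D H_a - H_a D) x = ∑ Ric_ab H_b x +
(1/2) ∑ Y_acd V_cd x ∈ 𝒮_(m+1)`; `(Lap H_a - H_a Lap) x = ∑_b (H_b [H_b,H_a] x + [H_b,H_a] H_b x)`,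
`[H_b,H_a] y = -(1/2) ∑ R_bacd V_cd y ∈ 𝒱_0 𝒱_m` if `y ∈ 𝒱_m`. -/
def Goal_CA : Prop :=
  ∀ (n : ℕ) (T : ℝ) (F : FB n T), F.Full → F.IsRF → ∀ m : ℕ, ∀ x ∈ F.Gset m,
    F.Hop x ∈ Submodule.span ℝ {y | ∃ k l : ℕ, k + l = m ∧ ∃ a ∈ F.Gset k, ∃ b ∈ F.Gset l, y = a * b}

/-- CBB (1.5 h, CA, MP1, BDD, PRD).  Bounded curvature implies bounded derivatives.  Strong induction on `m`.  Let all
elements of `Gset j`, `j < m`, be bounded on `Z × (0,T)` (`m = 0` is the hypothesis); `m ≥ 1`.  The index set of `Gset m` is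
finite, `U = ∑ (H^w R_abcd)²`.  `Hop U = ∑ (2 x Hop x - 2 gg x x) ≤ ∑ 2 |x| |Hop x|`, and by CA `|Hop x| ≤ C (1 + √U)`: in every
product `a b`, `k + l = m`, either both `k, l < m`: bounded, or one factor is in `Gset 0` (bounded) and the other in
`Gset m`.  So `Hop U ≤ C (1 + U)` with one constant `C > 0`.  Near `0`: `U ≤ U0` (`Bd0`).  MP1 (`t1 = 0`, `T1 < T` arbitrary,
`K = C`) for `f = (1 + U0) exp(C t) - (1 + U)`.  So `U ≤ (1+U0) exp(C T)`. -/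
def Goal_CBB : Prop :=
  ∀ (n : ℕ) (T : ℝ) (F : FB n T), F.Full → F.IsRF → ∀ K : ℝ, (∀ z t a b c d, |F.ev z t (F.R a b c d)| ≤ K) →
    (∀ w a b c d, F.Bd0 (F.Hw w (F.R a b c d))) →
    ∀ w a b c d, ∃ C, ∀ z t, |F.ev z t (F.Hw w (F.R a b c d))| ≤ C

end Pool.Agent.Helper47.RFn
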