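import Pool.Agent.Helper47.RFn.CoreN

/-!
# Project RFn: moving frames and framed Ricci flow, function level (general dimension)

`A x` (rows `A x a i`): orthonormal frame `F_a = ∑_i A a i e_i`, `e_i = |x| ∂_i`, of the metric
`cyl G = G/|x|²`, `G = θ θᵀ`, `θ = A⁻¹`.  `G x = x` means `∑_i A a i x_i = ∑_i θ i a x_i` (condition `nA`): both sides
are `|x|` times the components `nfc a` of the radial unit vector in the frame.

`Cc` structure functions (`[F_a,F_b] = ∑ Cc a b c F_c`), `Gamc a b c = g(∇_{F_a} F_b, F_c)`,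
`Kf a b c d = g(R(F_a,F_b)F_c,F_d)`, `Rf = -Kf` (`Rf a b a b` = sectional curvature), `Rcf` Ricci tensor in the
frame, `lamf` = scalar curvature`/n`, `ggf = ⟨∇u,∇v⟩`, `Lapf` Laplacian.

Ricci flow in Uhlenbeck's gauge: `∂_t A = Rcf A`, `∂_t θ = - θ Rcf`.
-/

namespace Pool.Agent.Helper47.RFn

open Finset

variable {n : ℕ}

/-- metric of a coframe -/
noncomputable def gOf (θ : MF n) : MF n := fun x => θ x * (θ x).transpose

/-- `F_a f` -/
noncomputable def Fdc (A : MF n) (a : Fin (n + 1)) (f : EE n → ℝ) (x : EE n) : ℝ := ∑ i, A x a i * ed i f x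

/-- radial unit vector in the frame -/
noncomputable def nfc (A : MF n) (a : Fin (n + 1)) (x : EE n) : ℝ := ∑ i, A x a i * nn i x

/-- structure functions -/
noncomputable def Cc (A θ : MF n) (a b c : Fin (n + 1)) (x : EE n) : ℝ :=
  ∑ j, (Fdc A a (fun y => A y b j) x - Fdc A b (fun y => A y a j) x) * θ x j c
    + (nfc A a x * (if b = c then 1 else 0) - nfc A b x * (if a = c then 1 else 0))

/-- `g(∇_{F_a} F_b, F_c)` -/
noncomputable def Gamc (A θ : MF n) (a b c : Fin (n + 1)) (x : EE n) : ℝ :=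
  1 / 2 * (Cc A θ a b c x - Cc A θ b c a x + Cc A θ c a b x)

/-- `g(R(F_a,F_b)F_c,F_d)` -/
noncomputable def Kf (A θ : MF n) (a b c d : Fin (n + 1)) (x : EE n) : ℝ :=
  Fdc A a (Gamc A θ b c d) x - Fdc A b (Gamc A θ a c d) x
    + ∑ f, (Gamc A θ b c f x * Gamc A θ a f d x - Gamc A θ a c f x * Gamc A θ b f d x)
    - ∑ f, Cc A θ a b f x * Gamc A θ f c d x

/-- curvature tensor in the frame, `Rf a b a b` = sectional curvature -/
noncomputable def Rf (A θ : MF n) (a b c d : Fin (n + 1)) (x : EE n) : ℝ := - Kf A θ a b c d x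

/-- Ricci tensor in the frame -/
noncomputable def Rcf (A θ : MF n) (a c : Fin (n + 1)) (x : EE n) : ℝ := ∑ b, Rf A θ a b c b x

/-- scalar curvature divided by `n` -/
noncomputable def lamf (A θ : MF n) (x : EE n) : ℝ := 1 / (n : ℝ) * ∑ a, Rcf A θ a a x

/-- projection orthogonal to the radial vector, in the frame -/
noncomputable def Pff (A : MF n) (a b : Fin (n + 1)) (x : EE n) : ℝ :=
  (if a = b then 1 else 0) - nfc A a x * nfc A b x

/-- curvature minus its constant curvature part -/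
noncomputable def Ef (A θ : MF n) (a b c d : Fin (n + 1)) (x : EE n) : ℝ :=
  Rf A θ a b c d x - 1 / ((n : ℝ) - 1) * (lamf A θ x * (Pff A a c x * Pff A b d x - Pff A a d x * Pff A b c x))

/-- `|E|²` -/
noncomputable def e2f (A θ : MF n) (x : EE n) : ℝ := ∑ a, ∑ b, ∑ c, ∑ d, Ef A θ a b c d x ^ 2

/-- `⟨∇u,∇v⟩` -/
noncomputable def ggf (A : MF n) (u v : EE n → ℝ) (x : EE n) : ℝ := ∑ a, Fdc A a u x * Fdc A a v x

/-- Laplacian -/
noncomputable def Lapf (A θ : MF n) (u : EE n → ℝ) (x : EE n) : ℝ :=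
  ∑ a, Fdc A a (Fdc A a u) x - ∑ a, ∑ b, Gamc A θ a a b x * Fdc A b u x

/-- a smooth frame with inverse, at one time, for a metric with `G x = x` -/
structure Frm (A θ : MF n) : Prop where
  inv : ∀ x, A x * θ x = 1
  smA : ∀ a i, Sm (fun x => A x a i)
  smt : ∀ i a, Sm (fun x => θ x i a)
  nA : ∀ x a, ∑ i, A x a i * x i = ∑ i, θ x i a * x i

/-- framed Ricci flow on the time set `I` -/
structure FFlow (I : Set ℝ) (A θ : ℝ → MF n) : Prop where
  inv : ∀ t ∈ I, ∀ x, A t x * θ t x = 1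
  nA : ∀ t ∈ I, ∀ x a, ∑ i, A t x a i * x i = ∑ i, θ t x i a * x i
  flA : ∀ a i, SmFam1 I (fun t x => A t x a i) (fun t x => ∑ b, Rcf (A t) (θ t) a b x * A t x b i)
  flt : ∀ i a, SmFam1 I (fun t x => θ t x i a) (fun t x => -∑ b, θ t x i b * Rcf (A t) (θ t) b a x)

/-- heat equation along a flow -/
def HeatOn (I : Set ℝ) (A θ : ℝ → MF n) (u : ℝ → EE n → ℝ) : Prop :=
  SmFam1 I u (fun t => Lapf (A t) (θ t) (u t))

/-- local existence -/
def LocExStmt : Prop :=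
  ∀ n : ℕ, 2 ≤ n → ∀ A0 θ0 : MF n, Frm A0 θ0 → ∃ τ > 0, ∃ A θ : ℝ → MF n, FFlow (Set.Icc 0 τ) A θ ∧
    (∀ x, x ≠ 0 → A 0 x = A0 x ∧ θ 0 x = θ0 x)

/-- heat equation along a flow on a compact time interval -/
def HeatExStmt : Prop :=
  ∀ n : ℕ, 2 ≤ n → ∀ (τ : ℝ) (A θ : ℝ → MF n), 0 < τ → FFlow (Set.Icc 0 τ) A θ → ∀ f : EE n → ℝ, Sm f →
    ∃ u : ℝ → EE n → ℝ, HeatOn (Set.Icc 0 τ) A θ u ∧ ∀ x, x ≠ 0 → u 0 x = f x

end Pool.Agent.Helper47.RFn
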