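import Pool.Agent.Helper47.RFn.Str

/-!
# Project RFn, goals A: restriction of tensors, algebra of the frame bundle

`m = n + 1` = number of frame vectors.  In the docstrings all repeated indices are summed; `[X,Y] f = X (Y f) - Y (X f)`.
A `k`-tensor on the bundle is an array of elements of `B` on which `V k l` acts by
`W_c ↦ δ_lc W_k - δ_kc W_l` in every index.
-/

namespace Pool.Agent.Helper47.RFn

open Finset

/-! ## Restriction -/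

/-- RP1 (0.6 h).  Existence of the isometry: extend the unit vector `ν` of `EuclideanSpace ℝ (Fin (n+1))` to an
orthonormal basis indexed by `Fin (n+1)` with `ν` first (`Orthonormal.exists_orthonormalBasis_extension_of_card_eq`), `ι`
= the other vectors; `compl`: the matrix of the basis is orthogonal. -/
def Goal_RP1 : Prop := ∀ (n : ℕ) (ν : Ix n → ℝ), ∑ i, ν i ^ 2 = 1 → ∃ ι, Iso ν ι

/-- RP2 (1.2 h).  The dictionary.  (2): insert `δ_ij = ι_ia ι_ja + ν_i ν_j` (`compl`) in every index of `R`; all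
contractions with `ν` vanish (`IsCurv` moves `ν` to the last index).  The rest follows from (2), `orth`, `perp`. -/
def Goal_RP2 : Prop := ∀ (n : ℕ) (ν : Ix n → ℝ) (ι : Ix n → Fin n → ℝ) (R : T4 (n + 1)), Iso ν ι → Hor ν R →
  IsCurv (pull ι R) ∧
  (∀ i j k l, R i j k l = ∑ a, ∑ b, ∑ c, ∑ d, pull ι R a b c d * ι i a * ι j b * ι k c * ι l d) ∧
  Ric (pull ι R) = pull2 ι (Ric R) ∧
  (∀ i j, Ric R i j = ∑ a, ∑ b, Ric (pull ι R) a b * ι i a * ι j b) ∧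
  lam (pull ι R) = (∑ a, Ric R a a) / n ∧
  Q (pull ι R) = pull ι (Q R) ∧ Hor ν (Q R) ∧
  (∀ z w, qf R z w = qf (pull ι R) (pullv ι z) (pullv ι w)) ∧
  (∀ v, rq (Ric R) v = rq (Ric (pull ι R)) (pullr ι v)) ∧
  (∑ i, ∑ j, ∑ k, ∑ l, R i j k l ^ 2) = ∑ a, ∑ b, ∑ c, ∑ d, pull ι R a b c d ^ 2 ∧
  (∀ T : T4 (n + 1), Hor ν T → (∑ i, ∑ j, ∑ k, ∑ l, R i j k l * T i j k l) =
    ∑ a, ∑ b, ∑ c, ∑ d, pull ι R a b c d * pull ι T a b c d)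

/-- RP3 (0.8 h).  More dictionary: products with the projection `Pm ν`; linearity; complex vectors.  For the last
two: `|P z|² |P w|² - |⟨P z, P w⟩|² ≤ |z|² |w|² - |⟨z, w⟩|²` (Cauchy-Schwarz for `∑ |z_i w_j - z_j w_i|²`, the projection
shrinks), and `pullv ι (ι z') = z'`. -/
def Goal_RP3 : Prop := ∀ (n : ℕ) (ν : Ix n → ℝ) (ι : Ix n → Fin n → ℝ), Iso ν ι →
  pull ι (wdg (Pm ν) (Pm ν)) = Id4 n ∧ Hor ν (wdg (Pm ν) (Pm ν)) ∧ pull2 ι (Pm ν) = 1 ∧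
  (∀ A : M2 (n + 1), A.IsSymm → (∀ i, ∑ j, A i j * ν j = 0) →
    pull ι (wdg A (Pm ν)) = wdg (pull2 ι A) 1 ∧ Hor ν (wdg A (Pm ν)) ∧
    ∀ i j, A i j = ∑ a, ∑ b, pull2 ι A a b * ι i a * ι j b) ∧
  (∀ R S : T4 (n + 1), pull ι (R + S) = pull ι R + pull ι S) ∧
  (∀ (c : ℝ) (R : T4 (n + 1)), pull ι (c • R) = c • pull ι R) ∧
  (∀ R S : T4 (n + 1), Hor ν R → Hor ν S → Hor ν (R + S)) ∧ (∀ (c : ℝ) (R : T4 (n + 1)), Hor ν R → Hor ν (c • R)) ∧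
  (∀ z : Fin n → ℂ, pullv ι (fun i => ∑ a, (ι i a : ℂ) * z a) = z) ∧
  (∀ v : Fin n → ℝ, pullr ι (fun i => ∑ a, ι i a * v a) = v) ∧
  (∀ v : Ix n → ℝ, nrm (pullr ι v) = nrm v - (∑ i, ν i * v i) ^ 2) ∧
  (∀ z w, qf (Id4 n) (pullv ι z) (pullv ι w) ≤ qf (Id4 (n + 1)) z w)

/-- RP4 (0.8 h).  The form `q` of a curvature tensor.  `q_R(αz+βw, γz+δw) = |αδ-βγ|² q_R(z,w)`; orthonormalisation
(Gram-Schmidt) of linearly independent pairs; `q = 0` for dependent pairs; `|q_R| ≤ C max|R| q_I` (first for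
orthonormal pairs: `|z_a|, |w_a| ≤ 1`). -/
def Goal_RP4 : Prop := ∀ (n : ℕ), (∀ R : T4 n, IsCurv R → ∀ (z w : Fin n → ℂ) (α β γ δ : ℂ),
    qf R (fun i => α * z i + β * w i) (fun i => γ * z i + δ * w i) = Complex.normSq (α * δ - β * γ) * qf R z w) ∧
  (∀ z w : Fin n → ℂ, (qf (Id4 n) z w = 0 → ∀ R, IsCurv R → qf R z w = 0) ∧
    (qf (Id4 n) z w ≠ 0 → ∃ z' w' : Fin n → ℂ, (∑ i, Complex.normSq (z' i)) = 1 ∧ (∑ i, Complex.normSq (w' i)) = 1 ∧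
      (∑ i, z' i * star (w' i)) = 0 ∧ qf (Id4 n) z' w' = 1 ∧
      ∀ R, IsCurv R → qf R z w = qf (Id4 n) z w * qf R z' w')) ∧
  (∀ (R : T4 n) (C : ℝ), IsCurv R → (∀ a b c d, |R a b c d| ≤ C) → ∀ z w,
    |qf R z w| ≤ (n : ℝ) ^ 4 * C * qf (Id4 n) z w)

/-! ## Algebra -/

/-- ALG0 (0.5 h).  `R ν = 0`.  Apply `HH` to `f = nu e`: `0 = [H_a,H_b] ν_e = -(1/2) R_abcd V_cd ν_e =
-(1/2) R_abcd (δ_de ν_c - δ_ce ν_d) = R_abed ν_d` by `R34`. -/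
def Goal_ALG0 : Prop := ∀ (n : ℕ) (T : ℝ) (F : FB n T), F.Base → ∀ a b c, ∑ d, F.R a b c d * F.nu d = 0

/-- ALG1 (1.5 h, ALG0).  Jacobi identities `V,H,H` and `H,H,H`.
(VR) Apply `V k l` to `HH`.  With `VH` twice: `V_kl [H_a,H_b] f = [H_a,H_b] V_kl f + (δ_la [H_k,H_b] - δ_ka [H_l,H_b]
+ δ_lb [H_a,H_k] - δ_kb [H_a,H_l]) f`; replace every bracket by `HH`.  The right side is `-(1/2) ((V_kl R_abcd) V_cd f
+ R_abcd V_kl V_cd f)`, and `[V_kl, V_cd] f` by `VV`.  The coefficients of `V_cd f` (antisymmetric arrays) agree by `ind`.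
(bia1) The cyclic sum of `[H_c,[H_a,H_b]] f` is `0`.  `[H_c,V_de] f = -(δ_ec H_d - δ_dc H_e) f`, so
`[H_c,[H_a,H_b]] f = -(1/2) (H_c R_abde) V_de f - R_abcd H_d f` (up to renaming, `R34`).  By `ind` the coefficient of
`H_d`, `X_d = R_abcd + R_bcad + R_cabd`, satisfies `X_d = ν_d (ν_e X_e) = 0` (ALG0), and the coefficients of
`V_de` give `H_c R_abde + H_a R_bcde + H_b R_cade = 0` (bia2).
(pair) follows from `R12, R34, bia1` (char 0: multiply by `1/2`). -/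
def Goal_ALG1 : Prop := ∀ (n : ℕ) (T : ℝ) (F : FB n T), F.Base →
  (∀ k l a b c d, F.V k l (F.R a b c d) =
    F.dl l a * F.R k b c d - F.dl k a * F.R l b c d + F.dl l b * F.R a k c d - F.dl k b * F.R a l c d
    + F.dl l c * F.R a b k d - F.dl k c * F.R a b l d + F.dl l d * F.R a b c k - F.dl k d * F.R a b c l) ∧
  (∀ a b c d, F.R a b c d + F.R b c a d + F.R c a b d = 0) ∧
  (∀ a b c d, F.R a b c d = F.R c d a b) ∧
  (∀ e a b c d, F.H e (F.R a b c d) + F.H a (F.R b e c d) + F.H b (F.R e a c d) = 0)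

/-- ALG2 (1.5 h, ALG0, ALG1).  Jacobi identity `D,H,H`.  Let `Y'` be as in `Base.DH`.
`D H_a H_b f = H_a D H_b f + S_ac H_c H_b f + (1/2) Y'_acd V_cd H_b f`, `D H_b f = H_b D f + S_bc H_c f + (1/2) Y'_bcd V_cd f`;
antisymmetrise in `a, b`:
`D [H_a,H_b] f = [H_a,H_b] D f + (H_a S_bc - H_b S_ac) H_c f + S_bc [H_a,H_c] f + S_ac [H_c,H_b] f
+ (1/2) (H_a Y'_bcd - H_b Y'_acd) V_cd f + Y'_acb H_c f - Y'_bca H_c f` (the last two from `[V_cd,H_b]`, antisymmetry of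
`Y'`).  The left side is `D(-(1/2) R_abcd V_cd f)`.  By `ind`: `X_c = H_a S_bc - H_b S_ac + Y'_acb - Y'_bca` satisfies
`X_c = ν_c (ν_e X_e)`.  `ν_e X_e = 0`: `ν_c H_a S_bc = H_a (S_bc ν_c) = 0`, and `Y'_ace ν_c = 0` (apply `DH` to `f = nu e`).
So `Y'_acb - Y'_bca = H_b S_ac - H_a S_bc`; `Y` satisfies the same (definition, `Ssymm`), and `X_acd = Y' - Y`, antisymmetric
in the last two indices with `X_acb = X_bca`, vanishes: `X_acb = X_bca = -X_bac = -X_cab = X_cba = X_abc = -X_acb`.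
So `DHY`; the coefficients of `V_cd f` give `DR`. -/
def Goal_ALG2 : Prop := ∀ (n : ℕ) (T : ℝ) (F : FB n T), F.Base →
  (∀ a b c, ∑ d, F.R a b c d * F.nu d = 0) →
  (∀ k l a b c d, F.V k l (F.R a b c d) =
    F.dl l a * F.R k b c d - F.dl k a * F.R l b c d + F.dl l b * F.R a k c d - F.dl k b * F.R a l c d
    + F.dl l c * F.R a b k d - F.dl k c * F.R a b l d + F.dl l d * F.R a b c k - F.dl k d * F.R a b c l) →
  (∀ a b c d, F.R a b c d + F.R b c a d + F.R c a b d = 0) →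
  (∀ a b c d, F.R a b c d = F.R c d a b) →
  (∀ e a b c d, F.H e (F.R a b c d) + F.H a (F.R b e c d) + F.H b (F.R e a c d) = 0) → F.Full

/-- PRD (0.8 h).  Product rule of the heat operator, and `P`, `I` are constant for `H`, `D`. -/
def Goal_PRD : Prop := ∀ (n : ℕ) (T : ℝ) (F : FB n T),
  (∀ f g : F.B, F.Hop (f * g) = f * F.Hop g + g * F.Hop f - (2 : ℝ) • F.gg f g
    ∧ F.Hop (f + g) = F.Hop f + F.Hop g ∧ F.Hop (f - g) = F.Hop f - F.Hop g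
    ∧ (∀ c : ℝ, F.Hop (c • f) = c • F.Hop f ∧ F.Hop (algebraMap ℝ F.B c) = 0)
    ∧ F.Hop (f ^ 2) = (2 : ℝ) • (f * F.Hop f) - (2 : ℝ) • F.gg f f) ∧
  (F.Base → (∀ a b c, F.H c (F.P a b) = 0) ∧ (∀ a b, F.D (F.P a b) = 0) ∧
    (∀ a b c d e, F.H e (F.I a b c d) = 0) ∧ (∀ a b c d, F.D (F.I a b c d) = 0) ∧
    (∀ f a b, F.Hop (f * F.P a b) = F.Hop f * F.P a b) ∧
    (∀ f a b c d, F.Hop (f * F.I a b c d) = F.Hop f * F.I a b c d) ∧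
    (∀ a b, F.P a b = F.P b a) ∧ (∀ a, ∑ b, F.P a b * F.nu b = 0) ∧ (∀ a c, ∑ b, F.P a b * F.P b c = F.P a c) ∧
    ∑ a, F.P a a = algebraMap ℝ F.B n)

/-- RIC (0.8 h).  Contractions.  `H_e R_becd = -H_c Ric_bd + H_d Ric_bc` (bia2 for the pair `c, d` after `pair`, contracted),
`2 H_b Ric_bc = H_c (tr Ric)`; `Ric` is symmetric and kills `ν`; `V` acts on `Ric` as a 2-tensor. -/
def Goal_RIC : Prop := ∀ (n : ℕ) (T : ℝ) (F : FB n T), F.Full →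
  (∀ a b, F.Ric a b = F.Ric b a) ∧ (∀ a, ∑ b, F.Ric a b * F.nu b = 0) ∧
  (∀ b c d, ∑ e, F.H e (F.R b e c d) = F.H d (F.Ric b c) - F.H c (F.Ric b d)) ∧
  (∀ c, (2 : ℝ) • ∑ b, F.H b (F.Ric b c) = F.H c (∑ a, F.Ric a a)) ∧
  (∀ k l a b, F.V k l (F.Ric a b) = F.dl l a * F.Ric k b - F.dl k a * F.Ric l b
    + F.dl l b * F.Ric a k - F.dl k b * F.Ric a l) ∧
  (∀ z t, Hor (F.nv z t) (F.rv z t)) ∧
  (∀ a b c d z t, F.ev z t (F.QR a b c d) = Q (F.rv z t) a b c d)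

/-- EVM (1.5 h, RIC).  Evolution of the curvature tensor under the Ricci flow.  `DR` with `S = Ric`:
`D R_abcd = Ric_ae R_ebcd + Ric_be R_aecd - H_a H_d Ric_bc + H_a H_c Ric_bd + H_b H_d Ric_ac - H_b H_c Ric_ad`.
`H_e H_e R_abcd = -H_e H_a R_becd - H_e H_b R_eacd` (bia2) `= -H_a H_e R_becd - [H_e,H_a] R_becd + H_b H_e R_aecd + [H_e,H_b] R_aecd`,
and by RIC the terms `-H_a H_e R_becd`, `H_b H_e R_aecd` are exactly the four second derivatives above.  `[H_e,H_a] T` for a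
tensor `T` replaces every index `c` of `T` in turn: `+R_eack T_(c→k)` (HH, VR).  So `[H_e,H_a] R_becd = R_eabk R_kecd +
R_eaek R_bkcd + R_eack R_bekd + R_eadk R_beck`, `R_eaek = Ric_ak` cancels the term `Ric_ae R_ebcd` (and the same for `b`), and
`(R_eabk - R_ebak) R_kecd = R_abek R_ekcd` (bia1), `R_eack R_bekd + R_eadk R_beck - (a ↔ b) = 2 (B_acbd - B_adbc)`; finally
`R_abef R_cdef = 2 (B_abcd - B_abdc)` (bia1; see SQ), `B_abcd = R_aebf R_cedf`. -/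
def Goal_EVM : Prop := ∀ (n : ℕ) (T : ℝ) (F : FB n T), F.Full → F.IsRF → ∀ a b c d,
  F.Hop (F.R a b c d) = (2 : ℝ) • F.QR a b c d

/-- VIN (1.2 h, RIC, PRD).  Functions of the point.  A complete contraction of tensors is killed by `V`.
For `f` with `VI f`: `V_kl H_a f = δ_la H_k f - δ_ka H_l f`, `[H_a,H_b] f = 0`, and the sums of squares are invariant. -/
def Goal_VIN : Prop := ∀ (n : ℕ) (T : ℝ) (F : FB n T), F.Full →
  F.VI F.lam ∧ F.VI F.e2 ∧ F.VI F.tt ∧ F.VI F.dE ∧ (∀ c : ℝ, F.VI (algebraMap ℝ F.B c)) ∧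
  (∀ f g, F.VI f → F.VI g → F.VI (f + g) ∧ F.VI (f - g) ∧ F.VI (f * g) ∧ F.VI (F.gg f g)) ∧
  (∀ (c : ℝ) f, F.VI f → F.VI (c • f)) ∧
  (∀ f, F.VI f → F.VI (F.Lap f) ∧ F.VI (F.D f) ∧ F.VI (F.h2 f)) ∧
  (∀ f, F.VI f → ∀ a b, F.H a (F.H b f) = F.H b (F.H a f)) ∧
  (∀ f, F.VI f → ∀ k l a, F.V k l (F.H a f) = F.dl l a * F.H k f - F.dl k a * F.H l f)

/-- BOC (1 h, VIN, RIC).  Bochner formulas, `f` with `VI f`.  (1) `H_c H_c H_a f = H_c H_a H_c f = H_a H_c H_c f +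
[H_c,H_a] H_c f`, `[H_c,H_a] H_c f = -(1/2) R_cakl (δ_lc H_k f - δ_kc H_l f) = Ric_ak H_k f`.  (2) `D H_a f = H_a D f + Ric_ab H_b f`
(the vertical part vanishes on `f`), minus (1).  (3) `D H_a H_a f = H_a D H_a f + Ric_ab H_b H_a f + (1/2) Y_acd V_cd H_a f`;
summed over `a`: `Lap D f + (H_a Ric_ab) H_b f + 2 Ric_ab H_a H_b f + Y_aca H_c f`, `Y_aca = H_a Ric_ac - H_c Ric_aa`, and
`H_a Ric_ac = (1/2) H_c tr Ric` (RIC): the first order terms cancel. -/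
def Goal_BOC : Prop := ∀ (n : ℕ) (T : ℝ) (F : FB n T), F.Full → ∀ f, F.VI f →
  (∀ a, F.Lap (F.H a f) = F.H a (F.Lap f) + ∑ b, F.Ric a b * F.H b f) ∧
  (F.IsRF → ∀ a, F.Hop (F.H a f) = F.H a (F.Hop f)) ∧
  (F.IsRF → F.Hop (F.Lap f) = F.Lap (F.Hop f) + (2 : ℝ) • ∑ a, ∑ b, F.Ric a b * F.H a (F.H b f)) ∧
  ((∀ i j, F.S i j = 0) → (∀ a, F.D (F.H a f) = F.H a (F.D f)) ∧ F.D (F.Lap f) = F.Lap (F.D f))

/-- EVS (1.5 h, EVM, PRD, VIN, BOC, RIC).  Evolution of the scalars.  (1) trace of EVM: `∑ QR a b a b = ∑ Ric_ab²`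
(`BB_aabb`-type contractions; or evaluate and use RP2 and `Ric (Q r) = act r (Ric r)`).  (2) `Hop E = 2 QR -
(1/(n-1)) (Hop lam) I` (PRD), and `∑ E_abcd I_abcd = 0` (`∑ R_abcd I_abcd = 2 tr Ric = 2 n lam`, `∑ I_abcd² = 2 n (n-1)`).
(3) BOC (2) for `f = lam`, `H_a` of (1).  (4) product rule.  (5) BOC. -/
def Goal_EVS : Prop := ∀ (n : ℕ) (T : ℝ) (F : FB n T), 2 ≤ n → F.Full → F.IsRF →
  F.Hop F.lam = (2 / (n : ℝ)) • ∑ a, ∑ b, F.Ric a b ^ 2 ∧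
  F.Hop F.e2 = (4 : ℝ) • (∑ a, ∑ b, ∑ c, ∑ d, F.E a b c d * F.QR a b c d) - (2 : ℝ) • F.dE ∧
  F.Hop (F.gg F.lam F.lam) = (8 / (n : ℝ)) • (∑ a, ∑ b, ∑ c, F.H a F.lam * F.Ric b c * F.H a (F.Ric b c))
    - (2 : ℝ) • F.h2 F.lam ∧
  (∀ a, F.H a F.e2 = (2 : ℝ) • ∑ i, ∑ j, ∑ k, ∑ l, F.E i j k l * F.H a (F.E i j k l)) ∧
  (∀ u, F.VI u → F.Hop u = 0 →
    F.Hop (F.gg u u) = -((2 : ℝ) • F.h2 u) ∧
    F.Hop (F.Lap u) = (2 : ℝ) • ∑ a, ∑ b, F.Ric a b * F.H a (F.H b u))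

/-- BIA (1.5 h, RIC, PRD).  Pointwise consequences of the Bianchi identity, `n ≥ 3`.  Let `c = 1/(n-1)`,
`Ric_ab = E_acbc + lam P_ab`.  RIC: `2 H_b Ric_bc = n H_c lam`, so `2 H_b E_babc..` gives
`(n - 2) H_c lam = 2 H_b (E_bdcd)` (use `∑_b P_bc H_b lam = H_c lam`, from `nuH`): `gg lam lam ≤ C dE`.
`H_e R = H_e E + c (H_e lam) I`: `dR ≤ C dE`.  `(H_a e2)² ≤ 4 e2 ∑ (H_a E)²`.  The others are Cauchy-Schwarz inequalities
(`ev z t` is a ring homomorphism to `ℝ`), `H_a (gg f f) = 2 ∑ H_b f H_a H_b f`; `|Ric_bc| ≤ (n+1) M`. -/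
def Goal_BIA : Prop := ∀ (n : ℕ), 3 ≤ n → ∃ C > 0, ∀ (T : ℝ) (F : FB n T), F.Full → ∀ z t,
  F.ev z t (F.gg F.lam F.lam) ≤ C * F.ev z t F.dE ∧
  F.ev z t F.dR ≤ C * F.ev z t F.dE ∧
  F.ev z t (F.gg F.e2 F.e2) ≤ 4 * F.ev z t F.e2 * F.ev z t F.dE ∧
  0 ≤ F.ev z t F.dE ∧ 0 ≤ F.ev z t F.e2 ∧
  (∀ M : ℝ, (∀ a b c d, |F.ev z t (F.R a b c d)| ≤ M) →
    F.ev z t (∑ a, ∑ b, ∑ c, F.H a F.lam * F.Ric b c * F.H a (F.Ric b c)) ^ 2
      ≤ C * M ^ 2 * F.ev z t (F.gg F.lam F.lam) * F.ev z t F.dE ∧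
    ∀ f, F.ev z t (∑ a, ∑ b, F.Ric a b * F.H a (F.H b f)) ^ 2 ≤ C * M ^ 2 * F.ev z t (F.h2 f)) ∧
  (∀ f g, F.ev z t (F.gg f g) ^ 2 ≤ F.ev z t (F.gg f f) * F.ev z t (F.gg g g)) ∧
  (∀ f, 0 ≤ F.ev z t (F.gg f f) ∧ 0 ≤ F.ev z t (F.h2 f) ∧
    F.ev z t (F.gg (F.gg f f) f) ^ 2 ≤ 4 * F.ev z t (F.gg f f) ^ 2 * F.ev z t (F.h2 f) ∧
    F.ev z t (F.Lap f) ^ 2 ≤ ((n : ℝ) + 1) * F.ev z t (F.h2 f))

/-- NRB (1.2 h, NR, QB, RP1, RP2, RP3, EVS, RIC).  Reaction terms at a point.  Take `ι` from RP1, `r = pull ι (rv z t)`.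
`E` is `pull`ed to `r - lam r/(n-1) Id4` (RP3, `F.I` evaluates to `wdg (Pm ν) (Pm ν)`), so NR gives the first
inequality.  `Hop lam = (2/n) |Ric|² = 2 lam (Q r)` (`Ric (Q r) = act r (Ric r)`, trace `= |Ric r|²`), NR again. -/
def Goal_NRB : Prop := ∀ (n : ℕ), 4 ≤ n → ∃ C > 0, ∀ (T : ℝ) (F : FB n T), F.Full → F.IsRF → ∀ z t,
  0 ≤ F.ev z t F.lam →
  F.ev z t (F.Hop F.e2) ≤ 4 * (((n : ℝ) - 2) / ((n : ℝ) - 1)) * F.ev z t F.lam * F.ev z t F.e2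
    + C * F.ev z t F.e2 * Real.sqrt (F.ev z t F.e2) - 2 * F.ev z t F.dE ∧
  2 * F.ev z t F.lam ^ 2 ≤ F.ev z t (F.Hop F.lam) ∧
  F.ev z t (F.Hop F.lam) ≤ 2 * F.ev z t F.lam ^ 2 + C * F.ev z t F.e2

/-- EVK (1.5 h, RP2, RP3, RIC, PRD, EVM, EVS, SH, DF, LI, CL, QB).  The transformed tensor.  (1): unfold `Sb`, RP2, RP3
(`F.P` evaluates to `Pm ν`, `F.lam` to `lam r`, `Ric0` to the traceless Ricci tensor).  (2): `Hop` is linear and `P, I`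
are constant (PRD), so `Hop Sb` is the same linear expression in `Hop R = 2 QR` and `Hop bet = -(1/B) bet²`, i.e. it pulls
back to `elli a b (2 Q r - (β²/B) Id4)`.  With `r' = r + β Id4 = ell a b s`, SH for `y = -β`:
`Q r = Q r' - 2β wdg (Ric r') 1 + (n-1) β² Id4`; DF: `Q r' = ell a b (Q s + Dab a b s)`; LI: `elli (wdg (Ric (ell s)) 1) =
wdg (Ric s) 1`, `elli Id4 = Id4/(1+2(n-1)a)`. -/
def Goal_EVK : Prop := ∀ (n : ℕ), 4 ≤ n → ∀ (a b B : ℝ), 0 ≤ a → 0 ≤ b → 1 ≤ B → ∀ (T : ℝ) (F : FB n T),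
  F.Full → F.IsRF → ∀ bet : F.B, (∀ a, F.H a bet = 0) → F.D bet = (-(1 / B) : ℝ) • bet ^ 2 →
  ∀ z t ι, Iso (F.nv z t) ι →
    pull ι (fun i j k l => F.ev z t (F.Sb a b bet i j k l)) =
      elli a b (pull ι (F.rv z t) + F.ev z t bet • Id4 n) ∧
    Hor (F.nv z t) (fun i j k l => F.ev z t (F.Sb a b bet i j k l)) ∧
    Hor (F.nv z t) (fun i j k l => F.ev z t (F.Hop (F.Sb a b bet i j k l))) ∧
    ∀ s, s = elli a b (pull ι (F.rv z t) + F.ev z t bet • Id4 n) →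
      pull ι (fun i j k l => F.ev z t (F.Hop (F.Sb a b bet i j k l))) =
        (2 : ℝ) • (Q s + Dab a b s) - (4 * F.ev z t bet) • wdg (Ric s) 1
          + ((2 * ((n : ℝ) - 1) - 1 / B) * F.ev z t bet ^ 2 / (1 + 2 * ((n : ℝ) - 1) * a)) • Id4 n

end Pool.Agent.Helper47.RFn
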