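import Pool.Agent.Helper47.RFn.Fr
import Pool.Agent.Helper47.RFn.FlowN
import Pool.Agent.Helper47.RFn.GoalsA

/-!
# Project RFn, goals C: moving frames and the frame bundle instance (general dimension)

Repeated indices are summed in the docstrings.  `c_ij^k = n_i δ_jk - n_j δ_ik` are the structure functions of the
`e_i` (`n = n0`), `ν_a = nf a`.  The `n = 3` versions are in `Pool/Agent/Helper73/RF/GoalsC.lean` (proved: FRA, LCR, GEO,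
INSB, INSA, YOM in `Pool/Agent/*/RF/`).
-/

namespace Pool.Agent.Helper47.RFn

open Finset

/-- E0 (0.6 h).  The fields `e_i = n_j L_ji` of the basic algebra.  `n_i e_i f = n_i n_j L_ji f = 0` (antisymmetry);
`e_i n_k = n_j (n_j δ_ik - n_i δ_jk)`; `[e_i,e_k] = n_j n_l [L_ji,L_lk] + n_j (L_ji n_l) L_lk - n_l (L_lk n_j) L_ji
= (n_i e_k - L_ik - n_k e_i) + (L_ik - n_i e_k) - (L_ki - n_k e_i) = L_ik = n_i e_k - n_k e_i` (`LL`, `Ln`, `Le`).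
The last claim collects `FrameHyp`. -/
def Goal_E0 : Prop := ∀ (n : ℕ) (T : ℝ) (P : BA n T), P.Ax →
  (∀ i j f, P.e i (P.e j f) - P.e j (P.e i f) = P.n0 i * P.e j f - P.n0 j * P.e i f) ∧
  (∀ i j, P.e i (P.n0 j) = P.dl i j - P.n0 i * P.n0 j) ∧
  (∀ f, ∑ i, P.n0 i * P.e i f = 0) ∧
  (∀ i k l f, P.e i (P.U k l f) = P.U k l (P.e i f)) ∧
  (∀ i k l f, P.e i (P.V k l f) = P.V k l (P.e i f)) ∧
  (∀ i f, P.Dt (P.e i f) = P.e i (P.Dt f)) ∧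
  (∀ i a b, P.e i (P.u a b) = 0) ∧ (∀ i, P.e i P.tt = 0) ∧
  (∀ A θ S0 : Ix n → Ix n → P.B, P.FH A θ S0 → FrameHyp P.e P.n0 A θ)

/-- FRA (0.8 h).  First identities of the moving frame.  (a): `F_a F_b f - F_b F_a f = (F_a A_bj - F_b A_aj) e_j f
+ A_ai A_bk (n_i e_k f - n_k e_i f)` and `e_j = θ_jc F_c` (`tA`).  (b), (c), (d): definitions and antisymmetry of `C` in the
first two indices.  (f): `ν_a = A_ai n_i = θ_ja n_j`, `A_ai θ_ja` contracted over `a` gives `δ_ij`; `ν_a A_aj = n_j`,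
`ν_a F_a = n_i e_i = 0`.  (g): put `T_ab = F_a ν_b - Γ_abc ν_c`.  `F_a ν_b - F_b ν_a = (F_a A_bi - F_b A_ai) n_i` (as `e_j n_i` is
symmetric) `= C_abc ν_c`, so `T` is symmetric by (d).  `Γ_abc + Γ_bac = C_cab + C_cba`, and
`ν_c C_cab = ν_c (F_c A_aj) θ_jb - ν_c (F_a A_cj) θ_jb + δ_ab - ν_a ν_b`, first term `0`, `ν_c F_a A_cj = F_a n_j - (F_a ν_c) A_cj`,
`F_a n_j = A_aj - ν_a n_j`: `ν_c C_cab = F_a ν_b`.  So `T_ab + T_ba = 0`, `T = 0`. -/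
def Goal_FRA : Prop := ∀ (n : ℕ) (𝒜 : Type) [CommRing 𝒜] [Algebra ℝ 𝒜] (e : Ix n → Derivation ℝ 𝒜 𝒜)
    (n0 : Ix n → 𝒜) (A θ : Ix n → Ix n → 𝒜), FrameHyp e n0 A θ →
  (∀ a b f, FR.Fd e A a (FR.Fd e A b f) - FR.Fd e A b (FR.Fd e A a f)
    = ∑ c, FR.C e n0 A θ a b c * FR.Fd e A c f) ∧
  (∀ a b c, FR.C e n0 A θ a b c = - FR.C e n0 A θ b a c) ∧
  (∀ a b c, FR.Gam e n0 A θ a b c = - FR.Gam e n0 A θ a c b) ∧
  (∀ a b c, FR.C e n0 A θ a b c = FR.Gam e n0 A θ a b c - FR.Gam e n0 A θ b a c) ∧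
  (∀ i f, e i f = ∑ a, θ i a * FR.Fd e A a f) ∧
  (∑ a, FR.nf n0 A a ^ 2 = 1) ∧ (∀ f, ∑ a, FR.nf n0 A a * FR.Fd e A a f = 0) ∧
  (∀ a b, FR.Fd e A a (FR.nf n0 A b) = ∑ c, FR.Gam e n0 A θ a b c * FR.nf n0 A c) ∧
  (∀ a b c d, FR.R e n0 A θ a b c d = - FR.R e n0 A θ b a c d) ∧
  (∀ a b c d, FR.R e n0 A θ a b c d = - FR.R e n0 A θ a b d c)

/-- NUK (0.5 h, FRA).  `ν` is in the kernel of the curvature.  Compute `F_a F_b ν_c - F_b F_a ν_c` with (g) of FRA in two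
ways: `(F_a Γ_bcd - F_b Γ_acd) ν_d + Γ_bcd Γ_ade ν_e - Γ_acd Γ_bde ν_e` and `C_abe F_e ν_c = C_abe Γ_ecd ν_d`. -/
def Goal_NUK : Prop := ∀ (n : ℕ) (𝒜 : Type) [CommRing 𝒜] [Algebra ℝ 𝒜] (e : Ix n → Derivation ℝ 𝒜 𝒜)
    (n0 : Ix n → 𝒜) (A θ : Ix n → Ix n → 𝒜), FrameHyp e n0 A θ →
  ∀ a b c, ∑ d, FR.R e n0 A θ a b c d * FR.nf n0 A d = 0

/-- LCR (1 h, FRA).  The Christoffel symbols in the frame `e_i` and in the moving frame.  `g_jk = θ_ja θ_ka`,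
`A_bj g_jk A_ck = δ_bc`, `g_jk A_ck = θ_jc`, `gi_ik g_kj = δ_ij`.  Put `P_abc = (F_a A_bj) g_jk A_ck = (F_a A_bj) θ_jc`.
Differentiating `A_bj A_ck g_jk = δ_bc`: `A_bj A_ck F_a g_jk = -P_abc - P_acb`.  `KL_ijm := g_mk KE_ijk = ½ (e_i g_jm + e_j g_im -
e_m g_ij) + n_m g_ij - n_j g_im`.  Hence `A_ai A_bj A_cm KL_ijm = ½ (-P_abc - P_acb - P_bac - P_bca + P_cab + P_cba)
+ ν_c δ_ab - ν_b δ_ac` and `C_abc = P_abc - P_bac + ν_a δ_bc - ν_b δ_ac`, so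
`P_abc + A_ai A_bj A_cm KL_ijm = ½ (C_abc - C_bca + C_cab) = Γ_abc`.  Finally `(F_a A_bl + A_ai A_bj KE_ijl) θ_lc = Γ_abc`;
multiply by `A_cl` and sum over `c` (`tA`).  Last claim: torsion free. -/
def Goal_LCR : Prop := ∀ (n : ℕ) (𝒜 : Type) [CommRing 𝒜] [Algebra ℝ 𝒜] (e : Ix n → Derivation ℝ 𝒜 𝒜)
    (n0 : Ix n → 𝒜) (A θ : Ix n → Ix n → 𝒜), FrameHyp e n0 A θ →
  (∀ a b l, FR.Fd e A a (A b l) + ∑ i, ∑ j, A a i * A b j * FR.KE e n0 A θ i j l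
    = ∑ c, FR.Gam e n0 A θ a b c * A c l) ∧
  (∀ i j, ∑ k, FR.gi A i k * FR.g θ k j = if i = j then 1 else 0) ∧
  (∀ a b, ∑ i, ∑ j, A a i * FR.g θ i j * A b j = if a = b then 1 else 0) ∧
  (∀ i j k, FR.KE e n0 A θ i j k - FR.KE e n0 A θ j i k
    = n0 i * (if j = k then 1 else 0) - n0 j * (if i = k then 1 else 0))

/-- GEO (1.5 h, FRA, LCR).  The curvature in the moving frame.  For `W : Ix n → 𝒜` (components in the frame `e`) put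
`(∇_a W)_k = F_a W_k + A_ai W_j KE_ijk`.  LCR: `∇_a A_b = Γ_abc A_c`.  For every `W`, expanding and with
`F_c F_d - F_d F_c = C_cdf F_f`, `F_c A_dj - F_d A_cj = C_cdf A_fj - (ν_c A_dj - ν_d A_cj)`:
`(∇_c ∇_d W - ∇_d ∇_c W - C_cdf ∇_f W)_l = A_ci A_dj W_k RE_ijkl`.  For `W = A_b` the left side is
`(F_c Γ_dbf - F_d Γ_cbf + Γ_dbe Γ_cef - Γ_cbe Γ_def - C_cde Γ_ebf) A_fl = K_cdbf A_fl`.  Second claim: multiply by
`g_lm A_fm`.  Third claim: first Bianchi identity `RE_ijkl + RE_jkil + RE_kijl = 0`: by the last claim of LCR the cyclic sum is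
`Σcyc (e_i c_jk^l + c_jk^m KE_iml - n_i KE_jkl + n_j KE_ikl) = Σcyc (δ_ij - n_i n_j) δ_kl - (δ_ik - n_i n_k) δ_jl
+ 2 Σcyc n_j c_ik^l = 0`; then with the first claim `K_cdbf + K_dbcf + K_bcdf = 0`. -/
def Goal_GEO : Prop := ∀ (n : ℕ) (𝒜 : Type) [CommRing 𝒜] [Algebra ℝ 𝒜] (e : Ix n → Derivation ℝ 𝒜 𝒜)
    (n0 : Ix n → 𝒜) (A θ : Ix n → Ix n → 𝒜), FrameHyp e n0 A θ →
  (∀ c d b l, ∑ i, ∑ j, ∑ k, A c i * A d j * A b k * FR.RE e n0 A θ i j k l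
    = ∑ f, FR.K e n0 A θ c d b f * A f l) ∧
  (∀ c d b f, ∑ i, ∑ j, ∑ k, ∑ l, A c i * A d j * A b k * A f l
      * (∑ m, FR.RE e n0 A θ i j k m * FR.g θ m l) = FR.K e n0 A θ c d b f) ∧
  (∀ a b c d, FR.R e n0 A θ a b c d + FR.R e n0 A θ b c a d + FR.R e n0 A θ c a b d = 0)

/-- PAIR (0.4 h, FRA, GEO).  Pair symmetry `R_abcd = R_cdab` (the usual octahedron argument from the two
antisymmetries and the first Bianchi identity), symmetry of the Ricci tensor, and `Rc_ab ν_b = 0` (NUK). -/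
def Goal_PAIR : Prop := ∀ (n : ℕ) (𝒜 : Type) [CommRing 𝒜] [Algebra ℝ 𝒜] (e : Ix n → Derivation ℝ 𝒜 𝒜)
    (n0 : Ix n → 𝒜) (A θ : Ix n → Ix n → 𝒜), FrameHyp e n0 A θ →
  (∀ a b c d, FR.R e n0 A θ a b c d = FR.R e n0 A θ c d a b) ∧
  (∀ a b, FR.Rc e n0 A θ a b = FR.Rc e n0 A θ b a) ∧
  (∀ a, ∑ b, FR.Rc e n0 A θ a b * FR.nf n0 A b = 0)

/-- NAT (0.4 h).  Naturality of the formulas under algebra homomorphisms commuting with the derivations (unfold,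
`map_sum`, `map_mul`, ...). -/
def Goal_NAT : Prop := ∀ (n : ℕ) (𝒜 ℬ : Type) [CommRing 𝒜] [Algebra ℝ 𝒜] [CommRing ℬ] [Algebra ℝ ℬ]
    (e : Ix n → Derivation ℝ 𝒜 𝒜) (e' : Ix n → Derivation ℝ ℬ ℬ) (φ : 𝒜 →ₐ[ℝ] ℬ) (n0 : Ix n → 𝒜)
    (A θ : Ix n → Ix n → 𝒜), (∀ i f, φ (e i f) = e' i (φ f)) →
  (∀ a b c, φ (FR.C e n0 A θ a b c)
    = FR.C e' (fun i => φ (n0 i)) (fun a i => φ (A a i)) (fun i a => φ (θ i a)) a b c) ∧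
  (∀ a b c, φ (FR.Gam e n0 A θ a b c)
    = FR.Gam e' (fun i => φ (n0 i)) (fun a i => φ (A a i)) (fun i a => φ (θ i a)) a b c) ∧
  (∀ a b c d, φ (FR.R e n0 A θ a b c d)
    = FR.R e' (fun i => φ (n0 i)) (fun a i => φ (A a i)) (fun i a => φ (θ i a)) a b c d)

/-- INSB (1.2 h, E0, FRA).  The curvature of the frame bundle, field `HH`.  `L_b = F_b + ½ Γ_bcd U_cd`, `H_a = u_ab L_b`;
`A, θ, n, C, Γ, K` are killed by `U, V` (E0).  `[½ Γ_cgh U_gh, ½ Γ_dgh U_gh] = ½ (Γ_dge Γ_ceh - Γ_cge Γ_deh) U_gh` (`UU`,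
antisymmetry of `Γ`), so `[L_c,L_d] f = C_cde F_e f + ½ (F_c Γ_dgh - F_d Γ_cgh + Γ_dge Γ_ceh - Γ_cge Γ_deh) U_gh f
= C_cde L_e f + ½ K_cdgh U_gh f`.  `L_c u_bd = Γ_cdh u_bh` (`Uu`, `Lu`).  So `[H_a,H_b] f = u_ac u_bd [L_c,L_d] f
+ u_ac (L_c u_bd) L_d f - u_bd (L_d u_ac) L_c f`; the `L_e` part is `u_ac u_bd (C_cde + Γ_ced - Γ_dec) L_e f = 0`; the rest is
`½ u_ac u_bd K_cdgh u_pg u_qh V_pq f` (`UeV`). -/
def Goal_INSB : Prop := ∀ (n : ℕ) (T : ℝ) (P : BA n T), P.Ax → ∀ A θ S0 : Ix n → Ix n → P.B, P.FH A θ S0 →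
  (∀ a b f, (P.toFB A θ S0).H a ((P.toFB A θ S0).H b f) - (P.toFB A θ S0).H b ((P.toFB A θ S0).H a f)
    = (-(1 / 2) : ℝ) • ∑ c, ∑ d, (P.toFB A θ S0).R a b c d * (P.toFB A θ S0).V c d f) ∧
  (∀ a b c, P.XT (FR.C P.e P.n0 A θ a b c)) ∧ (∀ a b c, P.XT (FR.Gam P.e P.n0 A θ a b c)) ∧
  (∀ a b c d, P.XT (FR.R P.e P.n0 A θ a b c d)) ∧ (∀ a, P.XT (FR.nf P.n0 A a))

/-- INSA (1.5 h, E0, FRA, INSB).  The instance: all fields of `Base`.  `ext`, `cont`, `tt`, `time`, `comp`, `VV`, `Vanti`,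
`DV`: from `P.Ax`.  `chain`: `H_a` is a `B`-combination of `L_ij, U_cd`.  `min1`: at a spatial minimum `P.Ax.min` for coordinate
vectors gives `L_ij f = U_cd f = 0` there; write `H_a = α_ji L_ji + γ_cd U_cd` with `α_ji = u_ab A_bi n_j`,
`γ_cd = ½ u_ab Γ_bcd`; with `c = ev α`, `d = ev γ`: `ev (H_a f) = ev (cf c d f)`, and the terms of `H_a H_a f` with derivatives of
`α, γ` contain a first derivative of `f`, so `ev (H_a H_a f) = ev (cf c d (cf c d f))`.  `ind`: test with `f = n0 j`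
(`U, V` kill it, `e_i n_j = δ_ij - n_i n_j`): with `α_b = a_i u_ib`: `α_b (A_bj - ν_b n_j) = 0`, multiply by `θ_jc`:
`α_c = (α_b ν_b) ν_c`, so `a_i = nu_i (nu_j a_j)`, and `a_i H_i f = 0` by `nuH`; then test with `f = u c d`:
`b_kl (δ_lc u_kd - δ_kc u_ld) = 2 b_kc u_kd = 0`, so `b = 0` (`uut`).  `VH`: `V` commutes with `e, U`, kills `A`, `Γ`, and `Vu`.
`R12`, `R34`: FRA.  `HH`: INSB.  `DH`: `D (H_a f) = H_a (D f) + u_ab S0_bc L_c f + ½ u_ab (Dt Γ_bcd - S0_be Γ_ecd) U_cd f`,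
`S_ab H_b f = u_ab S0_bc L_c f` (`utu`), `UeV`.  `nunu`, `nuH`: FRA.  `Hnu`: `L_b ν_c = Γ_bcd ν_d` (FRA (g)),
`L_b u_ac = Γ_bcd u_ad`: `L_b (u_ac ν_c) = 0` (antisymmetry).  `Vnu`: `Vu`.  `Dnu`: `DA`, `Dn`, `nS`.  `nuS`: `nS`, `utu`. -/
def Goal_INSA : Prop := ∀ (n : ℕ) (T : ℝ) (P : BA n T), P.Ax → ∀ A θ S0 : Ix n → Ix n → P.B, P.FH A θ S0 →
  (P.toFB A θ S0).Base

/-- YOM (0.8 h, INSA, INSB, ALG0, ALG1, ALG2).  Evolution of the connection, and the dictionary.  `Full` from `Base` by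
ALG0-ALG2.  `Full.DHY` and `DH` as computed in INSA: the difference of the two vertical parts is
`½ (Y_apq - u_ab u_pc u_qd (Dt Γ_bcd - S0_be Γ_ecd)) V_pq f = 0`; by `ind` (with `a = 0`) the coefficients vanish; contract with
`u`.  `Ric` of the bundle is `u_ia u_jb Rc_ab` (`utu`), `lam = Σ Rc_aa / n`, `e2` is invariant under rotation:
`E_abcd(bundle) = u u u u E_abcd(frame)`. -/
def Goal_YOM : Prop := ∀ (n : ℕ) (T : ℝ) (P : BA n T), P.Ax → ∀ A θ S0 : Ix n → Ix n → P.B, P.FH A θ S0 →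
  (P.toFB A θ S0).Full ∧
  (∀ b c d, P.Dt (FR.Gam P.e P.n0 A θ b c d) = ∑ f, S0 b f * FR.Gam P.e P.n0 A θ f c d
    + ∑ a, ∑ p, ∑ q, P.u a b * P.u p c * P.u q d * P.Yb A θ S0 a p q) ∧
  P.lamb A θ S0 = (1 / (n : ℝ)) • ∑ a, FR.Rc P.e P.n0 A θ a a ∧
  (∀ i j, (P.toFB A θ S0).Ric i j = ∑ a, ∑ b, P.u i a * P.u j b * FR.Rc P.e P.n0 A θ a b) ∧
  ((∀ a b, S0 a b = FR.Rc P.e P.n0 A θ a b) → (P.toFB A θ S0).IsRF) ∧
  (P.toFB A θ S0).e2 = ∑ a, ∑ b, ∑ c, ∑ d, (FR.R P.e P.n0 A θ a b c d - (1 / ((n : ℝ) - 1)) •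
    (P.lamb A θ S0 * ((P.dl a c - FR.nf P.n0 A a * FR.nf P.n0 A c) * (P.dl b d - FR.nf P.n0 A b * FR.nf P.n0 A d)
      - (P.dl a d - FR.nf P.n0 A a * FR.nf P.n0 A d) * (P.dl b c - FR.nf P.n0 A b * FR.nf P.n0 A c)))) ^ 2

/-- VIH (0.5 h, E0, FRA, INSB).  Functions of `(x,t)` in the bundle: gradient and Laplacian.  `H_a f = u_ab F_b f`;
`H_a H_a f = u_ab (L_b u_ac) F_c f + F_b F_b f = F_b F_b f - Γ_bbc F_c f`. -/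
def Goal_VIH : Prop := ∀ (n : ℕ) (T : ℝ) (P : BA n T), P.Ax → ∀ A θ S0 : Ix n → Ix n → P.B, P.FH A θ S0 →
  ∀ f h : P.B, P.XT f → P.XT h →
  (P.toFB A θ S0).VI f ∧
  (∀ a, (P.toFB A θ S0).H a f = ∑ b, P.u a b * FR.Fd P.e A b f) ∧
  (P.toFB A θ S0).gg f h = ∑ b, FR.Fd P.e A b f * FR.Fd P.e A b h ∧
  (P.toFB A θ S0).Lap f = ∑ b, FR.Fd P.e A b (FR.Fd P.e A b f)
    - ∑ b, ∑ c, FR.Gam P.e P.n0 A θ b b c * FR.Fd P.e A c f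

/-! ### function level -/

/-- SMA (0.8 h, C1, C2, C3).  The algebra of smooth functions on `Sⁿ` with the derivations `ed i`: e.g. the subalgebra of
`({x // x ≠ 0} → ℝ)` of restrictions of `Sm` functions; `ed i h x` for `x ≠ 0` only depends on `h` off `0`.  The last claim: for
`Frm A θ` the matrices give elements `A', θ'` with `FrameHyp` (C3). -/
def Goal_SMA : Prop := ∀ n : ℕ, ∃ (𝒜 : Type) (_ : CommRing 𝒜) (_ : Algebra ℝ 𝒜)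
    (e : Ix n → Derivation ℝ 𝒜 𝒜) (n0 : Ix n → 𝒜) (v : {x : EE n // x ≠ 0} → (𝒜 →ₐ[ℝ] ℝ)),
  (∀ f g, (∀ x, v x f = v x g) → f = g) ∧
  (∀ h : EE n → ℝ, Sm h → ∃ f, ∀ x, v x f = h x) ∧ (∀ f, ∃ h : EE n → ℝ, Sm h ∧ ∀ x, v x f = h x) ∧
  (∀ f (h : EE n → ℝ), Sm h → (∀ x, v x f = h x) → ∀ i x, v x (e i f) = ed i h x) ∧
  (∀ i x, v x (n0 i) = nn i (x : EE n)) ∧
  (∀ A θ : MF n, Frm A θ → ∀ A' θ' : Ix n → Ix n → 𝒜, (∀ a i x, v x (A' a i) = A x a i) →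
    (∀ i a x, v x (θ' i a) = θ x i a) → FrameHyp e n0 A' θ')

/-- FRF (1.5 h, C1, C2, C3, SMA, FRA, NUK, LCR, GEO, PAIR).  The frame formulas at the function level, at one time: apply
the algebra statements in the algebra of SMA; `Cc, Gamc, Kf, Rf, Rcf` are the values of `C, Gam, K, R, Rc` (unfold).
`gOf θ` is a metric: positive definite since `θ` is invertible, `θ θᵀ x = θ A x = x`.  Curvature in coordinates: for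
`g̃ = cyl (gOf θ)`, `KE_ijk = n_i δ_jk + |x| Chr g̃ i j k` (`∂_i g̃_jk = (e_i g_jk - 2 n_i g_jk)/|x|³`, `gi_kl n_l = n_k`) and then
`RE_ijkl = |x|² Rup g̃ i j k l`; contraction with `g̃ = g/|x|²` and the second claim of GEO give
`Kf a b c d x = |x|⁴ Rm g̃ i j k l x A_ai A_bj A_ck A_dl`. -/
def Goal_FRF : Prop := ∀ (n : ℕ) (A θ : MF n), Frm A θ →
  IsMetric (gOf θ) ∧ (∀ x, (gOf θ x)⁻¹ = (A x).transpose * A x) ∧ (∀ x, θ x * A x = 1) ∧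
  (∀ a b c, Sm (Cc A θ a b c)) ∧ (∀ a b c, Sm (Gamc A θ a b c)) ∧ (∀ a b c d, Sm (Rf A θ a b c d)) ∧
  (∀ a, Sm (nfc A a)) ∧
  (∀ a b f x, x ≠ 0 → Sm f → Fdc A a (Fdc A b f) x - Fdc A b (Fdc A a f) x = ∑ c, Cc A θ a b c x * Fdc A c f x) ∧
  (∀ a b c x, x ≠ 0 → Cc A θ a b c x = Gamc A θ a b c x - Gamc A θ b a c x) ∧
  (∀ a b c x, x ≠ 0 → Gamc A θ a b c x = - Gamc A θ a c b x) ∧
  (∀ i f x, x ≠ 0 → Sm f → ed i f x = ∑ a, θ x i a * Fdc A a f x) ∧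
  (∀ a b x, x ≠ 0 → Fdc A a (nfc A b) x = ∑ c, Gamc A θ a b c x * nfc A c x) ∧
  (∀ x, x ≠ 0 → ∑ a, nfc A a x ^ 2 = 1) ∧
  (∀ x, x ≠ 0 → IsCurv (fun a b c d => Rf A θ a b c d x)) ∧
  (∀ x, x ≠ 0 → ∀ a b c, ∑ d, Rf A θ a b c d x * nfc A d x = 0) ∧
  (∀ x, x ≠ 0 → ∀ a b c d, ∑ i, ∑ j, ∑ k, ∑ l, Rm (cyl (gOf θ)) i j k l x * A x a i * A x b j * A x c k * A x d l
    = - (‖x‖ ^ 4)⁻¹ * Rf A θ a b c d x) ∧
  (∀ x a b, ip (gOf θ) x (A x a) (A x b) = if a = b then 1 else 0) ∧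
  (∀ (u v : EE n → ℝ) x, ggf A u v x = ∑ i, ∑ j, (gOf θ x)⁻¹ i j * ed i u x * ed j v x)

end Pool.Agent.Helper47.RFn
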