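import Pool.Agent.Helper47.RFn.Str

/-!
# Project RFn: moving frames, the basic algebra of `Sⁿ × O(n+1) × (0,T)`, the frame bundle of a moving frame

`FR`: an orthonormal frame `F_a = ∑ A a i e_i` over a commutative algebra with derivations `e_i`
(`e_i = |x| ∂_i` on `0`-homogeneous functions), `[e_i,e_j] = n0_i e_j - n0_j e_i`, `n0_i = x_i/|x|`.
`nf a = ∑ A a i n0 i` = components of the radial unit vector, `C` structure functions, `Gam` Levi-Civita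
connection, `K a b c d = g(∇_a ∇_b F_c - ∇_b ∇_a F_c - ∇_{[a,b]} F_c, F_d)`, `R = - K` (so `R a b a b` is the
sectional curvature).  `KE`, `RE` = Christoffel symbols and curvature in the frame `e_i` of the metric
`g i j = ∑ θ i a θ j a`, inverse `gi i j = ∑ A a i A a j`.

`BA n T`: basic algebra of smooth functions of `(x,u,t)`, `x ∈ Sⁿ`, `u ∈ O(n+1)`: rotation fields `L i j = x_i ∂_j - x_j ∂_i`,
right fields `U c d` on `u` (`U c d u_be = δ_ce u_bd - δ_de u_bc`), left fields `V a b` on `u`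
(`V a b u_cd = δ_bc u_ad - δ_ac u_bd`), time derivative `Dt`.
-/

namespace Pool.Agent.Helper47.RFn

open Finset

namespace FR

variable {n : ℕ} {𝒜 : Type} [CommRing 𝒜] [Algebra ℝ 𝒜] (e : Ix n → Derivation ℝ 𝒜 𝒜) (n0 : Ix n → 𝒜)
  (A θ : Ix n → Ix n → 𝒜)

/-- `F_a f = ∑_i A a i e_i f` -/
def Fd (a : Ix n) (f : 𝒜) : 𝒜 := ∑ i, A a i * e i f

/-- radial unit vector in the frame -/
def nf (a : Ix n) : 𝒜 := ∑ i, A a i * n0 i

/-- structure functions: `[F_a,F_b] = ∑_c C a b c F_c` -/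
def C (a b c : Ix n) : 𝒜 :=
  ∑ j, (Fd e A a (A b j) - Fd e A b (A a j)) * θ j c
    + (nf n0 A a * (if b = c then 1 else 0) - nf n0 A b * (if a = c then 1 else 0))

/-- `Γ_abc = g(∇_{F_a} F_b, F_c)` -/
noncomputable def Gam (a b c : Ix n) : 𝒜 :=
  (1 / 2 : ℝ) • (C e n0 A θ a b c - C e n0 A θ b c a + C e n0 A θ c a b)

/-- curvature `g(R(F_a,F_b)F_c,F_d)` -/
noncomputable def K (a b c d : Ix n) : 𝒜 :=
  Fd e A a (Gam e n0 A θ b c d) - Fd e A b (Gam e n0 A θ a c d)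
    + ∑ f, (Gam e n0 A θ b c f * Gam e n0 A θ a f d - Gam e n0 A θ a c f * Gam e n0 A θ b f d)
    - ∑ f, C e n0 A θ a b f * Gam e n0 A θ f c d

/-- curvature tensor with `R a b a b` = sectional curvature -/
noncomputable def R (a b c d : Ix n) : 𝒜 := - K e n0 A θ a b c d

/-- Ricci tensor in the frame -/
noncomputable def Rc (a c : Ix n) : 𝒜 := ∑ b, R e n0 A θ a b c b

/-- the metric matrix -/
def g (θ : Ix n → Ix n → 𝒜) (i j : Ix n) : 𝒜 := ∑ a, θ i a * θ j a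

/-- the inverse metric -/
def gi (A : Ix n → Ix n → 𝒜) (i j : Ix n) : 𝒜 := ∑ a, A a i * A a j

/-- Christoffel symbols: `∇_{e_i} e_j = ∑_k KE i j k e_k` -/
noncomputable def KE (i j k : Ix n) : 𝒜 :=
  (1 / 2 : ℝ) • ∑ m, gi A k m * (e i (g θ j m) + e j (g θ i m) - e m (g θ i j))
    + (∑ m, gi A k m * n0 m) * g θ i j - n0 j * (if i = k then 1 else 0)

/-- curvature `R(e_i,e_j)e_k = ∑_l RE i j k l e_l` -/
noncomputable def RE (i j k l : Ix n) : 𝒜 :=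
  e i (KE e n0 A θ j k l) - e j (KE e n0 A θ i k l)
    + ∑ m, (KE e n0 A θ j k m * KE e n0 A θ i m l - KE e n0 A θ i k m * KE e n0 A θ j m l)
    - (n0 i * KE e n0 A θ j k l - n0 j * KE e n0 A θ i k l)

end FR

/-- hypotheses on a moving frame over a commutative algebra -/
structure FrameHyp {n : ℕ} {𝒜 : Type} [CommRing 𝒜] [Algebra ℝ 𝒜] (e : Ix n → Derivation ℝ 𝒜 𝒜) (n0 : Ix n → 𝒜)
    (A θ : Ix n → Ix n → 𝒜) : Prop where
  ee : ∀ i j f, e i (e j f) - e j (e i f) = n0 i * e j f - n0 j * e i f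
  en : ∀ i j, e i (n0 j) = (if i = j then 1 else 0) - n0 i * n0 j
  nn : ∑ i, n0 i ^ 2 = 1
  ne : ∀ f, ∑ i, n0 i * e i f = 0
  At : ∀ a b, ∑ i, A a i * θ i b = if a = b then 1 else 0
  tA : ∀ i j, ∑ a, θ i a * A a j = if i = j then 1 else 0
  nA : ∀ a, ∑ i, A a i * n0 i = ∑ i, θ i a * n0 i

/-- Basic algebra over `(0,T)`. -/
structure BA (n : ℕ) (T : ℝ) where
  Z : Type
  B : Type
  [topZ : TopologicalSpace Z]
  [cptZ : CompactSpace Z]
  [neZ : Nonempty Z]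
  [ringB : CommRing B]
  [algB : Algebra ℝ B]
  ev : Z → TI T → (B →ₐ[ℝ] ℝ)
  L : Ix n → Ix n → Derivation ℝ B B
  U : Ix n → Ix n → Derivation ℝ B B
  V : Ix n → Ix n → Derivation ℝ B B
  Dt : Derivation ℝ B B
  u : Ix n → Ix n → B
  n0 : Ix n → B
  tt : B

attribute [instance] BA.topZ BA.cptZ BA.neZ BA.ringB BA.algB

namespace BA

variable {n : ℕ} {T : ℝ} (P : BA n T)

/-- `e_i = ∑_j n0_j L_ji` -/
noncomputable def e (i : Ix n) : Derivation ℝ P.B P.B := ∑ j, P.n0 j • P.L j i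

/-- Kronecker symbol -/
def dl (a b : Ix n) : P.B := if a = b then 1 else 0

/-- value at `(z,r)` -/
noncomputable def val (z : P.Z) (f : P.B) (r : ℝ) : ℝ :=
  open Classical in if h : r ∈ Set.Ioo (0 : ℝ) T then P.ev z ⟨r, h⟩ f else 0

/-- constant coefficient field -/
def cf (c d : Ix n → Ix n → ℝ) (f : P.B) : P.B := ∑ i, ∑ j, (c i j • P.L i j f + d i j • P.U i j f)

/-- Axioms of the basic algebra. -/
structure Ax : Prop where
  ext : ∀ f g : P.B, (∀ z t, P.ev z t f = P.ev z t g) → f = g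
  cont : ∀ f : P.B, Continuous (fun p : P.Z × TI T => P.ev p.1 p.2 f)
  tt_ev : ∀ z t, P.ev z t P.tt = (t : ℝ)
  tt_D : P.Dt P.tt = 1
  tt_L : ∀ i j, P.L i j P.tt = 0
  tt_U : ∀ i j, P.U i j P.tt = 0
  tt_V : ∀ i j, P.V i j P.tt = 0
  time : ∀ (f : P.B) (z : P.Z) (t : TI T), HasDerivAt (P.val z f) (P.ev z t (P.Dt f)) t
  min : ∀ (f : P.B) (z : P.Z) (t : TI T), (∀ z', P.ev z t f ≤ P.ev z' t f) →
    ∀ c d : Ix n → Ix n → ℝ, P.ev z t (P.cf c d f) = 0 ∧ 0 ≤ P.ev z t (P.cf c d (P.cf c d f))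
  comp : ∀ (φ : ℝ → ℝ) (O : Set ℝ), IsOpen O → ContDiffOn ℝ ((⊤ : ℕ∞) : WithTop ℕ∞) φ O →
    ∀ f : P.B, (∀ z t, P.ev z t f ∈ O) → ∃ g : P.B, ∀ z t, P.ev z t g = φ (P.ev z t f)
  chain : ∀ (φ : ℝ → ℝ) (O : Set ℝ), IsOpen O → ContDiffOn ℝ ((⊤ : ℕ∞) : WithTop ℕ∞) φ O →
    ∀ f g : P.B, (∀ z t, P.ev z t f ∈ O) → (∀ z t, P.ev z t g = φ (P.ev z t f)) → ∀ z t,
      (∀ i j, P.ev z t (P.L i j g) = deriv φ (P.ev z t f) * P.ev z t (P.L i j f))
      ∧ (∀ i j, P.ev z t (P.U i j g) = deriv φ (P.ev z t f) * P.ev z t (P.U i j f))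
      ∧ (∀ i j, P.ev z t (P.V i j g) = deriv φ (P.ev z t f) * P.ev z t (P.V i j f))
      ∧ P.ev z t (P.Dt g) = deriv φ (P.ev z t f) * P.ev z t (P.Dt f)
  Lanti : ∀ i j f, P.L i j f = - P.L j i f
  Uanti : ∀ i j f, P.U i j f = - P.U j i f
  Vanti : ∀ i j f, P.V i j f = - P.V j i f
  LL : ∀ i j k l f, P.L i j (P.L k l f) - P.L k l (P.L i j f) =
    P.dl j k * P.L i l f - P.dl i k * P.L j l f - P.dl j l * P.L i k f + P.dl i l * P.L j k f
  VV : ∀ i j k l f, P.V i j (P.V k l f) - P.V k l (P.V i j f) =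
    P.dl j k * P.V i l f - P.dl i k * P.V j l f - P.dl j l * P.V i k f + P.dl i l * P.V j k f
  UU : ∀ i j k l f, P.U i j (P.U k l f) - P.U k l (P.U i j f) =
    - (P.dl j k * P.U i l f - P.dl i k * P.U j l f - P.dl j l * P.U i k f + P.dl i l * P.U j k f)
  LU : ∀ i j k l f, P.L i j (P.U k l f) = P.U k l (P.L i j f)
  LV : ∀ i j k l f, P.L i j (P.V k l f) = P.V k l (P.L i j f)
  UV : ∀ i j k l f, P.U i j (P.V k l f) = P.V k l (P.U i j f)
  DL : ∀ i j f, P.Dt (P.L i j f) = P.L i j (P.Dt f)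
  DU : ∀ i j f, P.Dt (P.U i j f) = P.U i j (P.Dt f)
  DV : ∀ i j f, P.Dt (P.V i j f) = P.V i j (P.Dt f)
  Vu : ∀ a b c d, P.V a b (P.u c d) = P.dl b c * P.u a d - P.dl a c * P.u b d
  Uu : ∀ c d b e, P.U c d (P.u b e) = P.dl c e * P.u b d - P.dl d e * P.u b c
  Lu : ∀ i j a b, P.L i j (P.u a b) = 0
  Du : ∀ a b, P.Dt (P.u a b) = 0
  Ln : ∀ i j k, P.L i j (P.n0 k) = P.dl j k * P.n0 i - P.dl i k * P.n0 j
  Un : ∀ i j k, P.U i j (P.n0 k) = 0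
  Vn : ∀ i j k, P.V i j (P.n0 k) = 0
  Dn : ∀ k, P.Dt (P.n0 k) = 0
  nn : ∑ i, P.n0 i ^ 2 = 1
  /-- `x_i ∂_j - x_j ∂_i` from `e_i` -/
  Le : ∀ i j f, P.L i j f = P.n0 i * P.e j f - P.n0 j * P.e i f
  uut : ∀ a b, ∑ c, P.u a c * P.u b c = P.dl a b
  utu : ∀ a b, ∑ c, P.u c a * P.u c b = P.dl a b
  /-- right fields in terms of left fields -/
  UeV : ∀ c d f, P.U c d f = ∑ a, ∑ b, P.u a c * P.u b d * P.V a b f

/-- functions of `(x,t)` -/
def XT (f : P.B) : Prop := (∀ k l, P.U k l f = 0) ∧ ∀ k l, P.V k l f = 0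

/-- the frame bundle data of a moving frame; `A a i` the frame, `θ` its inverse, `∂_t A = S0 A` -/
noncomputable def toFB (A θ S0 : Ix n → Ix n → P.B) : FB n T where
  Z := P.Z
  B := P.B
  ev := P.ev
  H a := ∑ b, P.u a b • (∑ i, A b i • P.e i
    + (1 / 2 : ℝ) • ∑ c, ∑ d, FR.Gam P.e P.n0 A θ b c d • P.U c d)
  V := P.V
  D := P.Dt
  R a b c d := ∑ i, ∑ j, ∑ k, ∑ l, P.u a i * P.u b j * P.u c k * P.u d l * FR.R P.e P.n0 A θ i j k l
  S a b := ∑ c, ∑ d, P.u a c * P.u b d * S0 c d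
  nu a := ∑ b, P.u a b * FR.nf P.n0 A b
  tt := P.tt

/-- `Y` of the bundle as an element of `P.B` -/
noncomputable def Yb (A θ S0 : Ix n → Ix n → P.B) (a c d : Ix n) : P.B := (P.toFB A θ S0).Y a c d

/-- `lam` of the bundle as an element of `P.B` -/
noncomputable def lamb (A θ S0 : Ix n → Ix n → P.B) : P.B := (P.toFB A θ S0).lam

/-- hypotheses on a moving frame in the basic algebra -/
structure FH (A θ S0 : Ix n → Ix n → P.B) : Prop where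
  XA : ∀ a i, P.XT (A a i)
  Xt : ∀ i a, P.XT (θ i a)
  XS : ∀ a b, P.XT (S0 a b)
  At : ∀ a b, ∑ i, A a i * θ i b = P.dl a b
  tA : ∀ i j, ∑ a, θ i a * A a j = P.dl i j
  nA : ∀ a, ∑ i, A a i * P.n0 i = ∑ i, θ i a * P.n0 i
  DA : ∀ a i, P.Dt (A a i) = ∑ b, S0 a b * A b i
  Ssy : ∀ a b, S0 a b = S0 b a
  nS : ∀ a, ∑ b, S0 a b * FR.nf P.n0 A b = 0

end BA

end Pool.Agent.Helper47.RFn
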