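import Pool.Agent.Helper47.RFn.Flb
import Pool.Agent.Helper47.RFn.GoalsC
import Pool.Agent.Helper73.RFn.JSn
import Pool.Agent.Helper73.RFn.GoodN

/-!
# Project RFn, goals E: the frame bundle of a flow, dictionary, behaviour at time 0

`JS` is `Pool.Agent.Helper47.RFn.JS` (file Mod.lean); `Pool.Agent.Helper73.RFn.JS` has the same two fields (convert by
`⟨h.cd, h.hom⟩`), and the packets JSR, JSM, FJS, HJS, FHM of `Pool/Agent/Helper73/RFn/JSn.lean` may be used as additional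
hypotheses in all packets below (`hJSR : Pool.Agent.Helper73.RFn.JsrStmt` etc.).  `x = M.pt z` is a unit vector.
-/

namespace Pool.Agent.Helper47.RFn

open Finset

/-- EM (0.8 h, E0, C1, C3).  Functions of `(x,t)` in the algebra.  `em`: `Mod.Ax.emb`.  Uniqueness: `ext`.  `L i j` of it at `z`: use `resL`
with `w = fr z`; `e_i = n_j L_ji` and `ed i = nn_j Lr j i` (C3).  `Dt`: `resD`.  `JS` of `ed i (v t)`: JSR. -/
def Goal_EM : Prop := ∀ (n : ℕ) (T : ℝ), 0 < T → ∀ M : Mod n T, M.Ax →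
  (∀ v : ℝ → EE n → ℝ, JS T v → M.XT (M.em v) ∧ ∀ z (t : TI T), M.ev z t (M.em v) = v t (M.pt z)) ∧
  (∀ (f : M.B) (v : ℝ → EE n → ℝ), JS T v → (∀ z (t : TI T), M.ev z t f = v t (M.pt z)) → f = M.em v) ∧
  (∀ v : ℝ → EE n → ℝ, JS T v → ∀ i, JS T (fun t => ed i (v t)) ∧ M.e i (M.em v) = M.em (fun t => ed i (v t)) ∧
    ∀ j, ∀ z (t : TI T), M.ev z t (M.L i j (M.em v)) = Lr i j (v t) (M.pt z)) ∧
  (∀ v v' : ℝ → EE n → ℝ, JS T v → (∀ t x, 0 < t → t < T → x ≠ 0 → HasDerivAt (fun r => v r x) (v' t x) t) →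
    ∀ z (t : TI T), M.ev z t (M.Dt (M.em v)) = v' t (M.pt z)) ∧
  (∀ v v' : ℝ → EE n → ℝ, JS T v → JS T v' →
    M.em (fun t x => v t x + v' t x) = M.em v + M.em v' ∧ M.em (fun t x => v t x * v' t x) = M.em v * M.em v') ∧
  (∀ i, M.em (fun _ => (nn i : EE n → ℝ)) = M.n0 i)

/-- LNK (0.8 h, EM, C1, C2).  The formulas of `FR` in the algebra are those of `FlowN`.  Unfold both; every intermediate
quantity is `em` of a `JS` family (JSR), and `M.e i (em v) = em (ed i v)`. -/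
def Goal_LNK : Prop := ∀ (n : ℕ) (T : ℝ), 0 < T → ∀ M : Mod n T, M.Ax → ∀ A θ : ℝ → MF n, MJ T A → MJ T θ →
  (∀ a, JS T (fun t => nfc (A t) a) ∧ FR.nf M.n0 (M.emM A) a = M.em (fun t => nfc (A t) a)) ∧
  (∀ a b c, JS T (fun t => Cc (A t) (θ t) a b c) ∧
    FR.C M.e M.n0 (M.emM A) (M.emM θ) a b c = M.em (fun t => Cc (A t) (θ t) a b c)) ∧
  (∀ a b c, JS T (fun t => Gamc (A t) (θ t) a b c) ∧
    FR.Gam M.e M.n0 (M.emM A) (M.emM θ) a b c = M.em (fun t => Gamc (A t) (θ t) a b c)) ∧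
  (∀ a b c d, JS T (fun t => Rf (A t) (θ t) a b c d) ∧
    FR.R M.e M.n0 (M.emM A) (M.emM θ) a b c d = M.em (fun t => Rf (A t) (θ t) a b c d)) ∧
  (∀ a b, JS T (fun t => Rcf (A t) (θ t) a b) ∧
    FR.Rc M.e M.n0 (M.emM A) (M.emM θ) a b = M.em (fun t => Rcf (A t) (θ t) a b)) ∧
  (∀ a v, JS T v → JS T (fun t => Fdc (A t) a (v t)) ∧
    FR.Fd M.e (M.emM A) a (M.em v) = M.em (fun t => Fdc (A t) a (v t)))

/-- FLB (1.2 h, EM, LNK, E0, FRA, PAIR, INSB, YOM, VIH, FRF).  The bundle of a flow.  `FH`: `XA, Xt, XS` from EM, LNK; `At, tA`: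
`inv`; `nA`: `FFlow.nA` divided by `|x| = 1`; `DA`: `flA` with the empty word gives the time derivative, EM; `Ssy`, `nS`: PAIR (with E0's
`FrameHyp`; to apply E0 one may first prove `FH` for `S0 = 0`-independent parts, or use PAIR with `FrameHyp` built by hand from
Ax and `inv`, `nA`).  `Full`, `IsRF`, `lam`, `e2`: YOM; gradient and Laplacian: VIH, LNK.  Families: `flA` is assumed on
`I ⊇ (0,T)`; at interior points `HasDerivWithinAt.hasDerivAt`. -/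
def Goal_FLB : Prop := ∀ (n : ℕ) (T : ℝ), 0 < T → ∀ M : Mod n T, M.Ax → ∀ (I : Set ℝ) (A θ : ℝ → MF n),
  Set.Ioo 0 T ⊆ I → FFlow I A θ → MJ T A → MJ T θ →
  M.FH (M.emM A) (M.emM θ) (FR.Rc M.e M.n0 (M.emM A) (M.emM θ)) ∧
  (M.flB A θ).Full ∧ (M.flB A θ).IsRF ∧
  (∀ (z : M.Z) (t : TI T), (M.flB A θ).ev z t (M.flB A θ).lam = lamf (A t) (θ t) (M.pt z) ∧
    (M.flB A θ).ev z t (M.flB A θ).e2 = e2f (A t) (θ t) (M.pt z) ∧
    (M.flB A θ).ev z t ((M.flB A θ).gg (M.flB A θ).lam (M.flB A θ).lam)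
      = ggf (A t) (lamf (A t) (θ t)) (lamf (A t) (θ t)) (M.pt z)) ∧
  (∀ (z : M.Z) (t : TI T) (a b c d : Ix n), (M.flB A θ).ev z t ((M.flB A θ).R a b c d)
    = ∑ i, ∑ j, ∑ k, ∑ l, M.fr z a i * M.fr z b j * M.fr z c k * M.fr z d l * Rf (A t) (θ t) i j k l (M.pt z)) ∧
  (∀ (z : M.Z) (t : TI T) (a : Ix n), (M.flB A θ).ev z t ((M.flB A θ).nu a) = ∑ b, M.fr z a b * nfc (A t) b (M.pt z)) ∧
  (∀ v w : ℝ → EE n → ℝ, JS T v → JS T w → (M.flB A θ).VI (M.em v) ∧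
    ∀ (z : M.Z) (t : TI T), (M.flB A θ).ev z t ((M.flB A θ).gg (M.em v) (M.em w)) = ggf (A t) (v t) (w t) (M.pt z) ∧
      (M.flB A θ).ev z t ((M.flB A θ).Lap (M.em v)) = Lapf (A t) (θ t) (v t) (M.pt z))

/-- ATO (1 h, EM, LNK, FLB, C1, C3).  Restriction to the frame `1`.  `at1`: `Mod.Ax.res` with `w = one ∈ OO n`, unique for `x ≠ 0` by
homogeneity and `surj`.  `ed`: `resL` and C3.  `U c d f = u_ac u_bd V_ab f` is `V c d f` at the frame `1`.  Last but one: `H_b` at the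
frame `1` is `F_b + ½ Γ_bcd U_cd` and `e_i = θ_ib F_b`.  Last: YOM at the frame `1`. -/
def Goal_ATO : Prop := ∀ (n : ℕ) (T : ℝ), 0 < T → ∀ M : Mod n T, M.Ax →
  (∀ f : M.B, JS T (M.at1 f) ∧ (∀ z (t : TI T), M.fr z = one → M.ev z t f = M.at1 f t (M.pt z)) ∧
    (∀ i t x, 0 < t → t < T → x ≠ 0 → M.at1 (M.e i f) t x = ed i (M.at1 f t) x) ∧
    (∀ t x, 0 < t → t < T → x ≠ 0 → HasDerivAt (fun r => M.at1 f r x) (M.at1 (M.Dt f) t x) t) ∧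
    (∀ c d t x, 0 < t → t < T → x ≠ 0 → M.at1 (M.U c d f) t x = M.at1 (M.V c d f) t x)) ∧
  (∀ f g : M.B, ∀ t x, 0 < t → t < T → x ≠ 0 → M.at1 (f * g) t x = M.at1 f t x * M.at1 g t x ∧
    M.at1 (f + g) t x = M.at1 f t x + M.at1 g t x) ∧
  (∀ (c : ℝ) (f : M.B), ∀ t x, 0 < t → t < T → x ≠ 0 → M.at1 (c • f) t x = c * M.at1 f t x) ∧
  (∀ v : ℝ → EE n → ℝ, JS T v → ∀ t x, 0 < t → t < T → x ≠ 0 → M.at1 (M.em v) t x = v t x) ∧
  (∀ (f : M.B) (K : ℝ), (∀ z (t : TI T), |M.ev z t f| ≤ K) → ∀ t x, 0 < t → t < T → x ≠ 0 → |M.at1 f t x| ≤ K) ∧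
  (∀ (I : Set ℝ) (A θ : ℝ → MF n), Set.Ioo 0 T ⊆ I → FFlow I A θ → MJ T A → MJ T θ →
    (∀ a b c d t x, 0 < t → t < T → x ≠ 0 → M.at1 ((M.flB A θ).R a b c d) t x = Rf (A t) (θ t) a b c d x) ∧
    (∀ a b t x, 0 < t → t < T → x ≠ 0 → M.at1 ((M.flB A θ).Ric a b) t x = Rcf (A t) (θ t) a b x) ∧
    (∀ (f : M.B) i t x, 0 < t → t < T → x ≠ 0 → ed i (M.at1 f t) x = ∑ b, θ t x i b *
      (M.at1 ((M.flB A θ).H b f) t x - 1 / 2 * ∑ c, ∑ d, Gamc (A t) (θ t) b c d x * M.at1 (M.V c d f) t x)) ∧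
    (∀ b c d t x, 0 < t → t < T → x ≠ 0 → HasDerivAt (fun r => Gamc (A r) (θ r) b c d x)
      (∑ f, Rcf (A t) (θ t) b f x * Gamc (A t) (θ t) f c d x + M.at1 ((M.flB A θ).Y b c d) t x) t))

/-- NRO (1.5 h, EM, LNK, FLB, C8).  Behaviour at `t = 0`.  Let `𝒦` be the subalgebra of `M.B` generated by the `u a b` and all `em v`
with `JS T v` and `SmFam (Ico 0 T) v`.  Every element of `𝒦` extends continuously to `Z × [0,T)` (`fr` continuous, `v` continuous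
on `[0,T) × {x ≠ 0}`, `pt` continuous): so it is `Bd0` (compactness).  `e i`, `U c d`, `V c d`, `L i j` map `𝒦` into itself
(`EM`, `Uu`, `Vu`, `Lu`).  The entries of `A, θ`, the `n0 i`, hence `C, Γ, R` of the frame, `R a b c d` of the bundle, are in `𝒦`, and the
`H a` preserve `𝒦`; `lam ∈ 𝒦`.  `Ini`: uniform continuity on `Z × [0,T/2]` and the value at `t = 0`.  `IniT`: `nfc (A t) a x` does
not depend on `t` (`∂_t nfc_a = Rcf_ab nfc_b = 0` by FRF); take `T0` = `Rf (A 0) (θ 0)` at `x = pt z` rotated by `fr z`, and for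
`Iso (nv z t) ι` the rotated back `(frᵀ ι)` is `Iso (nfc ..) `, so `PinF` applies and `pull ι T0 = pull (frᵀ ι) Rf`; closeness by uniform
continuity.  FHM, FRF may be used (`hFRF : Goal_FRF`). -/
def Goal_NRO : Prop := ∀ (n : ℕ) (T : ℝ), 0 < T → ∀ M : Mod n T, M.Ax → ∀ A θ : ℝ → MF n,
  FFlow (Set.Ico 0 T) A θ → MJ T A → MJ T θ →
  (∀ w a b c d, (M.flB A θ).Bd0 ((M.flB A θ).Hw w ((M.flB A θ).R a b c d))) ∧
  (∀ w, (M.flB A θ).Bd0 ((M.flB A θ).Hw w (M.flB A θ).lam)) ∧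
  (M.flB A θ).Bd0 ((M.flB A θ).gg (M.flB A θ).lam (M.flB A θ).lam) ∧
  (∀ l0 : ℝ, (∀ x, x ≠ 0 → l0 ≤ lamf (A 0) (θ 0) x) → (M.flB A θ).Ini (M.flB A θ).lam l0) ∧
  (∀ δ l0 : ℝ, (∀ x, x ≠ 0 → l0 ≤ lamf (A 0) (θ 0) x ∧ Pool.Agent.Helper73.RFn.PinF δ (A 0) (θ 0) x) →
    IniT (M.flB A θ) δ l0) ∧
  (∀ v : ℝ → EE n → ℝ, JS T v → SmFam (Set.Ico 0 T) v →
    (M.flB A θ).Bd0 (M.em v) ∧ (M.flB A θ).Bd0 ((M.flB A θ).Lap (M.em v)) ∧
    (∀ w, (M.flB A θ).Bd0 ((M.flB A θ).Hw w (M.em v))) ∧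
    (∀ c : ℝ, (∀ x, x ≠ 0 → ggf (A 0) (v 0) (v 0) x ≤ c) →
      (M.flB A θ).Ini (-(M.flB A θ).gg (M.em v) (M.em v)) (-c)) ∧
    (∀ c : ℝ, (∀ x, x ≠ 0 → c ≤ v 0 x) → (M.flB A θ).Ini (M.em v) c))

end Pool.Agent.Helper47.RFn
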