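import Mathlib

/-!
# Project RFn (MP_c98eff_gt, all n ≥ 4, pinching constants > 1/4): algebra of curvature operators

Conventions: curvature tensors `R : T4 n`, `R a b a b` = sectional curvature of the plane `e_a, e_b`
(positive on the sphere), `Id4` = curvature tensor of the unit sphere, `Ric R a c = ∑ b, R a b c b`,
`lam = scal / n`, `Ric0` = traceless part, `wdg A B` = Kulkarni–Nomizu type product with `wdg 1 1 = Id4`,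
`Q` = quadratic reaction term of the Ricci flow (`(∂_t - Δ) R = 2 Q(R)` in a moving frame),
`qf R z w = R(z, w, z̄, w̄)` for complex vectors, `C0` = nonnegative complex sectional curvature.
All identities below were checked numerically.  Every `Goal_X` is a packet, its docstring is the proof.
-/

namespace Pool.Agent.Helper47.RFn

open Finset

abbrev T4 (n : ℕ) := Fin n → Fin n → Fin n → Fin n → ℝ
abbrev M2 (n : ℕ) := Matrix (Fin n) (Fin n) ℝ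

/-- algebraic curvature tensors -/
structure IsCurv {n : ℕ} (R : T4 n) : Prop where
  a12 : ∀ a b c d, R a b c d = - R b a c d
  a34 : ∀ a b c d, R a b c d = - R a b d c
  pair : ∀ a b c d, R a b c d = R c d a b
  bian : ∀ a b c d, R a b c d + R b c a d + R c a b d = 0

/-- `B(R,S)_{abcd} = R_{aebf} S_{cedf}` -/
def BB {n : ℕ} (R S : T4 n) : T4 n := fun a b c d => ∑ e, ∑ f, R a e b f * S c e d f

/-- polarised reaction term, `QQ R R = Q R` -/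
noncomputable def QQ {n : ℕ} (R S : T4 n) : T4 n := fun a b c d =>
  (BB R S a b c d - BB R S a b d c + BB R S a c b d - BB R S a d b c
    + BB S R a b c d - BB S R a b d c + BB S R a c b d - BB S R a d b c) / 2

/-- reaction term of the Ricci flow -/
def Q {n : ℕ} (R : T4 n) : T4 n := fun a b c d =>
  BB R R a b c d - BB R R a b d c + BB R R a c b d - BB R R a d b c

/-- product of two symmetric matrices -/
noncomputable def wdg {n : ℕ} (A B : M2 n) : T4 n := fun a b c d =>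
  (A a c * B b d - A a d * B b c + B a c * A b d - B a d * A b c) / 2

/-- curvature tensor of the unit sphere -/
noncomputable def Id4 (n : ℕ) : T4 n := wdg 1 1

def Ric {n : ℕ} (R : T4 n) : M2 n := fun a c => ∑ b, R a b c b

/-- scalar curvature divided by `n` -/
noncomputable def lam {n : ℕ} (R : T4 n) : ℝ := (∑ a, Ric R a a) / n

noncomputable def Ric0 {n : ℕ} (R : T4 n) : M2 n := Ric R - lam R • (1 : M2 n)

/-- action on symmetric matrices -/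
def act {n : ℕ} (R : T4 n) (A : M2 n) : M2 n := fun a b => ∑ e, ∑ f, R a e b f * A e f

/-- `tr (Ric0²)/n` -/
noncomputable def sig {n : ℕ} (R : T4 n) : ℝ := (∑ a, ∑ b, Ric0 R a b ^ 2) / n

/-- Böhm–Wilking linear map `l_{a,b}` -/
noncomputable def ell {n : ℕ} (a b : ℝ) (R : T4 n) : T4 n :=
  R + (2 * a * lam R) • Id4 n + (2 * b) • wdg (Ric0 R) 1

/-- inverse of `ell a b` -/
noncomputable def elli {n : ℕ} (a b : ℝ) (R : T4 n) : T4 n :=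
  R - (2 * a / (1 + 2 * ((n : ℝ) - 1) * a) * lam R) • Id4 n
    - (2 * b / (1 + ((n : ℝ) - 2) * b)) • wdg (Ric0 R) 1

/-- `D_{a,b}(R) = l⁻¹(Q(l R)) - Q(R)` -/
noncomputable def Dab {n : ℕ} (a b : ℝ) (R : T4 n) : T4 n :=
  (((n : ℝ) - 2) * b ^ 2 - 2 * (a - b)) • wdg (Ric0 R) (Ric0 R) + (2 * a) • wdg (Ric R) (Ric R)
    + (2 * b ^ 2) • wdg (Ric0 R * Ric0 R) 1
    + (sig R / (1 + 2 * ((n : ℝ) - 1) * a) *
        ((n : ℝ) * b ^ 2 * (1 - 2 * b) - 2 * (a - b) * (1 - 2 * b + (n : ℝ) * b ^ 2))) • Id4 n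

/-- `R(z, w, z̄, w̄)` (it is real) -/
noncomputable def qf {n : ℕ} (R : T4 n) (z w : Fin n → ℂ) : ℝ :=
  (∑ a, ∑ b, ∑ c, ∑ d, (R a b c d : ℂ) * z a * w b * star (z c) * star (w d)).re

/-- quadratic form of a matrix -/
def rq {n : ℕ} (A : M2 n) (v : Fin n → ℝ) : ℝ := ∑ i, ∑ j, A i j * v i * v j

/-- squared norm -/
def nrm {n : ℕ} (v : Fin n → ℝ) : ℝ := ∑ i, v i ^ 2

/-- nonnegative complex sectional curvature -/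
def C0 {n : ℕ} (R : T4 n) : Prop := IsCurv R ∧ ∀ z w, 0 ≤ qf R z w

/-- `Ric ≥ p lam` -/
def RicGe {n : ℕ} (p : ℝ) (R : T4 n) : Prop := ∀ v, p * lam R * nrm v ≤ rq (Ric R) v

/-- the pinching cones -/
def Kc {n : ℕ} (a b p : ℝ) (R : T4 n) : Prop :=
  IsCurv R ∧ C0 (elli a b R) ∧ RicGe p (elli a b R)

/-- parameters for which the reaction term points strictly into the cone `Kc a b p` -/
structure Good (n : ℕ) (a b p c : ℝ) : Prop where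
  ha : 0 ≤ a
  hb : 0 ≤ b
  hp : 0 ≤ p
  hp1 : p < 1
  hc : 0 < c
  dq : ∀ S : T4 n, C0 S → RicGe p S → ∀ z w,
    c * lam S ^ 2 * qf (Id4 n) z w ≤ qf (Dab a b S) z w
  dr : ∀ S : T4 n, C0 S → RicGe p S → ∀ v, rq (Ric S) v = p * lam S * nrm v →
    c * lam S ^ 2 * nrm v ≤
      rq (Ric (Q S + Dab a b S)) v - p * lam (Q S + Dab a b S) * nrm v

noncomputable def aF (n : ℕ) (b : ℝ) : ℝ :=
  (((n : ℝ) - 2) * b ^ 2 + 2 * b) / (2 + 2 * ((n : ℝ) - 2) * b ^ 2)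

noncomputable def pF (n : ℕ) (b : ℝ) : ℝ :=
  ((n : ℝ) - 2) * b ^ 2 / (1 + ((n : ℝ) - 2) * b ^ 2)

noncomputable def p1 (n : ℕ) : ℝ := max (3 / 4) (((n : ℝ) - 2) / ((n : ℝ) + 2))

/-! ## Basic identities -/

/-- CL (0.8 h).  Closure.  `Q R`: for the Bianchi identity of `Q R` use `BB R R a b c d = BB R R b a d c =
BB R R c d a b` (pair symmetry of `R`); antisymmetry and pair symmetry also from these. -/
def Goal_CL : Prop :=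
  ∀ n : ℕ, (∀ R : T4 n, IsCurv R → IsCurv (Q R)) ∧
    (∀ A B : M2 n, A.IsSymm → B.IsSymm → IsCurv (wdg A B)) ∧
    IsCurv (Id4 n) ∧
    (∀ R S : T4 n, IsCurv R → IsCurv S → IsCurv (R + S)) ∧
    (∀ (c : ℝ) (R : T4 n), IsCurv R → IsCurv (c • R)) ∧
    (∀ R S : T4 n, IsCurv R → IsCurv S → IsCurv (R - S)) ∧
    (∀ R : T4 n, IsCurv R → (Ric R).IsSymm ∧ (Ric0 R).IsSymm) ∧
    (∀ (a b : ℝ) (R : T4 n), IsCurv R → IsCurv (ell a b R) ∧ IsCurv (elli a b R) ∧ IsCurv (Dab a b R)) ∧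
    (∀ (R : T4 n) (A : M2 n), IsCurv R → A.IsSymm → (act R A).IsSymm)

/-- LN (0.8 h).  Linearity and contractions (`n ≥ 1` where needed). -/
def Goal_LN : Prop :=
  ∀ n : ℕ, (∀ (R S : T4 n) z w, qf (R + S) z w = qf R z w + qf S z w) ∧
    (∀ (c : ℝ) (R : T4 n) z w, qf (c • R) z w = c * qf R z w) ∧
    (∀ (R S : T4 n), Ric (R + S) = Ric R + Ric S) ∧ (∀ (c : ℝ) (R : T4 n), Ric (c • R) = c • Ric R) ∧
    (∀ (R S : T4 n), lam (R + S) = lam R + lam S) ∧ (∀ (c : ℝ) (R : T4 n), lam (c • R) = c * lam R) ∧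
    (∀ A : M2 n, A.IsSymm → Ric (wdg A 1) = (((n : ℝ) - 2) / 2) • A + (A.trace / 2) • (1 : M2 n)) ∧
    (∀ A : M2 n, A.IsSymm → Ric (wdg A A) = A.trace • A - A * A) ∧
    Ric (Id4 n) = ((n : ℝ) - 1) • (1 : M2 n) ∧ (1 ≤ n → lam (Id4 n) = (n : ℝ) - 1) ∧
    (∀ R : T4 n, 1 ≤ n → (Ric0 R).trace = 0) ∧
    (∀ (A B : M2 n) (v : Fin n → ℝ), rq (A + B) v = rq A v + rq B v) ∧
    (∀ (c : ℝ) (A : M2 n) v, rq (c • A) v = c * rq A v) ∧ (∀ v : Fin n → ℝ, rq (1 : M2 n) v = nrm v)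

/-- LI (0.8 h).  `ell a b` and `elli a b` are inverse to each other (`a, b ≥ 0`, `n ≥ 2`), and
`lam (ell a b R) = (1 + 2(n-1)a) lam R`, `Ric0 (ell a b R) = (1 + (n-2) b) Ric0 R`. -/
def Goal_LI : Prop :=
  ∀ n : ℕ, 2 ≤ n → ∀ (a b : ℝ), 0 ≤ a → 0 ≤ b → ∀ R : T4 n,
    ell a b (elli a b R) = R ∧ elli a b (ell a b R) = R ∧
    lam (ell a b R) = (1 + 2 * ((n : ℝ) - 1) * a) * lam R ∧
    Ric0 (ell a b R) = (1 + ((n : ℝ) - 2) * b) • Ric0 R ∧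
    lam (elli a b R) = lam R / (1 + 2 * ((n : ℝ) - 1) * a) ∧
    Ric0 (elli a b R) = (1 / (1 + ((n : ℝ) - 2) * b)) • Ric0 R ∧
    (∀ S : T4 n, elli a b (R + S) = elli a b R + elli a b S) ∧
    (∀ c : ℝ, elli a b (c • R) = c • elli a b R) ∧
    elli a b (Id4 n) = (1 / (1 + 2 * ((n : ℝ) - 1) * a)) • Id4 n ∧
    elli a b (wdg (Ric (ell a b R)) 1) = wdg (Ric R) 1

/-- PK (1.2 h).  `2 Q(R, A ∧ id) = Ric ∧ A + R(A) ∧ id`.  Insert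
`BB R (wdg A 1) a b c d = (A_cd Ric_ab - ∑_f R_adbf A_cf + δ_cd R(A)_ab - ∑_e R_aebc A_ed)/2` and
`BB (wdg A 1) R a b c d = BB R (wdg A 1) c d a b`; the terms with one index of `R` contracted with `A`
cancel by the symmetries of `R` (Bianchi). -/
def Goal_PK : Prop :=
  ∀ (n : ℕ) (R : T4 n) (A : M2 n), IsCurv R → A.IsSymm →
    (2 : ℝ) • QQ R (wdg A 1) = wdg (Ric R) A + wdg (act R A) 1

/-- QB (0.6 h).  `Q` is the quadratic form of `QQ`; values on the identity; `Ric (Q R) = R(Ric)`. -/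
def Goal_QB : Prop :=
  ∀ (n : ℕ), (∀ R : T4 n, QQ R R = Q R) ∧
    (∀ R S : T4 n, Q (R + S) = Q R + Q S + (2 : ℝ) • QQ R S) ∧
    (∀ R S T : T4 n, QQ (R + S) T = QQ R T + QQ S T) ∧
    (∀ (c : ℝ) (R S : T4 n), QQ (c • R) S = c • QQ R S) ∧ (∀ R S : T4 n, QQ R S = QQ S R) ∧
    (∀ R : T4 n, IsCurv R → Ric (Q R) = act R (Ric R)) ∧
    (∀ R : T4 n, IsCurv R → 1 ≤ n → lam (Q R) = lam R ^ 2 + sig R)

/-- SH (0.6 h, PK, QB).  Adding a multiple of the identity: `2 Q(R, I) = 2 Ric ∧ id`, `Q(I) = (n-1) I`. -/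
def Goal_SH : Prop :=
  ∀ (n : ℕ) (R : T4 n) (y : ℝ), IsCurv R →
    Q (R + y • Id4 n) = Q R + (2 * y) • wdg (Ric R) 1 + (((n : ℝ) - 1) * y ^ 2) • Id4 n

/-- DF (1.5 h, PK, QB, SH, LN, LI).  The formula of Böhm–Wilking.  With `A = Ric0 R`, `λ = lam R`, `σ = sig R`:
`2Q(K(A),K(A)) = ((n-2)/2) A∧A - A²∧id + (nσ/2) I` (PK for `R = K(A) = wdg A 1`),
`Q(l R) = Q(R) + 4aλ Ric∧id + 2b(Ric∧A + R(A)∧id) + 4a²(n-1)λ² I + 4abλ(n-2) A∧id + b²(n-2) A∧A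
- 2b² A²∧id + b² nσ I`, `Ric(Q R) = λ Ric + R(A)`, `lam(Q R) = λ² + σ`, so the claim is
`D + 2a lam(D) I + 2b Ric0(D)∧id = [2aλ²(1+2(n-1)a) + σ(nb² - 2a + 2b)] I + 4aλ(1+(n-2)b) A∧id
+ (2b+(n-2)b²) A∧A - 2b² A²∧id`, which follows from `Ric(A∧A) = -A²`, `Ric(A²∧id) = ((n-2)A² + nσ id)/2`,
i.e. `Ric(D) = -2bA² + 2a(n-2)λA + [2a(n-1)λ² + nb²σ + (n-1)κ] id` (`κ` = coefficient of `I` in `D`) and
`κ(1+2(n-1)a) = σ[nb² - 2a + 2b + 4ab - 2anb² - 4b²]`. -/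
def Goal_DF : Prop :=
  ∀ (n : ℕ), 3 ≤ n → ∀ (a b : ℝ), 0 ≤ a → 0 ≤ b → ∀ R : T4 n, IsCurv R →
    Q (ell a b R) = ell a b (Q R + Dab a b R) ∧
    Ric (Dab a b R) = -(2 * b) • (Ric0 R * Ric0 R) + (2 * a * ((n : ℝ) - 2) * lam R) • Ric0 R +
      (2 * a * ((n : ℝ) - 1) * lam R ^ 2 + sig R * ((n : ℝ) ^ 2 * b ^ 2
        - 2 * ((n : ℝ) - 1) * (a - b) * (1 - 2 * b)) / (1 + 2 * ((n : ℝ) - 1) * a)) • (1 : M2 n)

/-! ## Invariance of nonnegative complex sectional curvature -/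

/-- SQ (0.8 h).  The square part.  By the Bianchi identity `BB R R a b c d - BB R R a b d c =
(1/2) ∑_{e,f} R_abef R_cdef`. -/
def Goal_SQ : Prop :=
  ∀ (n : ℕ) (R : T4 n), IsCurv R → ∀ a b c d,
    BB R R a b c d - BB R R a b d c = (1 / 2) * ∑ e, ∑ f, R a b e f * R c d e f

/-- SV (1.2 h).  Second variation (Ni–Wilking).  `F(τ) = qf R (z + τξ) (w + τη) ≥ 0` for all `τ ∈ ℂ` and
`F(0) = 0`.  The average of `F(ρ e^{iθ})` over `θ = 0, π/2, π, 3π/2` (or over the circle) is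
`ρ² H + ρ⁴ qf R ξ η`-type terms `+ O(ρ⁴)`, where `H` is the expression below: the terms with one `τ` and one
`τ̄`.  (With the four phases the terms `τ, τ̄, τ², τ̄², τ²τ̄, …` of odd or unbalanced degree up to 3 vanish;
the terms of degree 4 are `O(ρ⁴)`.)  Divide by `ρ²`, `ρ → 0`. -/
def Goal_SV : Prop :=
  ∀ (n : ℕ) (R : T4 n), C0 R → ∀ z w, qf R z w = 0 → ∀ ξ η : Fin n → ℂ,
    0 ≤ (∑ a, ∑ b, ∑ c, ∑ d, (R a b c d : ℂ) * (ξ a * w b * star (ξ c) * star (w d)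
      + z a * η b * star (z c) * star (η d) + 2 * (ξ a * w b * star (z c) * star (η d)))).re

/-- BT (1 h).  Trace inequality.  If the hermitian block matrix with blocks `S, T, T*, P` is positive
semidefinite, `𝓜_{αβ} = ∑_k u^k_α \bar{u^k_β}` with `u^k = (x^k, y^k)`; with `m_kl = x^k · y^l` (bilinear product)
`∑ P_ef S_ef = ∑ |m_kl|²`, `∑ T_ef \bar{T_fe} = ∑ m_kl \bar{m_lk}`, and `∑|m_kl|² - Re ∑ m_kl \bar{m_lk} =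
(1/2) ∑ |m_kl - m_lk|²`. -/
def Goal_BT : Prop :=
  ∀ (n : ℕ) (S T P : Matrix (Fin n) (Fin n) ℂ), (∀ e f, S f e = star (S e f)) →
    (∀ e f, P f e = star (P e f)) →
    (∀ ξ η : Fin n → ℂ, 0 ≤ (∑ e, ∑ f, (S e f * ξ e * star (ξ f) + P e f * η e * star (η f)
      + 2 * (T e f * ξ e * star (η f)))).re) →
    0 ≤ (∑ e, ∑ f, (P e f * S e f - T e f * star (T f e))).re

/-- WI (1 h, SQ, SV, BT).  `q_{Q(R)}(z,w) = (1/2) ∑_{ef} |∑_{ab} R_abef z_a w_b|² + Re ∑_{ef} (P_ef S_ef - T_ef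
\bar{T_fe})` with `S_ef = R(e,w,f,w̄)`, `P_ef = R(z,e,z̄,f)`, `T_ef = R(e,w,z̄,f)`: the first part is SQ, the second
is `BB_acbd - BB_adbc` with `R(z,e,w̄,f) = -\bar{T_fe}`, `R(w,e,z̄,f) = -T_ef`.  SV gives the hypothesis of BT. -/
def Goal_WI : Prop :=
  ∀ (n : ℕ) (R : T4 n), C0 R → ∀ z w, qf R z w = 0 → 0 ≤ qf (Q R) z w

/-! ## Consequences of `C0` -/

/-- CB (1 h).  `C0` controls the tensor.  For real orthonormal `u, v`: `0 ≤ R(u,v,u,v) ≤ n λ / 2` (complete to an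
orthonormal basis; `n λ = ∑_{i≠j} K_ij`), `Ric ≥ 0`, and polarisation as in BG: `|R_abac| ≤ nλ/4`, `|R_abcd| ≤ nλ/3` for different indices. -/
def Goal_CB : Prop :=
  ∀ (n : ℕ), 2 ≤ n → ∀ R : T4 n, C0 R → 0 ≤ lam R ∧ (∀ a b c d, |R a b c d| ≤ (n : ℝ) * lam R) ∧
    (∀ v, 0 ≤ rq (Ric R) v) ∧ (∀ v, rq (Ric R) v ≤ (n : ℝ) * lam R * nrm v) ∧
    (∀ u v : Fin n → ℝ, 0 ≤ ∑ a, ∑ b, ∑ c, ∑ d, R a b c d * u a * v b * u c * v d)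

/-- WQ (0.7 h).  For a symmetric matrix `A` with `m |v|² ≤ A(v,v) ≤ M |v|²`:
`m q_I ≤ q_{A∧id} ≤ M q_I`, and `q_I(z,w) = |z|²|w|² - |⟨z,w⟩|² ≥ 0`.  (`q_{A∧id}` is monotone in `A`:
for `A ≥ 0`, `q_{A∧id}(z,w) = (1/2)` (Gram-type expression) `= (1/2) ∑ A_ij (…)`; diagonalise `A` by the
spectral theorem: `q = ∑_{i<j} ((α_i + α_j)/2) |z_i w_j - z_j w_i|²` in the eigenbasis.) -/
def Goal_WQ : Prop :=
  ∀ (n : ℕ) (A : M2 n) (m M : ℝ), A.IsSymm → (∀ v, m * nrm v ≤ rq A v) → (∀ v, rq A v ≤ M * nrm v) →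
    ∀ z w, 0 ≤ qf (Id4 n) z w ∧ m * qf (Id4 n) z w ≤ qf (wdg A 1) z w ∧
      qf (wdg A 1) z w ≤ M * qf (Id4 n) z w

/-- DG (1.3 h).  Diagonalisation.  `A` symmetric.  If for any two orthonormal eigenvectors of `A` with eigenvalues
`x, y` the number `α x y + β (x + y)/2 + γ (x² + y²)/2 + δ ≥ c`, then
`q ≥ c q_I` for `α A∧A + β A∧id + γ A²∧id + δ I`.  In an orthonormal eigenbasis the tensor is diagonal on the
`e_i ∧ e_j`: `q = ∑_{i<j} d_ij |z_i w_j - z_j w_i|²`.  (Spectral theorem `Matrix.IsHermitian`.) -/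
def Goal_DG : Prop :=
  ∀ (n : ℕ) (A : M2 n) (α β γ δ c : ℝ), A.IsSymm →
    (∀ (u v : Fin n → ℝ) (x y : ℝ), nrm u = 1 → nrm v = 1 → ∑ i, u i * v i = 0 →
      A.mulVec u = x • u → A.mulVec v = y • v → c ≤ α * (x * y) + β * ((x + y) / 2) + γ * ((x ^ 2 + y ^ 2) / 2) + δ) →
    ∀ z w, c * qf (Id4 n) z w ≤
      qf (α • wdg A A + β • wdg A 1 + γ • wdg (A * A) 1 + δ • Id4 n) z w

/-- RB (1 h, QB).  `S ∈ C0`, `Ric ≥ p λ` with equality at `v`: `Ric(Q S)(v,v) ≥ p² λ² |v|²`.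
`Ric(Q S)(v,v) = ∑ S_{aebf} v_a v_b Ric_ef = tr(G Ric)` with the positive semidefinite matrix
`G_ef = ∑ S_{aebf} v_a v_b` (nonnegative sectional curvature), `tr G = Ric(v,v) = p λ |v|²`; `Ric - p λ ≥ 0`.
Also `sig S ≥ (1-p)² λ²/n` when such a `v ≠ 0` exists, since `v` is then an eigenvector of `Ric0` with eigenvalue
`-(1-p) λ`, and `Ric0 * Ric0` has the value `(1-p)² λ² |v|²` at `v`. -/
def Goal_RB : Prop :=
  ∀ (n : ℕ), 2 ≤ n → ∀ (p : ℝ) (S : T4 n), 0 ≤ p → p < 1 → C0 S → RicGe p S →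
    ∀ v, rq (Ric S) v = p * lam S * nrm v →
      p ^ 2 * lam S ^ 2 * nrm v ≤ rq (Ric (Q S)) v ∧
      (v ≠ 0 → (1 - p) ^ 2 * lam S ^ 2 / n ≤ sig S) ∧
      rq (Ric0 S) v = -((1 - p) * lam S) * nrm v ∧
      rq (Ric0 S * Ric0 S) v = (1 - p) ^ 2 * lam S ^ 2 * nrm v

/-! ## Good parameters -/

/-- EV (0.8 h).  Eigenvalues of `Ric0` under `RicGe p`: all `x ≥ -(1-p)λ`, and `sig ≤ (n-1)(1-p)² λ²`
(`∑ x_k = 0`, `x_k ≥ -η λ`: `∑ x_k² ≤ n(n-1) η² λ²`, a convex function on a simplex). -/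
def Goal_EV : Prop :=
  ∀ (n : ℕ), 2 ≤ n → ∀ (p : ℝ) (S : T4 n), IsCurv S → 0 ≤ p → p < 1 → 0 ≤ lam S → RicGe p S →
    sig S ≤ ((n : ℝ) - 1) * (1 - p) ^ 2 * lam S ^ 2 ∧
    ∀ (u : Fin n → ℝ) (x : ℝ), nrm u = 1 → (Ric0 S).mulVec u = x • u → -((1 - p) * lam S) ≤ x

/-- G1 (1.5 h, DG, RB, DF, EV, CB).  First family.  `μ = (n-2)b²`, `p = μ/(1+μ)`, `2(a-b) = μ(1-2b)/(1+μ)`.
dq: in an eigenbasis of `Ric0 S` with eigenvalues `λ x_i`, `x_i ≥ -1/(1+μ)`, the eigenvalue of `D` is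
`2a λ² [(1+μ)(x_i + 1/(1+μ))(x_j + 1/(1+μ)) + μ/(1+μ)] + b² λ² (x_i² + x_j²) + σ b²(1-2b)(2+2(n-2)b)/((1+μ)N)`
(`N = 1+2(n-1)a`), which is `≥ 2 a p λ²`; indeed `μ - 2(a-b) = 2aμ` and `nb²(1-2b) - 2(a-b)(1-2b+nb²) =
b²(1-2b)(2+2(n-2)b)/(1+μ)`.  dr: the bracket is `(1-p)λ²[-p - 2b(1-p) + 2a] + σ[(1-p)κ - p(1-2b)]` with
`κ = (n²b² - 2(n-1)(a-b)(1-2b))/N`; the first term is `0` and
`κ - μ(1-2b) = b²(n² - n(n-2)(1-2b))/N ≥ 2n b²/N`; use `σ ≥ (1-p)²λ²/n`.  Everything is bounded below by a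
positive constant for `b ∈ [b0, 1/2]`. -/
def Goal_G1 : Prop :=
  ∀ (n : ℕ), 4 ≤ n → ∀ b0 : ℝ, 0 < b0 → b0 ≤ 1 / 2 → ∃ c > 0, ∀ b, b0 ≤ b → b ≤ 1 / 2 →
    Good n (aF n b) b (pF n b) c

/-- G2 (1.2 h, DG, RB, DF, EV, CB).  Second family, `a = b = 1/2`, `η = 1 - p ≤ 4/(n+2)`.
dq: eigenvalue `λ²[1 + x_i + x_j + ((n+2)/4) x_i x_j + (x_i²+x_j²)/4] ≥ λ² (1 - 4/(n+2))` since
`((n+2)/4)(x_i + 4/(n+2))(x_j + 4/(n+2)) ≥ 0`.  dr: the bracket is `σ(1-p)κ`, `κ = n/4`. -/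
def Goal_G2 : Prop :=
  ∀ (n : ℕ), 4 ≤ n → ∃ c > 0, ∀ p, ((n : ℝ) - 2) / ((n : ℝ) + 2) ≤ p → p ≤ p1 n →
    Good n (1 / 2) (1 / 2) p c

/-- G3 (1.5 h, DG, RB, DF, EV, CB).  Third family, `b = 1/2`, `p = p1`, `η = 1 - p1 = min(1/4, 4/(n+2))`.
dq: eigenvalue `λ²{[1 + x_i + x_j + ((n+2)/4)x_i x_j + (x_i²+x_j²)/4] + (2a-1)[1 + x_i + x_j - n σ/(4 N λ²)]}`,
`N = 1+2(n-1)a ≥ n`, first bracket `≥ 1/3`, `σ ≤ (n-1)η²λ²` (EV), so the second bracket is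
`≥ 1 - 2η - (n-1)η²/4 ≥ 0`.  dr: bracket `(1-p)λ²(2a-1) + σ(1-p)n²/(4N)`, `σ ≥ (1-p)²λ²/n`. -/
def Goal_G3 : Prop :=
  ∀ (n : ℕ), 4 ≤ n → ∀ a1 : ℝ, 1 / 2 ≤ a1 → ∃ c > 0, ∀ a, 1 / 2 ≤ a → a ≤ a1 →
    Good n a (1 / 2) (p1 n) c

/-- one step of the stepping argument -/
def Step (n : ℕ) (ξ : ℝ) (θ θ' : ℝ × ℝ × ℝ) : Prop :=
  ∀ R : T4 n, Kc θ.1 θ.2.1 θ.2.2 R → ∀ β, ξ * lam R ≤ β → 0 ≤ β →
    Kc θ'.1 θ'.2.1 θ'.2.2 (R + β • Id4 n)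

/-- ST (1.5 h, LI, LN, WQ, CB).  Neighbouring parameters.  `S = elli a b R`, `S' = elli a' b' (R + β I)`:
`S' = S + (β/N') I - δ₁ lam(R) I - δ₂ (Ric0 R)∧id`, `|δ₁| ≤ 2|a'-a|`, `|δ₂| ≤ 2|b'-b|`, `N' = 1+2(n-1)a'`, and
`|Ric0 R| ≤ n² lam R` (as a quadratic form; `Ric0 R = (1+(n-2)b) Ric0 S`, `Ric S ≥ 0`), so `q_{S'} ≥ q_S +
(ξ/N' - 2δ - 2n²δ) lam(R) q_I ≥ 0`, and `Ric(S') - p' lam(S') ≥ (p - p') lam S + (1-p')(n-1)(ξ/N' - 2δ) lam R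
- n³ δ lam R ≥ 0` for small `δ`. -/
def Goal_ST : Prop :=
  ∀ (n : ℕ), 4 ≤ n → ∀ (Λ P ξ : ℝ), 0 < Λ → P < 1 → 0 < ξ → ∃ δ > 0, ∀ a b p a' b' p' : ℝ,
    0 ≤ a → a ≤ Λ → 0 ≤ a' → a' ≤ Λ → 0 ≤ b → b ≤ 1 / 2 → 0 ≤ b' → b' ≤ 1 / 2 →
    0 ≤ p → p ≤ P → 0 ≤ p' → p' ≤ P → |a' - a| ≤ δ → |b' - b| ≤ δ → |p' - p| ≤ δ →
    Step n ξ (a, b, p) (a', b', p')

/-- CH (1.2 h, G1, G2, G3, ST).  Finite chains.  The path `b ∈ [b0,1/2]` (first family), `p ∈ [(n-2)/(n+2), p1]`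
(second), `a ∈ [1/2, a1]` (third) is Lipschitz and all its parameters are `Good` with one constant `c`
(minimum of three); subdivide finely. -/
def Goal_CH : Prop :=
  ∀ (n : ℕ), 4 ≤ n → ∀ (b0 a1 : ℝ), 0 < b0 → b0 ≤ 1 / 2 → 1 / 2 ≤ a1 →
    ∃ c > 0, ∀ ξ > 0, ∃ (N : ℕ) (θ : ℕ → ℝ × ℝ × ℝ),
      θ 0 = (aF n b0, b0, pF n b0) ∧ θ N = (a1, 1 / 2, p1 n) ∧
      (∀ k ≤ N, Good n (θ k).1 (θ k).2.1 (θ k).2.2 c ∧ (θ k).1 ≤ a1 + 1 ∧ (θ k).2.1 ≤ 1 / 2) ∧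
      ∀ k < N, Step n ξ (θ k) (θ (k + 1))

/-! ## Start and end of the chain -/

/-- sectional curvature of an orthonormal pair -/
def K2 {n : ℕ} (R : T4 n) (u v : Fin n → ℝ) : ℝ :=
  ∑ a, ∑ b, ∑ c, ∑ d, R a b c d * u a * v b * u c * v d

/-- `K_min ≥ δ K_max`, `K > 0` -/
def Pinch {n : ℕ} (δ : ℝ) (R : T4 n) : Prop :=
  ∀ u v u' v' : Fin n → ℝ, nrm u = 1 → nrm v = 1 → ∑ i, u i * v i = 0 →
    nrm u' = 1 → nrm v' = 1 → ∑ i, u' i * v' i = 0 → 0 < K2 R u v ∧ δ * K2 R u' v' ≤ K2 R u v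

/-- BG (1.2 h).  Berger's inequality: if all sectional curvatures are in `[m, M]` then for orthonormal
`e1, e2, e3, e4`: `|R(e1,e2,e3,e4)| ≤ (2/3)(M - m)`.  Polarisation.  (1) For orthonormal `x, y, z`:
`R(x+z,y,x+z,y) - R(x-z,y,x-z,y) = 4 R(x,y,z,y)` and `|x ± z|² = 2`, so `|R(x,y,z,y)| ≤ (M-m)/2`.
(2) For orthonormal `x, y, z, w`: `R(x,y+w,z,y+w) - R(x,y-w,z,y-w) = 2 [R(x,y,z,w) + R(x,w,z,y)]`, by (1) for the unit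
vectors `(y ± w)/√2` the left side is at most `2 (M-m)` in absolute value; as `R(x,w,z,y) = -R(y,z,x,w)`:
`|R(x,y,z,w) - R(y,z,x,w)| ≤ M - m`; exchanging `x` and `y`: `|R(x,y,z,w) - R(z,x,y,w)| ≤ M - m`.  (3) By the Bianchi
identity `3 R(x,y,z,w) = [R(x,y,z,w) - R(y,z,x,w)] + [R(x,y,z,w) - R(z,x,y,w)]`. -/
def Goal_BG : Prop :=
  ∀ (n : ℕ) (R : T4 n) (m M : ℝ), IsCurv R →
    (∀ u v, nrm u = 1 → nrm v = 1 → ∑ i, u i * v i = 0 → m ≤ K2 R u v ∧ K2 R u v ≤ M) →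
    ∀ e : Fin 4 → Fin n → ℝ, (∀ i j, ∑ k, e i k * e j k = if i = j then 1 else 0) →
      |∑ a, ∑ b, ∑ c, ∑ d, R a b c d * e 0 a * e 1 b * e 2 c * e 3 d| ≤ 2 / 3 * (M - m)

/-- NF (1.5 h).  Normal form of complex planes, `n ≥ 4`.  Let `z, w` be linearly independent (`q_I ≠ 0`), `P` their
span.  Choose a unit `z' ∈ P` maximising `|z'·z'|` (bilinear product), rotate its phase so that `z'·z' ≥ 0`; let
`w' ∈ P` be a unit vector hermitian-orthogonal to `z'` with `w'·w' ≥ 0` after a phase; maximality gives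
`z'·w' = 0` (vary `z' cos t + e^{iφ} w' sin t`).  Real and imaginary parts `z' = x + iy`, `w' = u + iv` are
mutually orthogonal (`x·y = 0`, `u·v = 0` from the real products, the four others from `z'·w' = 0` and
`⟨z',w'⟩ = 0`), `|x| ≥ |y|`, `|u| ≥ |v|`.  So `z' = |x|(e1 + iλ e2)`, `w' = |u|(e3 + iμ e4)` with an orthonormal
4-frame (complete if `y = 0` or `v = 0`; `n ≥ 4`).  `z, w` are combinations of these with matrix `g`. -/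
def Goal_NF : Prop :=
  ∀ (n : ℕ), 4 ≤ n → ∀ z w : Fin n → ℂ, qf (Id4 n) z w ≠ 0 →
    ∃ (e : Fin 4 → Fin n → ℝ) (lm mu : ℝ) (α β γ δ : ℂ),
      (∀ i j, ∑ k, e i k * e j k = if i = j then 1 else 0) ∧ |lm| ≤ 1 ∧ |mu| ≤ 1 ∧
      (∀ k, z k = α * ((e 0 k : ℂ) + Complex.I * lm * e 1 k) + β * ((e 2 k : ℂ) + Complex.I * mu * e 3 k)) ∧
      (∀ k, w k = γ * ((e 0 k : ℂ) + Complex.I * lm * e 1 k) + δ * ((e 2 k : ℂ) + Complex.I * mu * e 3 k))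

/-- BS (1.5 h, BG, NF, CL, WQ).  Brendle–Schoen / Berger: strict quarter pinching gives positive complex sectional
curvature, quantitatively.  `q_R` and `q_I` are multiplied by `|αδ-βγ|²` under the change of basis of NF, so one
may take `z = e1 + iλ e2`, `w = e3 + iμ e4`: `q_R = R_1313 + λ²R_2323 + μ²R_1414 + λ²μ²R_2424 - 2λμ R_1234`
(Bianchi), `q_I = (1+λ²)(1+μ²) ≥ 4|λμ|`.  With `M = K_max`, `m = K_min ≥ δ M`: `q_R ≥ δM(1+λ²)(1+μ²) -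
2|λμ|(2/3)(1-δ)M ≥ ((4δ-1)/3) M q_I`, and `M ≥ lam R/(n-1)`. -/
def Goal_BS : Prop :=
  ∀ (n : ℕ), 4 ≤ n → ∀ (δ : ℝ) (R : T4 n), 1 / 4 < δ → δ ≤ 1 → IsCurv R → Pinch δ R → 0 < lam R ∧
    (∀ v, δ * lam R * nrm v ≤ rq (Ric R) v) ∧
    ∀ z w, (4 * δ - 1) / (3 * ((n : ℝ) - 1)) * lam R * qf (Id4 n) z w ≤ qf R z w

/-- SA (1.2 h, BS, LI, LN, WQ).  Start: for `b0` small, `R` is inside `Kc (aF b0) b0 (pF b0)` with a margin.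
`elli` is close to the identity for small `a, b` (`aF b0 ≤ 2 b0`), `|Ric0 R| ≤ n² lam R`. -/
def Goal_SA : Prop :=
  ∀ (n : ℕ), 4 ≤ n → ∀ δ : ℝ, 1 / 4 < δ → δ ≤ 1 → ∃ b0 > 0, b0 ≤ 1 / 2 ∧ ∃ c > 0, ∀ R : T4 n,
    IsCurv R → Pinch δ R → 0 < lam R ∧
      (∀ z w, c * lam R * qf (Id4 n) z w ≤ qf (elli (aF n b0) b0 R) z w) ∧
      ∀ v, (pF n b0 * lam (elli (aF n b0) b0 R) + c * lam R) * nrm v ≤ rq (Ric (elli (aF n b0) b0 R)) v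

/-- EN (0.8 h, CB, LI).  End: for large `a1` the cone `Kc a1 (1/2) p1` is close to the constant curvature tensors:
`R = S + 2 a1 lam(S) I + (Ric0 S)∧id`, `|S_abcd| ≤ n lam S`, `lam S = lam R/(1+2(n-1)a1)`. -/
def Goal_EN : Prop :=
  ∀ (n : ℕ), 4 ≤ n → ∀ ε > 0, ∃ a1 : ℝ, 1 / 2 ≤ a1 ∧ ∀ R : T4 n, Kc a1 (1 / 2) (p1 n) R →
    0 ≤ lam R ∧ ∀ a b c d, |R a b c d - lam R / ((n : ℝ) - 1) * Id4 n a b c d| ≤ ε * lam R

/-- BD (0.7 h, CB, LI).  The cones consist of tensors controlled by the scalar curvature. -/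
def Goal_BD : Prop :=
  ∀ (n : ℕ), 4 ≤ n → ∃ C > 0, ∀ (a b p : ℝ) (R : T4 n), 0 ≤ a → 0 ≤ b → b ≤ 1 / 2 → Kc a b p R →
    0 ≤ lam R ∧ ∀ i j k l, |R i j k l| ≤ C * lam R

/-- PU (0.8 h, WI, WQ, CB, LN).  The boundary inequalities used in the maximum principle for `R + β I ∈ Kc a b p`,
`β = B/t`.  `q_{Ric∧id} ≤ n λ q_I` (CB, WQ); `Ric(Ric∧id)(v,v) - p lam(Ric∧id)|v|² = (n/2)λ(1-p)|v|²` at a `v` with
`Ric(v,v) = pλ|v|²`. -/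
def Goal_PU : Prop :=
  ∀ (n : ℕ), 4 ≤ n → ∀ (a b p c β B : ℝ) (S : T4 n), Good n a b p c → C0 S → RicGe p S → 0 < lam S →
    0 ≤ β → 1 ≤ B → 2 * n * β < c * lam S →
    (∀ z w, qf S z w = 0 → 0 < qf (Id4 n) z w →
      0 < 2 * qf (Q S + Dab a b S) z w - 4 * β * qf (wdg (Ric S) 1) z w
        + (2 * ((n : ℝ) - 1) - 1 / B) * β ^ 2 / (1 + 2 * ((n : ℝ) - 1) * a) * qf (Id4 n) z w) ∧
    ∀ v, v ≠ 0 → rq (Ric S) v = p * lam S * nrm v →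
      0 < 2 * (rq (Ric (Q S + Dab a b S)) v - p * lam (Q S + Dab a b S) * nrm v)
        - 4 * β * (rq (Ric (wdg (Ric S) 1)) v - p * lam (wdg (Ric S) 1) * nrm v)
        + (2 * ((n : ℝ) - 1) - 1 / B) * β ^ 2 / (1 + 2 * ((n : ℝ) - 1) * a) * ((n : ℝ) - 1) * (1 - p) * nrm v

/-- NR (1.2 h, QB, PK, SH).  Reaction term near constant curvature.  `E = R - κ I`, `κ = lam R/(n-1)`, so
`lam E = 0`; `⟨E, Q(R)⟩ = ⟨E, Q(E)⟩ + 2κ⟨E, Ric(E)∧id⟩`, `⟨E, A∧id⟩ = 2⟨Ric E, A⟩`,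
`|Ric E|² ≤ ((n-2)/4)|E|²` (Cauchy–Schwarz with `E` and `Ric(E)∧id`, `|A∧id|² = (n-2)|A|²` for traceless `A`),
`|⟨E, Q(E)⟩| ≤ C_n |E|³`; and `lam (Q R) = lam² + |Ric E|²/n`. -/
def Goal_NR : Prop :=
  ∀ (n : ℕ), 4 ≤ n → ∃ C > 0, ∀ (R E : T4 n), IsCurv R → 0 ≤ lam R →
    E = R - (lam R / ((n : ℝ) - 1)) • Id4 n →
    (∑ a, ∑ b, ∑ c, ∑ d, E a b c d * Q R a b c d) ≤
      ((n : ℝ) - 2) / ((n : ℝ) - 1) * lam R * (∑ a, ∑ b, ∑ c, ∑ d, E a b c d ^ 2)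
        + C * (∑ a, ∑ b, ∑ c, ∑ d, E a b c d ^ 2) * Real.sqrt (∑ a, ∑ b, ∑ c, ∑ d, E a b c d ^ 2) ∧
    lam R ^ 2 ≤ lam (Q R) ∧
    lam (Q R) ≤ lam R ^ 2 + C * (∑ a, ∑ b, ∑ c, ∑ d, E a b c d ^ 2)

end Pool.Agent.Helper47.RFn
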