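import Pool.Agent.Helper11.RFn.PK
import Pool.Agent.Helper13.RFn.BS
import Pool.Agent.Helper13.RFn.P2
import Pool.Agent.Helper13.RFn.STP
import Pool.Agent.Helper14.RFn.BDD
import Pool.Agent.Helper14.RFn.MP1
import Pool.Agent.Helper14.RFn.MP3
import Pool.Agent.Helper16.RFn.ALG1
import Pool.Agent.Helper16.RFn.DG
import Pool.Agent.Helper19.RFn.G3
import Pool.Agent.Helper2.RFn.DF
import Pool.Agent.Helper2.RFn.INV
import Pool.Agent.Helper23.RFn.NR
import Pool.Agent.Helper31.RFn.LI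
import Pool.Agent.Helper31.RFn.MA1
import Pool.Agent.Helper31.RFn.NUK
import Pool.Agent.Helper31.RFn.RP4
import Pool.Agent.Helper32.RFn.G2
import Pool.Agent.Helper32.RFn.LCR
import Pool.Agent.Helper34.RFn.HEA
import Pool.Agent.Helper34.RFn.SMA
import Pool.Agent.Helper34.RFn.VIN
import Pool.Agent.Helper38.RFn.BG
import Pool.Agent.Helper38.RFn.C9
import Pool.Agent.Helper39.RFn.INSA
import Pool.Agent.Helper40.RFn.MA5
import Pool.Agent.Helper40.RFn.P3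
import Pool.Agent.Helper42.RFn.GEO
import Pool.Agent.Helper49.RFn.BD
import Pool.Agent.Helper49.RFn.EN
import Pool.Agent.Helper5.RFn.CA
import Pool.Agent.Helper50.RFn.EVS
import Pool.Agent.Helper51.RFn.BT
import Pool.Agent.Helper51.RFn.EVM
import Pool.Agent.Helper51.RFn.NRB
import Pool.Agent.Helper51.RFn.RP1
import Pool.Agent.Helper51.RFn.RP3
import Pool.Agent.Helper56.RFn.C6
import Pool.Agent.Helper56.RFn.C7
import Pool.Agent.Helper56.RFn.PRD
import Pool.Agent.Helper59.RFn.BOC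
import Pool.Agent.Helper59.RFn.CBB
import Pool.Agent.Helper59.RFn.SV
import Pool.Agent.Helper60.RFn.BIA
import Pool.Agent.Helper61.RFn.ALG0
import Pool.Agent.Helper61.RFn.ALG2
import Pool.Agent.Helper61.RFn.E0
import Pool.Agent.Helper61.RFn.FRA
import Pool.Agent.Helper61.RFn.RIC
import Pool.Agent.Helper62.RFn.ST
import Pool.Agent.Helper65.RFn.C4
import Pool.Agent.Helper65.RFn.QB
import Pool.Agent.Helper65.RFn.RP2
import Pool.Agent.Helper65.RFn.S3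
import Pool.Agent.Helper67.RFn.G1
import Pool.Agent.Helper67.RFn.MA3
import Pool.Agent.Helper69.RFn.C3
import Pool.Agent.Helper69.RFn.CL
import Pool.Agent.Helper69.RFn.WQ
import Pool.Agent.Helper7.RFn.C11
import Pool.Agent.Helper7.RFn.NRD
import Pool.Agent.Helper70.RFn.EVK
import Pool.Agent.Helper70.RFn.INSB
import Pool.Agent.Helper70.RFn.WI
import Pool.Agent.Helper71.RFn.EV
import Pool.Agent.Helper79.RFn.SA
import Pool.Agent.Helper8.RFn.C2
import Pool.Agent.Helper8.RFn.MA4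
import Pool.Agent.Helper80.RFn.CB
import Pool.Agent.Helper80.RFn.RB
import Pool.Agent.Helper81.RFn.NAT
import Pool.Agent.Helper81.RFn.VIH
import Pool.Agent.Helper87.RFn.MA2
import Pool.Agent.Helper89.RFn.SH
import Pool.Agent.Helper9.RFn.C8
import Pool.Agent.Helper9.RFn.CH
import Pool.Agent.Helper90.RFn.C1
import Pool.Agent.Helper90.RFn.LN
import Pool.Agent.Helper90.RFn.S2
import Pool.Agent.Helper93.RFn.PRS
import Pool.Agent.Helper93.RFn.SQ
import Pool.Agent.Helper97.RFn.NF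
import Pool.Agent.Helper99.RFn.PU

/-!
# Project RFn: assembly of the packets
-/

namespace Pool.Agent.Helper47.RFn.Asm

open Pool.Agent.Helper47.RFn

theorem cCL : Goal_CL := Pool.Agent.Helper47.RFn.goal_CL

theorem cLN : Goal_LN := Pool.Agent.Helper90.RFn.goal_LN

theorem cLI : Goal_LI := Pool.Agent.Helper47.RFn.goal_LI cLN

theorem cPK : Goal_PK := Pool.Agent.Helper47.RFn.goal_PK cCL

theorem cQB : Goal_QB := Pool.Agent.Helper65.RFn.goal_QB

theorem cSH : Goal_SH := Pool.Agent.Helper47.RFn.goal_SH cPK cQB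

theorem cDF : Goal_DF := Pool.Agent.Helper47.RFn.goal_DF cPK cQB cSH cLN cLI

theorem cSQ : Goal_SQ := Pool.Agent.Helper47.RFn.goal_SQ

theorem cSV : Goal_SV := Pool.Agent.Helper47.RFn.goal_SV

theorem cBT : Goal_BT := Pool.Agent.Helper47.RFn.goal_BT

theorem cWI : Goal_WI := Pool.Agent.Helper47.RFn.goal_WI cSQ cSV cBT

theorem cCB : Goal_CB := Pool.Agent.Helper47.RFn.goal_CB

theorem cWQ : Goal_WQ := Pool.Agent.Helper47.RFn.goal_WQ

theorem cDG : Goal_DG := Pool.Agent.Helper47.RFn.goal_DG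

theorem cRB : Goal_RB := Pool.Agent.Helper47.RFn.goal_RB cQB

theorem cEV : Goal_EV := Pool.Agent.Helper71.RFn.goal_EV

theorem cG1 : Goal_G1 := Pool.Agent.Helper47.RFn.goal_G1 cDG cRB cDF cEV cCB cQB cWQ cLN cCL

theorem cG2 : Goal_G2 := Pool.Agent.Helper47.RFn.goal_G2 cDG cRB cDF cEV cCB cQB cWQ cLN cCL

theorem cG3 : Goal_G3 := Pool.Agent.Helper47.RFn.goal_G3 cDG cRB cDF cEV cCB cQB cWQ cLN cCL

theorem cST : Goal_ST := Pool.Agent.Helper47.RFn.goal_ST cLI cLN cWQ cCB cCL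

theorem cCH : Goal_CH := Pool.Agent.Helper9.RFn.goal_CH cG1 cG2 cG3 cST cWQ

theorem cBG : Goal_BG := Pool.Agent.Helper47.RFn.goal_BG

theorem cNF : Goal_NF := Pool.Agent.Helper97.RFn.goal_NF

theorem cBS : Goal_BS := Pool.Agent.Helper47.RFn.goal_BS cBG cNF cCL cWQ

theorem cSA : Goal_SA := Pool.Agent.Helper47.RFn.goal_SA cBS cLI cLN cWQ cCL

theorem cEN : Goal_EN := Pool.Agent.Helper47.RFn.goal_EN cCB cLI cLN

theorem cBD : Goal_BD := Pool.Agent.Helper47.RFn.goal_BD cCB cLI cLN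

theorem cPU : Goal_PU := Pool.Agent.Helper47.RFn.goal_PU cWI cWQ cCB cLN cCL

theorem cNR : Goal_NR := Pool.Agent.Helper47.RFn.goal_NR cQB cPK cSH cLN cCL

theorem cRP1 : Goal_RP1 := Pool.Agent.Helper47.RFn.goal_RP1

theorem cRP2 : Goal_RP2 := Pool.Agent.Helper65.RFn.goal_RP2 cRP1

theorem cRP3 : Goal_RP3 := Pool.Agent.Helper47.RFn.goal_RP3

theorem cRP4 : Goal_RP4 := Pool.Agent.Helper47.RFn.goal_RP4

theorem cALG0 : Goal_ALG0 := Pool.Agent.Helper47.RFn.goal_ALG0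

theorem cALG1 : Goal_ALG1 := Pool.Agent.Helper47.RFn.goal_ALG1 cALG0

theorem cALG2 : Goal_ALG2 := Pool.Agent.Helper47.RFn.goal_ALG2 cALG0 cALG1

theorem cPRD : Goal_PRD := Pool.Agent.Helper47.RFn.goal_PRD

theorem cRIC : Goal_RIC := Pool.Agent.Helper47.RFn.goal_RIC cQB

theorem cEVM : Goal_EVM := Pool.Agent.Helper47.RFn.goal_EVM cRIC

theorem cVIN : Goal_VIN := Pool.Agent.Helper47.RFn.goal_VIN cRIC cPRD

theorem cBOC : Goal_BOC := Pool.Agent.Helper47.RFn.goal_BOC cVIN cRIC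

theorem cEVS : Goal_EVS := Pool.Agent.Helper47.RFn.goal_EVS cEVM cPRD cVIN cBOC

theorem cBIA : Goal_BIA := Pool.Agent.Helper47.RFn.goal_BIA cRIC cPRD

theorem cNRB : Goal_NRB := Pool.Agent.Helper47.RFn.goal_NRB cNR cQB cRP1 cRP2 cRP3 cEVS cRIC cPRD

theorem cEVK : Goal_EVK := Pool.Agent.Helper47.RFn.goal_EVK cRP2 cRP3 cRIC cPRD cEVM cEVS cSH cDF cLI cLN cCL cQB

theorem cMP3 : Goal_MP3 := Pool.Agent.Helper14.RFn.goal_MP3

theorem cMP1 : Goal_MP1 := Pool.Agent.Helper14.RFn.goal_MP1 cMP3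

theorem cBDD : Goal_BDD := Pool.Agent.Helper14.RFn.goal_BDD

theorem cINV : Goal_INV := Pool.Agent.Helper47.RFn.goal_INV cMP3 cEVK cPU cRP1 cRP2 cRP3 cRP4 cLI cLN cCL cWQ cRIC cPRD

theorem cPRS : Goal_PRS := Pool.Agent.Helper47.RFn.goal_PRS cINV cMP1 cSA cG1 cBD cRP1 cRP2 cRP3 cRP4 cLI cLN cCL cEVS cRIC

theorem cSTP : Goal_STP := Pool.Agent.Helper47.RFn.goal_STP cINV cRP1 cRP2 cRP3 cRP4 cLI cLN cCL cCB cRIC

theorem cNRD : Goal_NRD := Pool.Agent.Helper47.RFn.goal_NRD cPRS cSTP cCH cEN cRP1 cRP2 cRP3 cLI cLN cWQ cCL cRIC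

theorem cP2 : Goal_P2 := Pool.Agent.Helper47.RFn.goal_P2 cMP3 cNRB cBIA cPRD cBDD

theorem cP3 : Goal_P3 := Pool.Agent.Helper40.RFn.goal_P3 cMP3 cNRB cEVS cBIA cPRD cBDD

theorem cS2 : Goal_S2 := Pool.Agent.Helper90.RFn.goal_S2 cMP1 cBDD cNRB cBIA cEVS cPRD

theorem cS3 : Goal_S3 := Pool.Agent.Helper65.RFn.goal_S3 cMP3 cBDD cNRB cPRD

theorem cHEA : Goal_HEA := Pool.Agent.Helper47.RFn.goal_HEA cMP1 cEVS cBIA cPRD cVIN cBDD

theorem cCA : Goal_CA := Pool.Agent.Helper5.RFn.goal_CA cEVM cRIC cPRD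

theorem cCBB : Goal_CBB := Pool.Agent.Helper47.RFn.goal_CBB cCA cMP1 cBDD cPRD

theorem cC1 : Goal_C1 := Pool.Agent.Helper90.RFn.goal_C1

theorem cC2 : Goal_C2 := Pool.Agent.Helper47.RFn.goal_C2 cC1

theorem cC3 : Goal_C3 := Pool.Agent.Helper47.RFn.goal_C3 cC1 cC2

theorem cC4 : Goal_C4 := Pool.Agent.Helper65.RFn.goal_C4 cC1 cC2 cC3

theorem cC6 : Goal_C6 := Pool.Agent.Helper47.RFn.goal_C6 cC1

theorem cC7 : Goal_C7 := Pool.Agent.Helper47.RFn.goal_C7 cC1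

theorem cC8 : Goal_C8 := Pool.Agent.Helper9.RFn.C8.goal_C8 cC1 cC2

theorem cC9 : Goal_C9 := Pool.Agent.Helper47.RFn.goal_C9 cC1 cC2 cC8

theorem cC11 : Goal_C11 := Pool.Agent.Helper47.RFn.goal_C11 cC1 cC2

theorem cE0 : Goal_E0 := Pool.Agent.Helper47.RFn.goal_E0

theorem cFRA : Goal_FRA := Pool.Agent.Helper47.RFn.goal_FRA

theorem cNUK : Goal_NUK := Pool.Agent.Helper47.RFn.goal_NUK cFRA

theorem cLCR : Goal_LCR := Pool.Agent.Helper47.RFn.goal_LCR cFRA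

theorem cGEO : Goal_GEO := Pool.Agent.Helper47.RFn.goal_GEO cFRA cLCR

theorem cNAT : Goal_NAT := Pool.Agent.Helper81.RFn.goal_NAT

theorem cINSB : Goal_INSB := Pool.Agent.Helper47.RFn.goal_INSB cE0 cFRA

theorem cINSA : Goal_INSA := Pool.Agent.Helper47.RFn.goal_INSA cE0 cFRA cINSB

theorem cVIH : Goal_VIH := Pool.Agent.Helper81.RFn.goal_VIH cE0 cFRA cINSB

theorem cSMA : Goal_SMA := Pool.Agent.Helper47.RFn.goal_SMA cC1 cC2 cC3

theorem cMA1 : Goal_MA1 := Pool.Agent.Helper47.RFn.goal_MA1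

theorem cMA2 : Goal_MA2 := Pool.Agent.Helper47.RFn.goal_MA2 cMA1

theorem cMA3 : Goal_MA3 := Pool.Agent.Helper47.RFn.goal_MA3 cMA2

theorem cMA4 : Goal_MA4 := Pool.Agent.Helper47.RFn.goal_MA4 cMA1 cMA2

theorem cMA5 : Goal_MA5 := Pool.Agent.Helper47.RFn.goal_MA5 cMA2

end Pool.Agent.Helper47.RFn.Asm
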