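import Mathlib

/-!
# Project RFn (MP_c98eff_gt, general dimension): core definitions

`Sⁿ` = unit sphere of `ℝ^{n+1}`.  A function on `Sⁿ` is a `0`-homogeneous function on `ℝ^{n+1} \ {0}`.
A Riemannian metric `g` on `Sⁿ` is given by the matrix field `G` with `g_x(u,v) = uᵀ G(x) v` for `u, v ⊥ x`, `|x| = 1`,
extended by `G(x) x = x` and `0`-homogeneity; `cyl G = G/|x|²` is then the product metric `dr²/r² + g` on
`ℝ^{n+1} \ {0} = ℝ × Sⁿ` in cartesian coordinates, and the sectional curvatures of `g` at `x` are those of `cyl G` on the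
planes orthogonal to `x`.
-/

namespace Pool.Agent.Helper47.RFn

open Finset

/-- `ℝ^{n+1}` -/
abbrev EE (n : ℕ) := EuclideanSpace ℝ (Fin (n + 1))

/-- partial derivative -/
noncomputable def pd {n : ℕ} (i : Fin (n + 1)) (f : EE n → ℝ) (x : EE n) : ℝ :=
  fderiv ℝ f x (EuclideanSpace.single i 1)

/-- the field `|x| ∂_i`, which preserves `0`-homogeneous functions -/
noncomputable def ed {n : ℕ} (i : Fin (n + 1)) (f : EE n → ℝ) (x : EE n) : ℝ := ‖x‖ * pd i f x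

/-- infinitesimal rotation `x_i ∂_j - x_j ∂_i` -/
noncomputable def Lr {n : ℕ} (i j : Fin (n + 1)) (f : EE n → ℝ) (x : EE n) : ℝ := x i * pd j f x - x j * pd i f x

/-- radial unit vector -/
noncomputable def nn {n : ℕ} (i : Fin (n + 1)) (x : EE n) : ℝ := x i / ‖x‖

/-- iterated derivative along a word: `Ew [i, j] f = ed i (ed j f)` -/
noncomputable def Ew {n : ℕ} : List (Fin (n + 1)) → (EE n → ℝ) → EE n → ℝ
  | [], f => f
  | i :: w, f => ed i (Ew w f)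

/-- `0`-homogeneous -/
def Hom0 {n : ℕ} (f : EE n → ℝ) : Prop := ∀ (r : ℝ) (x : EE n), 0 < r → f (r • x) = f x

/-- smooth function on `Sⁿ` -/
structure Sm {n : ℕ} (f : EE n → ℝ) : Prop where
  cd : ContDiffOn ℝ ((⊤ : ℕ∞) : WithTop ℕ∞) f {0}ᶜ
  hom : Hom0 f

/-- fields of matrices -/
abbrev MF (n : ℕ) := EE n → Matrix (Fin (n + 1)) (Fin (n + 1)) ℝ

/-- smooth Riemannian metric on `Sⁿ` -/
structure IsMetric {n : ℕ} (G : MF n) : Prop where
  sm : ∀ i j, Sm (fun x => G x i j)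
  pos : ∀ x, (G x).PosDef
  rad : ∀ x i, ∑ j, G x i j * x j = x i

/-- the metric `g + dr²/r²` in cartesian coordinates of `ℝ^{n+1} \ {0}` -/
noncomputable def cyl {n : ℕ} (G : MF n) : MF n := fun x => (‖x‖ ^ 2)⁻¹ • G x

/-- Christoffel symbols in coordinates: `∇_{∂_i} ∂_j = ∑ k, Chr g i j k ∂_k` -/
noncomputable def Chr {n : ℕ} (g : MF n) (i j k : Fin (n + 1)) (x : EE n) : ℝ :=
  1 / 2 * ∑ l, (g x)⁻¹ k l * (pd i (fun y => g y j l) x + pd j (fun y => g y i l) x - pd l (fun y => g y i j) x)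

/-- curvature in coordinates: `R(∂_i,∂_j)∂_k = ∇_i ∇_j ∂_k - ∇_j ∇_i ∂_k = ∑ l, Rup g i j k l ∂_l` -/
noncomputable def Rup {n : ℕ} (g : MF n) (i j k l : Fin (n + 1)) (x : EE n) : ℝ :=
  pd i (Chr g j k l) x - pd j (Chr g i k l) x
    + ∑ m, (Chr g j k m x * Chr g i m l x - Chr g i k m x * Chr g j m l x)

/-- `Rm g i j k l = g(R(∂_i,∂_j)∂_k, ∂_l)` -/
noncomputable def Rm {n : ℕ} (g : MF n) (i j k l : Fin (n + 1)) (x : EE n) : ℝ := ∑ m, Rup g i j k m x * g x m l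

/-- inner product -/
def ip {n : ℕ} (g : MF n) (x : EE n) (u v : Fin (n + 1) → ℝ) : ℝ := ∑ i, ∑ j, g x i j * u i * v j

/-- `g(R(u,v)v, u)` -/
noncomputable def curv {n : ℕ} (g : MF n) (x : EE n) (u v : Fin (n + 1) → ℝ) : ℝ :=
  ∑ i, ∑ j, ∑ k, ∑ l, Rm g i j k l x * u i * v j * v k * u l

/-- area form squared -/
def ar {n : ℕ} (g : MF n) (x : EE n) (u v : Fin (n + 1) → ℝ) : ℝ := ip g x u u * ip g x v v - ip g x u v ^ 2

/-- sectional curvature of the plane spanned by `u, v` (linearly independent) -/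
noncomputable def sec {n : ℕ} (g : MF n) (x : EE n) (u v : Fin (n + 1) → ℝ) : ℝ := curv g x u v / ar g x u v

/-- tangent to the sphere through `x` -/
def Tan {n : ℕ} (x : EE n) (u : Fin (n + 1) → ℝ) : Prop := ∑ i, u i * x i = 0

/-- pointwise pinching of the metric `G` of `Sⁿ`: all sectional curvatures at `x` are positive and any two have
ratio `> δ` -/
def PinchedAt {n : ℕ} (δ : ℝ) (G : MF n) (x : EE n) : Prop :=
  ∀ u v u' v' : Fin (n + 1) → ℝ, Tan x u → Tan x v → Tan x u' → Tan x v' →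
    LinearIndependent ℝ ![u, v] → LinearIndependent ℝ ![u', v'] →
    0 < sec (cyl G) x u v ∧ δ * sec (cyl G) x u' v' < sec (cyl G) x u v

/-- speed of a curve in `Sⁿ` -/
noncomputable def speed {n : ℕ} (G : MF n) (c : ℝ → EE n) (t : ℝ) : ℝ :=
  Real.sqrt (ip G (c t) (fun i => deriv c t i) (fun i => deriv c t i))

/-- length of a curve `[0,1] → Sⁿ` -/
noncomputable def glen {n : ℕ} (G : MF n) (c : ℝ → EE n) : ℝ := ∫ t in (0:ℝ)..1, speed G c t

/-- Lipschitz curves in `Sⁿ` from `x` to `y` -/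
def Joins {n : ℕ} (c : ℝ → EE n) (x y : EE n) : Prop :=
  (∃ K, LipschitzWith K c) ∧ (∀ t, ‖c t‖ = 1) ∧ c 0 = x ∧ c 1 = y

/-- Riemannian distance of two points of `Sⁿ` -/
noncomputable def gdist {n : ℕ} (G : MF n) (x y : EE n) : ℝ := sInf {r | ∃ c, Joins c x y ∧ r = glen G c}

/-- diameter -/
noncomputable def gdiam {n : ℕ} (G : MF n) : ℝ :=
  sSup {r | ∃ x y : EE n, ‖x‖ = 1 ∧ ‖y‖ = 1 ∧ r = gdist G x y}

/-- integral over `Sⁿ` with respect to the round measure of a `0`-homogeneous function -/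
noncomputable def integ {n : ℕ} (f : EE n → ℝ) : ℝ := ((n : ℝ) + 1) * ∫ x in Metric.ball (0 : EE n) 1, f x

/-- Riemannian volume: `∫_{Sⁿ} √det G dσ` (`G(x) x = x`, so `det G(x)` is the determinant on `x^⊥`) -/
noncomputable def gvol {n : ℕ} (G : MF n) : ℝ := integ (fun x => Real.sqrt (G x).det)

/-- a smooth family `f t x`, `t ∈ I`: every word derivative is jointly continuous on `I × (ℝ^{n+1} \ 0)` -/
structure SmFam {n : ℕ} (I : Set ℝ) (f : ℝ → EE n → ℝ) : Prop where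
  sm : ∀ t ∈ I, Sm (f t)
  cont : ∀ w, ContinuousOn (fun p : ℝ × EE n => Ew w (f p.1) p.2) (I ×ˢ {0}ᶜ)

/-- smooth family that is `C¹` in time, with time derivative the smooth family `f'`, compatible with all word
derivatives (one-sided at end points of `I`) -/
structure SmFam1 {n : ℕ} (I : Set ℝ) (f f' : ℝ → EE n → ℝ) : Prop where
  fam : SmFam I f
  fam' : SmFam I f'
  der : ∀ w, ∀ x ≠ 0, ∀ t ∈ I, HasDerivWithinAt (fun s => Ew w (f s) x) (Ew w (f' t) x) I t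

/-! ## Calculus packets (general dimension versions of `Helper47/RF/CoreGoals.lean`) -/

/-- smoothness exponent `∞` -/
abbrev oo : WithTop ℕ∞ := ((⊤ : ℕ∞) : WithTop ℕ∞)

/-- C1 (0.8 h).  Closure properties of `Sm`.  For `ed i f`: `fderiv f (r x) = r⁻¹ fderiv f x` by homogeneity; `‖x‖` is smooth
on `{0}ᶜ`. -/
def Goal_C1 : Prop := ∀ n : ℕ,
  (∀ c : ℝ, Sm (fun _ : EE n => c)) ∧
  (∀ f h : EE n → ℝ, Sm f → Sm h → Sm (fun x => f x + h x)) ∧
  (∀ f h : EE n → ℝ, Sm f → Sm h → Sm (fun x => f x - h x)) ∧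
  (∀ f h : EE n → ℝ, Sm f → Sm h → Sm (fun x => f x * h x)) ∧
  (∀ f : EE n → ℝ, Sm f → Sm (fun x => - f x)) ∧
  (∀ (ι : Type) (s : Finset ι) (f : ι → EE n → ℝ), (∀ a ∈ s, Sm (f a)) → Sm (fun x => ∑ a ∈ s, f a x)) ∧
  (∀ (f : EE n → ℝ) (F : ℝ → ℝ) (U : Set ℝ), IsOpen U → ContDiffOn ℝ oo F U → Sm f →
    (∀ x, f x ∈ U) → Sm (fun x => F (f x))) ∧
  (∀ (f : EE n → ℝ) (F : ℝ → ℝ) (U : Set ℝ), IsOpen U → ContDiffOn ℝ oo F U → Sm f →
    (∀ x, x ≠ 0 → f x ∈ U) → Sm (fun x => F (f x))) ∧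
  (∀ (f : EE n → ℝ) i, Sm f → Sm (ed i f)) ∧
  (∀ (f : EE n → ℝ) i j, Sm f → Sm (Lr i j f)) ∧
  (∀ (f : EE n → ℝ) w, Sm f → Sm (Ew w f)) ∧ (∀ i, Sm (nn i : EE n → ℝ))

/-- C2 (0.6 h).  `ed i` is a derivation (at `x = 0` all terms vanish because of the factor `‖x‖`). -/
def Goal_C2 : Prop := ∀ n : ℕ,
  (∀ (i : Fin (n + 1)) (c : ℝ) (x : EE n), ed i (fun _ => c) x = 0) ∧
  (∀ i (f h : EE n → ℝ) x, Sm f → Sm h → ed i (fun y => f y + h y) x = ed i f x + ed i h x) ∧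
  (∀ i (f h : EE n → ℝ) x, Sm f → Sm h → ed i (fun y => f y - h y) x = ed i f x - ed i h x) ∧
  (∀ i (f : EE n → ℝ) x, ed i (fun y => - f y) x = - ed i f x) ∧
  (∀ i (f h : EE n → ℝ) x, Sm f → Sm h → ed i (fun y => f y * h y) x = ed i f x * h x + f x * ed i h x) ∧
  (∀ i (c : ℝ) (f : EE n → ℝ) x, Sm f → ed i (fun y => c * f y) x = c * ed i f x) ∧
  (∀ (ι : Type) (s : Finset ι) (f : ι → EE n → ℝ) (i : Fin (n + 1)) (x : EE n), (∀ a ∈ s, Sm (f a)) →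
    ed i (fun y => ∑ a ∈ s, f a y) x = ∑ a ∈ s, ed i (f a) x) ∧
  (∀ (i : Fin (n + 1)) (f : EE n → ℝ) (F : ℝ → ℝ) (F' : ℝ) (x : EE n), Sm f → x ≠ 0 → HasDerivAt F F' (f x) →
    ed i (fun y => F (f y)) x = F' * ed i f x)

/-- C3 (0.8 h).  Commutators and the radial vector.  Euler: `∑ x_i ∂_i f = 0`; `∂_i ‖x‖ = x_i/‖x‖`; symmetry of the second
derivative.  `Lr i j` have constant structure constants and `ed i f = ∑_j nn_j Lr j i f` for `x ≠ 0`. -/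
def Goal_C3 : Prop := ∀ n : ℕ,
  (∀ i j (f : EE n → ℝ) x, Sm f → x ≠ 0 →
    ed i (ed j f) x - ed j (ed i f) x = nn i x * ed j f x - nn j x * ed i f x) ∧
  (∀ (f : EE n → ℝ) x, Sm f → x ≠ 0 → ∑ i, nn i x * ed i f x = 0) ∧
  (∀ i j (x : EE n), x ≠ 0 → ed i (nn j) x = (if i = j then 1 else 0) - nn i x * nn j x) ∧
  (∀ (x : EE n), x ≠ 0 → ∑ i, nn i x ^ 2 = 1) ∧
  (∀ i (f : EE n → ℝ) x, Sm f → x ≠ 0 → ed i f x = ∑ j, nn j x * Lr j i f x) ∧
  (∀ i j (f : EE n → ℝ) x, Sm f → x ≠ 0 → Lr i j f x = nn i x * ed j f x - nn j x * ed i f x) ∧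
  (∀ i j k l (f : EE n → ℝ) x, Sm f → x ≠ 0 → Lr i j (Lr k l f) x - Lr k l (Lr i j f) x =
    (if j = k then 1 else 0) * Lr i l f x - (if i = k then 1 else 0) * Lr j l f x
      - (if j = l then 1 else 0) * Lr i k f x + (if i = l then 1 else 0) * Lr j k f x)

/-- C4 (1.2 h).  Integration.  A `Sm` function is bounded off `0` (compactness of the unit sphere, homogeneity), hence
integrable on the ball.  The rotation by the angle `s` in the plane `(i,j)` is a linear isometry, so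
`∫_ball f(rot_s x) dx` is independent of `s`; differentiate at `s = 0`.  `ed i f = ∑_j nn_j Lr j i f` and
`∑_j Lr j i (nn j) = -n nn_i`. -/
def Goal_C4 : Prop := ∀ n : ℕ,
  (∀ f : EE n → ℝ, Sm f → ∃ C, ∀ x, |f x| ≤ C + |f 0|) ∧
  (∀ f : EE n → ℝ, Sm f → MeasureTheory.IntegrableOn f (Metric.ball (0 : EE n) 1)) ∧
  (∀ i j (f : EE n → ℝ), Sm f → integ (Lr i j f) = 0) ∧
  (∀ i j (f h : EE n → ℝ), Sm f → Sm h → integ (fun x => Lr i j f x * h x) = - integ (fun x => f x * Lr i j h x)) ∧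
  (∀ i (f : EE n → ℝ), Sm f → integ (ed i f) = (n : ℝ) * integ (fun x => nn i x * f x)) ∧
  0 < integ (fun _ : EE n => 1)

/-- C6 (0.8 h).  Determinant and inverse of a metric (Cramer: inverse = adjugate / det). -/
def Goal_C6 : Prop := ∀ (n : ℕ) (G : MF n), IsMetric G → (∀ x, 0 < (G x).det) ∧ Sm (fun x => (G x).det) ∧
    Sm (fun x => Real.sqrt (G x).det) ∧ (∀ i j, Sm (fun x => (G x)⁻¹ i j)) ∧
    (∀ x, G x * (G x)⁻¹ = 1) ∧ (∀ x i j, (G x)⁻¹ i j = (G x)⁻¹ j i)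

/-- C7 (0.6 h).  Derivative along a curve in the sphere (`∑ w_i c_i = 0` is not needed: Euler). -/
def Goal_C7 : Prop := ∀ n : ℕ,
  (∀ (f : EE n → ℝ) (c : ℝ → EE n) (w : EE n) (t : ℝ), Sm f → ‖c t‖ = 1 → HasDerivAt c w t →
    HasDerivAt (fun s => f (c s)) (∑ i, w i * ed i f (c t)) t) ∧
  (∀ (f : EE n → ℝ) (x : EE n), Sm f → x ≠ 0 → HasFDerivAt f (fderiv ℝ f x) x ∧
    ∀ v : EE n, fderiv ℝ f x v = ∑ i, v i * pd i f x)

/-- C8 (1.2 h).  Rules for smooth families.  For products and compositions: induction on the length of the word,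
for all functions at the same time, with `ed i (f h) = (ed i f) h + f (ed i h)`, `ed i (F ∘ f) = (F' ∘ f) ed i f`. -/
def Goal_C8 : Prop := ∀ (n : ℕ) (I : Set ℝ),
  (∀ c : ℝ → ℝ, ContinuousOn c I → SmFam I (fun t (_ : EE n) => c t)) ∧
  (∀ f h : ℝ → EE n → ℝ, SmFam I f → SmFam I h → SmFam I (fun t x => f t x + h t x)) ∧
  (∀ f h : ℝ → EE n → ℝ, SmFam I f → SmFam I h → SmFam I (fun t x => f t x - h t x)) ∧
  (∀ f h : ℝ → EE n → ℝ, SmFam I f → SmFam I h → SmFam I (fun t x => f t x * h t x)) ∧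
  (∀ f : ℝ → EE n → ℝ, SmFam I f → SmFam I (fun t x => - f t x)) ∧
  (∀ (f : ℝ → EE n → ℝ) i, SmFam I f → SmFam I (fun t => ed i (f t))) ∧
  (∀ (f : ℝ → EE n → ℝ) (F : ℝ → ℝ) (U : Set ℝ), IsOpen U → ContDiffOn ℝ oo F U → SmFam I f →
    (∀ t ∈ I, ∀ x, x ≠ 0 → f t x ∈ U) → SmFam I (fun t x => F (f t x))) ∧
  (∀ (ι : Type) (s : Finset ι) (f : ι → ℝ → EE n → ℝ), (∀ a ∈ s, SmFam I (f a)) →
    SmFam I (fun t x => ∑ a ∈ s, f a t x)) ∧
  (∀ i, SmFam I (fun _ => (nn i : EE n → ℝ))) ∧ (∀ f : EE n → ℝ, Sm f → SmFam I (fun _ => f))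

/-- C9 (1.2 h).  Rules for `C¹` families (rules for `HasDerivWithinAt`). -/
def Goal_C9 : Prop := ∀ (n : ℕ) (I : Set ℝ),
  (∀ c c' : ℝ → ℝ, ContinuousOn c I → ContinuousOn c' I → (∀ t ∈ I, HasDerivWithinAt c (c' t) I t) →
    SmFam1 I (fun t (_ : EE n) => c t) (fun t _ => c' t)) ∧
  (∀ f f' h h' : ℝ → EE n → ℝ, SmFam1 I f f' → SmFam1 I h h' →
    SmFam1 I (fun t x => f t x + h t x) (fun t x => f' t x + h' t x)) ∧
  (∀ f f' h h' : ℝ → EE n → ℝ, SmFam1 I f f' → SmFam1 I h h' →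
    SmFam1 I (fun t x => f t x - h t x) (fun t x => f' t x - h' t x)) ∧
  (∀ f f' h h' : ℝ → EE n → ℝ, SmFam1 I f f' → SmFam1 I h h' →
    SmFam1 I (fun t x => f t x * h t x) (fun t x => f' t x * h t x + f t x * h' t x)) ∧
  (∀ f f' : ℝ → EE n → ℝ, SmFam1 I f f' → SmFam1 I (fun t x => - f t x) (fun t x => - f' t x)) ∧
  (∀ (f f' : ℝ → EE n → ℝ) i, SmFam1 I f f' → SmFam1 I (fun t => ed i (f t)) (fun t => ed i (f' t))) ∧
  (∀ (f f' : ℝ → EE n → ℝ) (F F' : ℝ → ℝ) (U : Set ℝ), IsOpen U → ContDiffOn ℝ oo F U →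
    (∀ y ∈ U, HasDerivAt F (F' y) y) → SmFam1 I f f' →
    (∀ t ∈ I, ∀ x, x ≠ 0 → f t x ∈ U) → SmFam1 I (fun t x => F (f t x)) (fun t x => F' (f t x) * f' t x)) ∧
  (∀ (ι : Type) (s : Finset ι) (f f' : ι → ℝ → EE n → ℝ), (∀ a ∈ s, SmFam1 I (f a) (f' a)) →
    SmFam1 I (fun t x => ∑ a ∈ s, f a t x) (fun t x => ∑ a ∈ s, f' a t x))

/-- C11 (1.5 h).  Recognising smooth functions: if the `F w` are continuous `0`-homogeneous functions and
`F (i :: w)` is the derivative of `F w` along `‖x‖ e_i`, then `F []` is smooth and `F w` are its word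
derivatives.  (A function with continuous partial derivatives is `C¹`; then induction.) -/
def Goal_C11 : Prop := ∀ (n : ℕ) (F : List (Fin (n + 1)) → EE n → ℝ), (∀ w, Hom0 (F w)) →
    (∀ w, ContinuousOn (F w) {0}ᶜ) →
    (∀ w i x, x ≠ 0 → HasDerivAt (fun s : ℝ => F w (x + s • (‖x‖ • EuclideanSpace.single i (1:ℝ)))) (F (i :: w) x) 0) →
    Sm (F []) ∧ ∀ w x, x ≠ 0 → Ew w (F []) x = F w x

end Pool.Agent.Helper47.RFn
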