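import Pool.Agent.Helper47.RFn.Mod
import Pool.Agent.Helper47.RFn.FlowN

/-!
# Project RFn: the frame bundle of a flow in a model `M : Mod n T`

`M.em v` = the element of the algebra given by the function `v t x` of `(x,t)`; `M.at1 f` = restriction of `f` to the
frame `1`, a function of `(x,t)`; `M.flB A θ` = frame bundle data of the moving frame `A` (inverse `θ`) with `S = Ric`.
-/

namespace Pool.Agent.Helper47.RFn

open Finset

/-- jointly smooth matrix family -/
def MJ {n : ℕ} (T : ℝ) (A : ℝ → MF n) : Prop := ∀ i j, JS T (fun t x => A t x i j)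

/-- the unit frame -/
def one {n : ℕ} : Ix n → Ix n → ℝ := fun a b => if a = b then 1 else 0

namespace Mod

variable {n : ℕ} {T : ℝ} (M : Mod n T)

/-- function of `(x,t)` as an element of the algebra -/
noncomputable def em (v : ℝ → EE n → ℝ) : M.B :=
  open Classical in if h : ∃ f : M.B, M.XT f ∧ ∀ z (t : TI T), M.ev z t f = v t (M.pt z) then Classical.choose h else 0

/-- restriction to the frame `1` -/
noncomputable def at1 (f : M.B) : ℝ → EE n → ℝ :=
  open Classical in if h : ∃ v : ℝ → EE n → ℝ, JS T v ∧ ∀ z (t : TI T), M.fr z = one → M.ev z t f = v t (M.pt z) then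
    Classical.choose h else fun _ _ => 0

/-- matrix family as matrix of elements -/
noncomputable def emM (A : ℝ → MF n) (i j : Ix n) : M.B := M.em (fun t x => A t x i j)

/-- frame bundle data of a flow -/
noncomputable def flB (A θ : ℝ → MF n) : FB n T :=
  M.toBA.toFB (M.emM A) (M.emM θ) (FR.Rc M.e M.n0 (M.emM A) (M.emM θ))

end Mod

end Pool.Agent.Helper47.RFn
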