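import Pool.Agent.Helper47.RFn.Fr
import Pool.Agent.Helper47.RFn.CoreN

/-!
# Project RFn: the concrete basic algebra on `Sⁿ × O(n+1) × (0,T)`

Ambient space `WW n = ℝ^{n+1} × (matrices) × ℝ`.  An element of the algebra is a function `f` on `ZZ n × (0,T)` that has a
smooth extension `F` to a neighbourhood `O` (`Ex O F f`).  Derivations: `fld η ζ ξ d (x,u,t) = (η x, ζ u + u ξ, d)` with
antisymmetric `η, ζ, ξ` is tangent to `ZZ n × (0,T)`; `derf η ζ ξ d f p = DF(p)(fld p)`.  `sk a b` is the matrix with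
`(sk a b w)_c = δ_bc w_a - δ_ac w_b`; `L i j` = field with `η = sk i j`, `V a b`: `ζ = sk a b`, `U c d`: `ξ = sk c d`.

`Mod n T`: a basic algebra together with the two projections `pt`, `fr` and the axioms `Mod.Ax` that are used later.
`Goal_MOD` says that it exists; the packets `MA1`-`MA6` are the steps.
-/

namespace Pool.Agent.Helper47.RFn

open Finset

/-- ambient space -/
abbrev WW (n : ℕ) := EE n × (Ix n → Ix n → ℝ) × ℝ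

/-- orthogonal matrices -/
def OO (n : ℕ) : Set (Ix n → Ix n → ℝ) := {u | ∀ a b, ∑ c, u a c * u b c = if a = b then 1 else 0}

/-- the compact space -/
abbrev ZZ (n : ℕ) := Metric.sphere (0 : EE n) 1 × OO n

/-- inclusion -/
def emW {n : ℕ} {T : ℝ} (p : ZZ n × TI T) : WW n := ((p.1.1 : EE n), (p.1.2 : Ix n → Ix n → ℝ), (p.2 : ℝ))

/-- `F` is a smooth extension of `f` to the open set `O` -/
structure Ex {n : ℕ} {T : ℝ} (O : Set (WW n)) (F : WW n → ℝ) (f : ZZ n × TI T → ℝ) : Prop where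
  op : IsOpen O
  cd : ContDiffOn ℝ oo F O
  mem : ∀ p : ZZ n × TI T, emW p ∈ O
  eq : ∀ p : ZZ n × TI T, F (emW p) = f p

/-- smooth functions on `ZZ n × (0,T)` -/
def IsB {n : ℕ} {T : ℝ} (f : ZZ n × TI T → ℝ) : Prop := ∃ O F, Ex O F f

/-- a chosen extension -/
noncomputable def exf {n : ℕ} {T : ℝ} (f : ZZ n × TI T → ℝ) : WW n → ℝ :=
  open Classical in if h : ∃ F, ∃ O, Ex O F f then Classical.choose h else 0

/-- basic antisymmetric matrix -/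
def sk {n : ℕ} (a b c k : Ix n) : ℝ :=
  (if b = c then 1 else 0) * (if a = k then 1 else 0) - (if a = c then 1 else 0) * (if b = k then 1 else 0)

/-- antisymmetric -/
def Sk {n : ℕ} (M : Ix n → Ix n → ℝ) : Prop := ∀ a b, M a b = - M b a

/-- tangent field -/
noncomputable def fld {n : ℕ} (η ζ ξ : Ix n → Ix n → ℝ) (d : ℝ) (p : WW n) : WW n :=
  (WithLp.toLp 2 (fun i => ∑ j, η i j * p.1 j), (fun a b => ∑ c, (ζ a c * p.2.1 c b + p.2.1 a c * ξ c b)), d)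

/-- derivative along a tangent field -/
noncomputable def derf {n : ℕ} {T : ℝ} (η ζ ξ : Ix n → Ix n → ℝ) (d : ℝ) (f : ZZ n × TI T → ℝ) : ZZ n × TI T → ℝ :=
  fun p => fderiv ℝ (exf f) (emW p) (fld η ζ ξ d (emW p))

/-- jointly smooth family of functions on `Sⁿ`, `0 < t < T` -/
structure JS {n : ℕ} (T : ℝ) (v : ℝ → EE n → ℝ) : Prop where
  cd : ContDiffOn ℝ oo (fun p : EE n × ℝ => v p.2 p.1) {p | p.1 ≠ 0 ∧ 0 < p.2 ∧ p.2 < T}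
  hom : ∀ t, 0 < t → t < T → Hom0 (v t)

/-- basic algebra with projections to the point and to the frame -/
structure Mod (n : ℕ) (T : ℝ) extends BA n T where
  pt : Z → EE n
  fr : Z → Ix n → Ix n → ℝ

/-- Axioms of the model. -/
structure Mod.Ax {n : ℕ} {T : ℝ} (M : Mod n T) : Prop where
  ax : M.toBA.Ax
  ptn : ∀ z, ‖M.pt z‖ = 1
  frO : ∀ z, M.fr z ∈ OO n
  ptc : Continuous M.pt
  frc : Continuous M.fr
  surj : ∀ (x : EE n) (w : Ix n → Ix n → ℝ), ‖x‖ = 1 → w ∈ OO n → ∃ z, M.pt z = x ∧ M.fr z = w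
  inj : ∀ z z', M.pt z = M.pt z' → M.fr z = M.fr z' → z = z'
  uev : ∀ z t a b, M.ev z t (M.u a b) = M.fr z a b
  nev : ∀ z t i, M.ev z t (M.n0 i) = nn i (M.pt z)
  emb : ∀ v : ℝ → EE n → ℝ, JS T v → ∃ f : M.B, M.XT f ∧ ∀ z (t : TI T), M.ev z t f = v t (M.pt z)
  /-- restriction to a fixed frame -/
  res : ∀ w ∈ OO n, ∀ f : M.B, ∃ v : ℝ → EE n → ℝ, JS T v ∧ ∀ z (t : TI T), M.fr z = w → M.ev z t f = v t (M.pt z)
  resL : ∀ w ∈ OO n, ∀ (f : M.B) (v : ℝ → EE n → ℝ), JS T v →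
    (∀ z (t : TI T), M.fr z = w → M.ev z t f = v t (M.pt z)) → ∀ i j z (t : TI T), M.fr z = w →
      M.ev z t (M.L i j f) = Lr i j (v t) (M.pt z)
  resD : ∀ w ∈ OO n, ∀ (f : M.B) (v v' : ℝ → EE n → ℝ), JS T v →
    (∀ z (t : TI T), M.fr z = w → M.ev z t f = v t (M.pt z)) →
    (∀ t x, 0 < t → t < T → x ≠ 0 → HasDerivAt (fun r => v r x) (v' t x) t) → ∀ z (t : TI T), M.fr z = w →
      M.ev z t (M.Dt f) = v' t (M.pt z)
  /-- frozen elements -/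
  frz : ∀ (f : M.B) (t0 : TI T), ∃ g : M.B, (∀ z t, M.ev z t g = M.ev z t0 f) ∧
    (∀ i j z t, M.ev z t (M.L i j g) = M.ev z t0 (M.L i j f)) ∧
    (∀ i j z t, M.ev z t (M.U i j g) = M.ev z t0 (M.U i j f)) ∧
    (∀ i j z t, M.ev z t (M.V i j g) = M.ev z t0 (M.V i j f)) ∧ M.Dt g = 0

/-! ### packets -/

/-- MA1 (0.7 h).  One-parameter groups of rotations: `R s = exp (s M)` (matrix exponential; `NormedSpace.exp` on
`Matrix` with `open scoped Matrix.Norms.Operator` locally, `Matrix.exp_transpose`, `Matrix.exp_neg`,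
`hasDerivAt_exp_smul_const`), orthogonal because `Mᵀ = -M`.  Second claim: the curve `(R1 s x, R2 s u R3 s)`; `OO n` is
closed under products. -/
def Goal_MA1 : Prop := ∀ n : ℕ,
  (∀ M : Ix n → Ix n → ℝ, Sk M → ∃ R : ℝ → Ix n → Ix n → ℝ, (∀ s, R s ∈ OO n) ∧
    (∀ a b, R 0 a b = if a = b then 1 else 0) ∧
    (∀ s a b, HasDerivAt (fun r => R r a b) (∑ c, M a c * R s c b) s) ∧
    (∀ s a b, ∑ c, M a c * R s c b = ∑ c, R s a c * M c b)) ∧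
  (∀ (η ζ ξ : Ix n → Ix n → ℝ) (z : ZZ n), Sk η → Sk ζ → Sk ξ → ∃ γ : ℝ → ZZ n, γ 0 = z ∧ ∀ s,
    HasDerivAt (fun r => (((γ r).1 : EE n), ((γ r).2 : Ix n → Ix n → ℝ)))
      ((fld η ζ ξ 0 ((γ s).1, (γ s).2, 0)).1, (fld η ζ ξ 0 ((γ s).1, (γ s).2, 0)).2.1) s)

/-- MA2 (1 h, MA1).  The derivative does not depend on the extension: for `p = (z,t)` take the curve `γ` of MA1 through
`z`, `s ↦ (γ s, t + d s)` stays in `ZZ n × (0,T)` for small `s`, so `F` and `F'` agree along its image, and the derivative at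
`s = 0` is `DF(p)(fld p)`.  Then: `derf f` is smooth with extension `q ↦ DF(q)(fld q)`; the rules are rules for `fderiv` of
the extensions `c`, `F + G`, `c F`, `F G`, `φ ∘ F` (on `O ∩ F⁻¹ U`); `fld` is linear in `(η,ζ,ξ,d)`. -/
def Goal_MA2 : Prop := ∀ (n : ℕ) (T : ℝ),
  (∀ (η ζ ξ : Ix n → Ix n → ℝ) (d : ℝ), Sk η → Sk ζ → Sk ξ → ∀ (f : ZZ n × TI T → ℝ) (O : Set (WW n)) (F : WW n → ℝ),
    Ex O F f → (∀ p, derf η ζ ξ d f p = fderiv ℝ F (emW p) (fld η ζ ξ d (emW p))) ∧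
      Ex O (fun q => fderiv ℝ F q (fld η ζ ξ d q)) (derf η ζ ξ d f)) ∧
  (∀ c : ℝ, IsB (fun _ : ZZ n × TI T => c)) ∧
  (∀ f g : ZZ n × TI T → ℝ, IsB f → IsB g → IsB (f + g) ∧ IsB (f * g)) ∧
  (∀ (φ : ℝ → ℝ) (U : Set ℝ), IsOpen U → ContDiffOn ℝ oo φ U → ∀ f : ZZ n × TI T → ℝ, IsB f → (∀ p, f p ∈ U) →
    IsB (fun p => φ (f p))) ∧
  (∀ (η ζ ξ : Ix n → Ix n → ℝ) (d : ℝ), Sk η → Sk ζ → Sk ξ →
    (∀ c : ℝ, derf η ζ ξ d (fun _ : ZZ n × TI T => c) = 0) ∧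
    (∀ f g : ZZ n × TI T → ℝ, IsB f → IsB g → derf η ζ ξ d (f + g) = derf η ζ ξ d f + derf η ζ ξ d g ∧
      derf η ζ ξ d (f * g) = f * derf η ζ ξ d g + g * derf η ζ ξ d f) ∧
    (∀ (c : ℝ) (f : ZZ n × TI T → ℝ), IsB f → derf η ζ ξ d (c • f) = c • derf η ζ ξ d f) ∧
    (∀ (φ : ℝ → ℝ) (U : Set ℝ), IsOpen U → ContDiffOn ℝ oo φ U → ∀ f : ZZ n × TI T → ℝ, IsB f → (∀ p, f p ∈ U) →
      ∀ p, derf η ζ ξ d (fun p => φ (f p)) p = deriv φ (f p) * derf η ζ ξ d f p)) ∧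
  (∀ (η ζ ξ η' ζ' ξ' : Ix n → Ix n → ℝ) (d d' c : ℝ) (f : ZZ n × TI T → ℝ), IsB f →
    derf (fun a b => η a b + c * η' a b) (fun a b => ζ a b + c * ζ' a b) (fun a b => ξ a b + c * ξ' a b) (d + c * d') f
      = derf η ζ ξ d f + c • derf η' ζ' ξ' d' f)

/-- MA3 (1 h, MA2).  Commutators.  With `X = fld η ζ ξ d`, `Y = fld η' ζ' ξ' d'` and an extension `F`:
`X (Y F) = D²F(X,Y) + DF(DY X)`, the second derivative is symmetric (`ContDiffAt.isSymmSndFDerivAt`), and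
`DY X - DX Y = (-[η,η'] x, -[ζ,ζ'] u + u [ξ,ξ'], 0)`, `[A,B]_ab = A_ac B_cb - B_ac A_cb`. -/
def Goal_MA3 : Prop := ∀ (n : ℕ) (T : ℝ) (η ζ ξ η' ζ' ξ' : Ix n → Ix n → ℝ) (d d' : ℝ), Sk η → Sk ζ → Sk ξ →
  Sk η' → Sk ζ' → Sk ξ' → ∀ f : ZZ n × TI T → ℝ, IsB f →
    derf η ζ ξ d (derf η' ζ' ξ' d' f) - derf η' ζ' ξ' d' (derf η ζ ξ d f) =
      derf (fun a b => - ∑ c, (η a c * η' c b - η' a c * η c b)) (fun a b => - ∑ c, (ζ a c * ζ' c b - ζ' a c * ζ c b))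
        (fun a b => ∑ c, (ξ a c * ξ' c b - ξ' a c * ξ c b)) 0 f

/-- MA4 (1 h, MA1, MA2).  Spatial minimum, time derivative, continuity.  Minimum: for the curve `γ` of MA1 the function
`r ↦ f(γ r, t)` has derivative `(derf f)(γ r, t)` for all `r`, so second derivative `derf (derf f)`, and a minimum at `0`. -/
def Goal_MA4 : Prop := ∀ (n : ℕ) (T : ℝ) (f : ZZ n × TI T → ℝ), IsB f → Continuous f ∧
  (∀ (z : ZZ n) (t : TI T), (∀ z', f (z, t) ≤ f (z', t)) → ∀ η ζ ξ : Ix n → Ix n → ℝ, Sk η → Sk ζ → Sk ξ →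
    derf η ζ ξ 0 f (z, t) = 0 ∧ 0 ≤ derf η ζ ξ 0 (derf η ζ ξ 0 f) (z, t)) ∧
  (∀ (z : ZZ n) (t : TI T) (g : ℝ → ℝ), (∀ s : TI T, g s = f (z, s)) →
    HasDerivAt g (derf (fun _ _ => 0) (fun _ _ => 0) (fun _ _ => 0) 1 f (z, t)) t) ∧
  (∀ t0 : TI T, IsB (fun p : ZZ n × TI T => f (p.1, t0)) ∧ ∀ (η ζ ξ : Ix n → Ix n → ℝ) (d : ℝ), Sk η → Sk ζ → Sk ξ →
    ∀ p : ZZ n × TI T, derf η ζ ξ d (fun p : ZZ n × TI T => f (p.1, t0)) p = derf η ζ ξ 0 f (p.1, t0)) ∧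
  CompactSpace (ZZ n) ∧ Nonempty (ZZ n)

/-- MA5 (1 h, MA2).  Special elements.  `u_ab`, `t`, `x_i` have linear extensions; a `JS` family `v` has the extension
`(x,u,t) ↦ v t x` on `{x ≠ 0, 0 < t < T}`; `n_i = x_i` on the unit sphere.  `fld (sk i j) 0 0 0` at `x` is `x_i e_j - x_j e_i`.
Restriction: for `w ∈ OO n` and an extension `F` of `f`, `v t x = F(x/|x|, w, t)` on the open set where it makes sense
is smooth and `0`-homogeneous, and on `Sⁿ × (0,T)`, which is covered; for `x ≠ 0`, `0 < t < T` it is defined. -/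
def Goal_MA5 : Prop := ∀ (n : ℕ) (T : ℝ),
  (∀ a b, IsB (fun p : ZZ n × TI T => (p.1.2 : Ix n → Ix n → ℝ) a b) ∧
    ∀ (η ζ ξ : Ix n → Ix n → ℝ) (d : ℝ), Sk η → Sk ζ → Sk ξ → ∀ p : ZZ n × TI T,
      derf η ζ ξ d (fun p : ZZ n × TI T => (p.1.2 : Ix n → Ix n → ℝ) a b) p =
        ∑ c, (ζ a c * (p.1.2 : Ix n → Ix n → ℝ) c b + (p.1.2 : Ix n → Ix n → ℝ) a c * ξ c b)) ∧
  (IsB (fun p : ZZ n × TI T => (p.2 : ℝ)) ∧ ∀ (η ζ ξ : Ix n → Ix n → ℝ) (d : ℝ), Sk η → Sk ζ → Sk ξ →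
    ∀ p : ZZ n × TI T, derf η ζ ξ d (fun p : ZZ n × TI T => (p.2 : ℝ)) p = d) ∧
  (∀ i, IsB (fun p : ZZ n × TI T => (p.1.1 : EE n) i) ∧
    ∀ (η ζ ξ : Ix n → Ix n → ℝ) (d : ℝ), Sk η → Sk ζ → Sk ξ → ∀ p : ZZ n × TI T,
      derf η ζ ξ d (fun p : ZZ n × TI T => (p.1.1 : EE n) i) p = ∑ j, η i j * (p.1.1 : EE n) j) ∧
  (∀ v : ℝ → EE n → ℝ, JS T v → IsB (fun p : ZZ n × TI T => v p.2 (p.1.1 : EE n)) ∧
    ∀ (ζ ξ : Ix n → Ix n → ℝ), Sk ζ → Sk ξ → ∀ p : ZZ n × TI T,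
      derf (fun _ _ => 0) ζ ξ 0 (fun p : ZZ n × TI T => v p.2 (p.1.1 : EE n)) p = 0) ∧
  (∀ w ∈ OO n, ∀ f : ZZ n × TI T → ℝ, IsB f → ∃ v : ℝ → EE n → ℝ, JS T v ∧
    ∀ p : ZZ n × TI T, (p.1.2 : Ix n → Ix n → ℝ) = w → f p = v p.2 (p.1.1 : EE n)) ∧
  (∀ w ∈ OO n, ∀ f : ZZ n × TI T → ℝ, IsB f → ∀ v : ℝ → EE n → ℝ, JS T v →
    (∀ p : ZZ n × TI T, (p.1.2 : Ix n → Ix n → ℝ) = w → f p = v p.2 (p.1.1 : EE n)) →
    (∀ i j, ∀ p : ZZ n × TI T, (p.1.2 : Ix n → Ix n → ℝ) = w →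
      derf (sk i j) (fun _ _ => 0) (fun _ _ => 0) 0 f p = Lr i j (v p.2) (p.1.1 : EE n)) ∧
    (∀ v' : ℝ → EE n → ℝ, (∀ t x, 0 < t → t < T → x ≠ 0 → HasDerivAt (fun r => v r x) (v' t x) t) →
      ∀ p : ZZ n × TI T, (p.1.2 : Ix n → Ix n → ℝ) = w →
        derf (fun _ _ => 0) (fun _ _ => 0) (fun _ _ => 0) 1 f p = v' p.2 (p.1.1 : EE n)))

/-- MOD (1.5 h, MA2, MA3, MA4, MA5).  Assembly.  `Z = ZZ n`, `B` = subalgebra of `ZZ n × TI T → ℝ` with carrier `IsB`,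
`ev z t f = f (z,t)`, `L i j = derf (sk i j) 0 0 0`, `V a b = derf 0 (sk a b) 0 0`, `U c d = derf 0 0 (sk c d) 0`,
`Dt = derf 0 0 0 1`, `u a b`, `n0 i = x_i`, `tt`.  `LL`, `VV`, `UU`: MA3 and `[sk i j, sk k l]` = combination of `sk`
(sum over the Kronecker symbols), MA2 linearity.  `Le`: at `p`, `fld (sk i j)` at `x` is `x_i e_j - x_j e_i`, and
`n_i e_j f - n_j e_i f = n_i n_k L_kj f - n_j n_k L_ki f` is the derivative of an extension along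
`x_i (|x|² e_j - x_j x) - x_j (|x|² e_i - x_i x) = x_i e_j - x_j e_i` (`|x| = 1`).  `UeV`: `u ξ = (u ξ uᵀ) u`.  `utu` from `uut`
(square matrices). -/
def Goal_MOD : Prop := ∀ (n : ℕ) (T : ℝ), 0 < T → ∃ M : Mod n T, M.Ax

end Pool.Agent.Helper47.RFn
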